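import Pool.Agent.BWP.Defs
import Pool.Agent.BWC.KReachG
import Pool.Agent.BWC.KStab
import Pool.Agent.BWC.KMain

/-!
# All parabolic subgroups, row C: a free hyperbolic pair is conjugate to `(e₀, f₀)`
-/

set_option autoImplicit false
set_option linter.unusedSectionVars false

namespace BWP

open Matrix
open BW hiding star
open BWC

namespace Pr

section Ev

variable {k P : Type*} [DecidableEq k] [Fintype k] [Ring P] [StarRing P] {J : Matrix k k P}

theorem gJ {g : (Matrix k k P)ˣ} (hg : g ∈ isom J) : g.valᴴ * J = J * g⁻¹.val := by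
  have h := mem_isom.1 hg
  have h1 : g.val * g⁻¹.val = 1 := g.mul_inv
  calc g.valᴴ * J = g.valᴴ * J * (g.val * g⁻¹.val) := by rw [h1, Matrix.mul_one]
    _ = (g.valᴴ * J * g.val) * g⁻¹.val := by simp only [Matrix.mul_assoc]
    _ = _ := by rw [h]

theorem form_g {l l' : Type*} [Fintype l] [Fintype l'] {g : (Matrix k k P)ˣ} (hg : g ∈ isom J)
    (x : Matrix k l P) (y : Matrix k l' P) :
    (g.val * x)ᴴ * J * (g.val * y) = xᴴ * J * y := by
  have h := mem_isom.1 hg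
  calc (g.val * x)ᴴ * J * (g.val * y) = xᴴ * (g.valᴴ * J * g.val) * y := by
        rw [Matrix.conjTranspose_mul]; simp only [Matrix.mul_assoc]
    _ = _ := by rw [h]

theorem ev_conj {g : (Matrix k k P)ˣ} (hg : g ∈ isom J) (w v : Matrix k Unit P)
    (t : Matrix Unit Unit P) :
    g.val * ev 1 J w v t * g⁻¹.val = ev 1 J (g.val * w) (g.val * v) t := by
  have h1 : g.val * g⁻¹.val = 1 := g.mul_inv
  have h2 : ∀ x : Matrix k Unit P, (g.val * x)ᴴ * J = xᴴ * J * g⁻¹.val := by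
    intro x
    rw [Matrix.conjTranspose_mul, Matrix.mul_assoc, gJ hg, ← Matrix.mul_assoc]
  rw [ev, ev, h2, h2, Matrix.mul_sub, Matrix.mul_sub, Matrix.mul_add, Matrix.sub_mul,
    Matrix.sub_mul, Matrix.add_mul, Matrix.mul_one, h1]
  simp only [one_smul, Matrix.mul_assoc]

theorem EC.conj {g : (Matrix k k P)ˣ} (hg : g ∈ isom J) {w v : Matrix k Unit P}
    {t : Matrix Unit Unit P} (h : EC 1 J w v t) : EC 1 J (g.val * w) (g.val * v) t :=
  ⟨by rw [form_g hg]; exact h.ww, by rw [form_g hg]; exact h.wv, by rw [form_g hg]; exact h.tt⟩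

theorem col_star (hJ : Jᴴ = J) {l l' : Type*} [Fintype l] [Fintype l'] (x : Matrix k l P)
    (y : Matrix k l' P) :
    (xᴴ * J * y)ᴴ = yᴴ * J * x := by
  rw [Matrix.conjTranspose_mul, Matrix.conjTranspose_mul, Matrix.conjTranspose_conjTranspose, hJ,
    Matrix.mul_assoc]

theorem ev_mul (hJ : Jᴴ = J) {w v : Matrix k Unit P} {t : Matrix Unit Unit P}
    (h : EC 1 J w v t) : ev 1 J w v t * ev 1 J w (-v) tᴴ = 1 := by
  have hvw : vᴴ * J * w = 0 := by rw [← col_star hJ, h.wv, Matrix.conjTranspose_zero]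
  have htt := h.tt
  rw [one_smul, one_smul] at htt
  have e1 : ∀ (a b : Matrix k Unit P) (X Y : Matrix Unit k P),
      a * X * (b * Y) = a * (X * b) * Y := fun a b X Y => by simp only [Matrix.mul_assoc]
  rw [ev, ev, one_smul, one_smul, Matrix.conjTranspose_neg, Matrix.neg_mul, Matrix.mul_neg,
    Matrix.neg_mul, sub_neg_eq_add]
  have c1 : w * (vᴴ * J) * (w * (vᴴ * J)) = 0 := by rw [e1, hvw]; simp
  have c2 : w * (vᴴ * J) * (v * (wᴴ * J)) = w * (t + tᴴ) * (wᴴ * J) := by rw [e1, htt]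
  have c3 : w * (vᴴ * J) * (w * tᴴ * (wᴴ * J)) = 0 := by
    rw [Matrix.mul_assoc w tᴴ, e1, hvw]; simp
  have c4 : v * (wᴴ * J) * (w * (vᴴ * J)) = 0 := by rw [e1, h.ww]; simp
  have c5 : v * (wᴴ * J) * (v * (wᴴ * J)) = 0 := by rw [e1, h.wv]; simp
  have c6 : v * (wᴴ * J) * (w * tᴴ * (wᴴ * J)) = 0 := by
    rw [Matrix.mul_assoc w tᴴ, e1, h.ww]; simp
  have c7 : w * t * (wᴴ * J) * (w * (vᴴ * J)) = 0 := by rw [e1, h.ww]; simp
  have c8 : w * t * (wᴴ * J) * (v * (wᴴ * J)) = 0 := by rw [e1, h.wv]; simp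
  have c9 : w * t * (wᴴ * J) * (w * tᴴ * (wᴴ * J)) = 0 := by
    rw [Matrix.mul_assoc w tᴴ, e1, h.ww]; simp
  have e2 : w * (t + tᴴ) * (wᴴ * J) = w * t * (wᴴ * J) + w * tᴴ * (wᴴ * J) := by
    rw [Matrix.mul_add, Matrix.add_mul]
  generalize w * (vᴴ * J) = A at *
  generalize v * (wᴴ * J) = B at *
  generalize w * t * (wᴴ * J) = C at *
  generalize w * tᴴ * (wᴴ * J) = C' at *
  rw [e2] at c2
  have : (1 + A - B - C) * (1 + -A + B - C') = 1 + (-A + B - C') + (A - A * A + A * B - A * C') -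
      (B - B * A + B * B - B * C') - (C - C * A + C * B - C * C') := by
    noncomm_ring
  rw [this, c1, c2, c3, c4, c5, c6, c7, c8, c9]
  abel

theorem EC.inv {w v : Matrix k Unit P} {t : Matrix Unit Unit P}
    (h : EC 1 J w v t) : EC 1 J w (-v) tᴴ := by
  refine ⟨h.ww, by rw [Matrix.mul_neg, h.wv, neg_zero], ?_⟩
  have := h.tt
  rw [one_smul, one_smul] at this ⊢
  rw [Matrix.conjTranspose_conjTranspose, add_comm, this, Matrix.conjTranspose_neg,
    Matrix.neg_mul, Matrix.neg_mul, Matrix.mul_neg, neg_neg]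

/-- the Eichler transformation as an isometry -/
theorem exists_ev (hJ : Jᴴ = J) {w v : Matrix k Unit P} {t : Matrix Unit Unit P}
    (h : EC 1 J w v t) : ∃ g ∈ isom J, g.val = ev 1 J w v t := by
  have h1 := ev_mul hJ h
  have h2 := ev_mul hJ (EC.inv h)
  rw [neg_neg, Matrix.conjTranspose_conjTranspose] at h2
  refine ⟨⟨ev 1 J w v t, ev 1 J w (-v) tᴴ, h1, h2⟩, ?_, rfl⟩
  rw [mem_isom]
  change (ev 1 J w v t)ᴴ * J * ev 1 J w v t = J
  have h3 : (ev 1 J w v t)ᴴ * J = J * ev 1 J w (-v) tᴴ := by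
    rw [ev, ev, one_smul, one_smul]
    simp only [Matrix.conjTranspose_add, Matrix.conjTranspose_sub, Matrix.conjTranspose_one,
      Matrix.conjTranspose_mul, Matrix.conjTranspose_conjTranspose, hJ, Matrix.add_mul,
      Matrix.sub_mul, Matrix.mul_add, Matrix.mul_sub, Matrix.one_mul, Matrix.mul_one,
      Matrix.conjTranspose_neg, Matrix.neg_mul, Matrix.mul_neg, Matrix.mul_assoc]
    abel
  rw [h3, Matrix.mul_assoc, h2, Matrix.mul_one]

/-- a vector `q` isotropic with `h(e, q) = 1` is `f - v - e t` -/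
theorem pair_calc (hJ : Jᴴ = J) {e f q : Matrix k Unit P} (hee : eᴴ * J * e = 0)
    (hff : fᴴ * J * f = 0) (hfe : fᴴ * J * e = 1) (hqq : qᴴ * J * q = 0)
    (heq : eᴴ * J * q = 1) :
    ∃ v t, EC 1 J e v t ∧ fᴴ * J * v = 0 ∧ q = f - v - e * t := by
  have hef : eᴴ * J * f = 1 := by rw [← col_star hJ, hfe, Matrix.conjTranspose_one]
  have hqe : qᴴ * J * e = 1 := by rw [← col_star hJ, heq, Matrix.conjTranspose_one]
  set t : Matrix Unit Unit P := -(fᴴ * J * q) with ht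
  have hqf : qᴴ * J * f = -tᴴ := by
    rw [ht, Matrix.conjTranspose_neg, col_star hJ, neg_neg]
  set v : Matrix k Unit P := f - e * t - q with hv
  have hev : eᴴ * J * v = 0 := by
    rw [hv, Matrix.mul_sub, Matrix.mul_sub, ← Matrix.mul_assoc, hee, hef, heq]; simp
  have hfv : fᴴ * J * v = 0 := by
    rw [hv, Matrix.mul_sub, Matrix.mul_sub, ← Matrix.mul_assoc, hfe, hff, Matrix.one_mul, ht]
    simp
  have hvf : vᴴ * J * f = 0 := by rw [← col_star hJ, hfv, Matrix.conjTranspose_zero]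
  have hve : vᴴ * J * e = 0 := by rw [← col_star hJ, hev, Matrix.conjTranspose_zero]
  refine ⟨v, t, ⟨hee, hev, ?_⟩, hfv, by rw [hv]; abel⟩
  rw [one_smul, one_smul]
  have h1 : vᴴ * J * v = vᴴ * J * f - vᴴ * J * e * t - vᴴ * J * q := by
    conv_lhs => rw [hv]
    rw [Matrix.mul_sub, Matrix.mul_sub, ← Matrix.mul_assoc]
  have h2 : vᴴ * J * q = (qᴴ * J * v)ᴴ := (col_star hJ _ _).symm
  have h3 : qᴴ * J * v = qᴴ * J * f - qᴴ * J * e * t - qᴴ * J * q := by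
    conv_lhs => rw [hv]
    rw [Matrix.mul_sub, Matrix.mul_sub, ← Matrix.mul_assoc]
  rw [h1, h2, h3, hvf, hve, hqf, hqe, hqq, Matrix.zero_mul, Matrix.one_mul, sub_zero, sub_zero,
    Matrix.conjTranspose_sub]
  simp only [Matrix.conjTranspose_neg, Matrix.conjTranspose_conjTranspose]
  abel

/-- isometries fixing `e` and acting trivially on `e^⊥ / e` are Eichler transformations -/
theorem eq_ev (hJ : Jᴴ = J) {e f : Matrix k Unit P} (hee : eᴴ * J * e = 0)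
    (hff : fᴴ * J * f = 0) (hfe : fᴴ * J * e = 1) {g : (Matrix k k P)ˣ} (hg : g ∈ isom J)
    (hge : g.val * e = e)
    (hgy : ∃ L : Matrix Unit k P, (g.val - 1) * (1 - e * (fᴴ * J) - f * (eᴴ * J)) = e * L) :
    ∃ v t, EC 1 J e v t ∧ g.val = ev 1 J e v t := by
  have hef : eᴴ * J * f = 1 := by rw [← col_star hJ, hfe, Matrix.conjTranspose_one]
  have heq : eᴴ * J * (g.val * f) = 1 := by
    have h := form_g hg e f
    rw [hge] at h
    rw [h, hef]
  have hqq : (g.val * f)ᴴ * J * (g.val * f) = 0 := by rw [form_g hg, hff]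
  obtain ⟨v, t, hEC, hfv, hq⟩ := pair_calc hJ hee hff hfe hqq heq
  refine ⟨v, t, hEC, ?_⟩
  obtain ⟨L, hL⟩ := hgy
  have hvf : vᴴ * J * f = 0 := by rw [← col_star hJ, hfv, Matrix.conjTranspose_zero]
  have hve : vᴴ * J * e = 0 := by rw [← col_star hJ, hEC.wv, Matrix.conjTranspose_zero]
  set p : Matrix k k P := 1 - e * (fᴴ * J) - f * (eᴴ * J) with hp
  have hgp : g.val * p = p + e * L := by
    rw [← hL, Matrix.sub_mul, Matrix.one_mul, add_sub_cancel]
  have a1 : fᴴ * J * p = 0 := by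
    rw [hp, Matrix.mul_sub, Matrix.mul_sub, ← Matrix.mul_assoc (fᴴ * J) e,
      ← Matrix.mul_assoc (fᴴ * J) f, hfe, hff]
    simp
  have a2 : eᴴ * J * p = 0 := by
    rw [hp, Matrix.mul_sub, Matrix.mul_sub, ← Matrix.mul_assoc (eᴴ * J) e,
      ← Matrix.mul_assoc (eᴴ * J) f, hee, hef]
    simp
  have a3 : vᴴ * J * p = vᴴ * J := by
    rw [hp, Matrix.mul_sub, Matrix.mul_sub, ← Matrix.mul_assoc (vᴴ * J) e,
      ← Matrix.mul_assoc (vᴴ * J) f, hve, hvf]
    simp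
  have hL' : L = vᴴ * J := by
    have h := form_g hg f p
    rw [a1, hgp, hq, Matrix.mul_add, Matrix.conjTranspose_sub, Matrix.conjTranspose_sub,
      Matrix.conjTranspose_mul] at h
    have b1 : (fᴴ - vᴴ - tᴴ * eᴴ) * J * p = -(vᴴ * J) := by
      rw [Matrix.sub_mul, Matrix.sub_mul, Matrix.sub_mul, Matrix.sub_mul, a1, a3,
        Matrix.mul_assoc tᴴ, Matrix.mul_assoc tᴴ, a2]
      simp
    have b2 : (fᴴ - vᴴ - tᴴ * eᴴ) * J * (e * L) = L := by
      have b3 : (fᴴ - vᴴ - tᴴ * eᴴ) * J * e = 1 := by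
        rw [Matrix.sub_mul, Matrix.sub_mul, Matrix.sub_mul, Matrix.sub_mul, hfe, hve,
          Matrix.mul_assoc tᴴ, Matrix.mul_assoc tᴴ, hee]
        simp
      rw [← Matrix.mul_assoc, b3, Matrix.one_mul]
    rw [b1, b2, neg_add_eq_zero] at h
    exact h.symm
  have h1 : (1 : Matrix k k P) = p + e * (fᴴ * J) + f * (eᴴ * J) := by rw [hp]; abel
  calc g.val = g.val * 1 := (Matrix.mul_one _).symm
    _ = g.val * p + g.val * e * (fᴴ * J) + g.val * f * (eᴴ * J) := by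
        rw [h1, Matrix.mul_add, Matrix.mul_add, Matrix.mul_assoc, Matrix.mul_assoc]
    _ = ev 1 J e v t := by
        rw [hgp, hge, hq, hL', ev, one_smul]
        conv_rhs => rw [h1]
        rw [Matrix.sub_mul, Matrix.sub_mul]
        abel

end Ev

section Idx

variable {k P : Type*} [DecidableEq k] [Fintype k] [Ring P] [StarRing P] {J : Matrix k k P}

/-- the basis vector as a column -/
def cc (P : Type*) [Ring P] (a : k) : Matrix k Unit P :=
  Matrix.of fun x _ => if x = a then 1 else 0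

theorem cc_apply (a x : k) (j : Unit) : cc P a x j = if x = a then 1 else 0 := rfl

theorem mul_cc {l : Type*} (M : Matrix l k P) (a : k) :
    M * cc P a = M.submatrix id (fun _ : Unit => a) := by
  ext i j
  rw [Matrix.mul_apply]
  simp [cc_apply]

theorem cc_mul {l : Type*} (M : Matrix k l P) (a : k) :
    (cc P a)ᴴ * M = M.submatrix (fun _ : Unit => a) id := by
  ext i j
  rw [Matrix.mul_apply]
  have : ∀ x, (cc P a)ᴴ i x = if x = a then 1 else 0 := fun x => by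
    rw [Matrix.conjTranspose_apply, cc_apply]
    split_ifs <;> simp
  simp only [this]
  simp

theorem ev_of_idx (hJ : Jᴴ = J) {a b : k} (hab : a ≠ b) (ha : ∀ j, J a j = if j = b then 1 else 0)
    (hb : ∀ j, J b j = if j = a then 1 else 0) {g : (Matrix k k P)ˣ} (hg : g ∈ isom J)
    (h1 : ∀ x, g.val x a = (1 : Matrix k k P) x a)
    (h2 : ∀ x y, y ≠ a → y ≠ b → x ≠ a → g.val x y = (1 : Matrix k k P) x y) :
    ∃ v t, EC 1 J (cc P a) v t ∧ g.val = ev 1 J (cc P a) v t := by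
  refine eq_ev (f := cc P b) hJ ?_ ?_ ?_ hg ?_ ?_
  · rw [cc_mul, mul_cc]
    ext i j
    simp [ha, hab]
  · rw [cc_mul, mul_cc]
    ext i j
    simp [hb, hab.symm]
  · rw [cc_mul, mul_cc]
    ext i j
    simp [hb]
  · rw [mul_cc]
    ext x j
    rw [Matrix.submatrix_apply, id, h1, cc_apply, Matrix.one_apply]
  · refine ⟨Matrix.of fun _ y => if y = a ∨ y = b then 0 else g.val a y, ?_⟩
    rw [cc_mul, cc_mul]
    have hp : (1 - cc P a * J.submatrix (fun _ : Unit => b) id -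
        cc P b * J.submatrix (fun _ : Unit => a) id : Matrix k k P) =
        Matrix.diagonal fun y => if y = a ∨ y = b then 0 else 1 := by
      ext x y
      rw [Matrix.sub_apply, Matrix.sub_apply, Matrix.mul_apply, Matrix.mul_apply,
        Matrix.diagonal_apply, Matrix.one_apply]
      simp only [Finset.univ_unique, PUnit.default_eq_unit, Finset.sum_singleton, cc_apply,
        Matrix.submatrix_apply, id, ha, hb]
      by_cases hxa : x = a
      · subst hxa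
        by_cases hy : y = x
        · subst hy; simp [hab]
        · simp [hy, Ne.symm hy, hab]
      · by_cases hxb : x = b
        · subst hxb
          by_cases hy : y = x
          · subst hy; simp [hxa]
          · simp [hy, Ne.symm hy, hxa]
        · by_cases hy : y = x
          · subst hy; simp [hxa, hxb]
          · simp [hxa, hxb, Ne.symm hy]
    rw [hp]
    ext x y
    rw [Matrix.mul_diagonal, Matrix.mul_apply]
    simp only [Finset.univ_unique, PUnit.default_eq_unit, Finset.sum_singleton, cc_apply,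
      Matrix.sub_apply, Matrix.of_apply]
    by_cases hy : y = a ∨ y = b
    · simp [hy]
    · have hya : y ≠ a := fun h => hy (Or.inl h)
      have hyb : y ≠ b := fun h => hy (Or.inr h)
      by_cases hx : x = a
      · subst hx
        simp [hya, hyb, Ne.symm hya]
      · simp [hx, h2 x y hya hyb hx]

variable {n r : Type*} [DecidableEq n] [Fintype n] [DecidableEq r] [Fintype r] {D : Matrix r r P}

theorem JG_herm (hD : Dᴴ = D) : (JG 1 n D)ᴴ = JG 1 n D := by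
  rw [JG, BWC.J, Matrix.fromBlocks_conjTranspose, Matrix.fromBlocks_conjTranspose, hD]
  simp

theorem JG_e (i : n) (j : (n ⊕ n) ⊕ r) : JG 1 n D (Sum.inl (Sum.inl i)) j =
    if j = Sum.inl (Sum.inr i) then 1 else 0 := by
  rcases j with (j | j) | j <;> simp [JG, BWC.J, Matrix.one_apply, @eq_comm _ i]

theorem JG_f (i : n) (j : (n ⊕ n) ⊕ r) : JG 1 n D (Sum.inl (Sum.inr i)) j =
    if j = Sum.inl (Sum.inl i) then 1 else 0 := by
  rcases j with (j | j) | j <;> simp [JG, BWC.J, Matrix.one_apply, @eq_comm _ i]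

theorem UF_ev (hD : Dᴴ = D) (i : n) {g : (Matrix ((n ⊕ n) ⊕ r) ((n ⊕ n) ⊕ r) P)ˣ}
    (hg : g ∈ UF 1 (Pi.single i (-1)) D) :
    ∃ v t, EC 1 (JG 1 n D) (cc P (Sum.inl (Sum.inl i))) v t ∧
      g.val = ev 1 (JG 1 n D) (cc P (Sum.inl (Sum.inl i))) v t := by
  have hle : ∀ x, -1 ≤ flF r (Pi.single i (-1) : n → ℤ) x := by
    rintro ((x | x) | x)
    · change -1 ≤ (Pi.single i (-1) : n → ℤ) x
      rw [Pi.single_apply]; split_ifs <;> simp
    · change -1 ≤ -(Pi.single i (-1) : n → ℤ) x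
      rw [Pi.single_apply]; split_ifs <;> simp
    · exact (by norm_num : (-1 : ℤ) ≤ 0)
  have hzero : ∀ x, x ≠ Sum.inl (Sum.inl i) → 0 ≤ flF r (Pi.single i (-1) : n → ℤ) x := by
    rintro ((x | x) | x) hx
    · change 0 ≤ (Pi.single i (-1) : n → ℤ) x
      rw [Pi.single_eq_of_ne]
      rintro rfl
      exact hx rfl
    · change 0 ≤ -(Pi.single i (-1) : n → ℤ) x
      rw [Pi.single_apply]; split_ifs <;> simp
    · exact le_rfl
  have hzero' : ∀ x, x ≠ Sum.inl (Sum.inr i) → flF r (Pi.single i (-1) : n → ℤ) x ≤ 0 := by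
    rintro ((x | x) | x) hx
    · change (Pi.single i (-1) : n → ℤ) x ≤ 0
      rw [Pi.single_apply]; split_ifs <;> simp
    · change -(Pi.single i (-1) : n → ℤ) x ≤ 0
      rw [Pi.single_eq_of_ne, neg_zero]
      rintro rfl
      exact hx rfl
    · exact le_rfl
  refine ev_of_idx (b := Sum.inl (Sum.inr i)) (JG_herm hD) (by simp) (JG_e i) (JG_f i) hg.1
    (fun x => hg.2 x _ ?_) (fun x y h1 h2 h3 => hg.2 x y ?_)
  · have h1 : flF r (Pi.single i (-1) : n → ℤ) (Sum.inl (Sum.inl i)) = -1 := by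
      change (Pi.single i (-1) : n → ℤ) i = -1
      rw [Pi.single_eq_same]
    rw [h1, not_lt]
    exact hle x
  · exact not_lt.2 ((hzero' y h2).trans (hzero x h3))

theorem UF_ev' (hD : Dᴴ = D) (i : n) {g : (Matrix ((n ⊕ n) ⊕ r) ((n ⊕ n) ⊕ r) P)ˣ}
    (hg : g ∈ UF 1 (-(Pi.single i (-1))) D) :
    ∃ v t, EC 1 (JG 1 n D) (cc P (Sum.inl (Sum.inr i))) v t ∧
      g.val = ev 1 (JG 1 n D) (cc P (Sum.inl (Sum.inr i))) v t := by
  have hneg : (-(Pi.single i (-1)) : n → ℤ) = Pi.single i 1 := by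
    rw [← Pi.single_neg, neg_neg]
  rw [hneg] at hg
  have hle : ∀ x, -1 ≤ flF r (Pi.single i 1 : n → ℤ) x := by
    rintro ((x | x) | x)
    · change -1 ≤ (Pi.single i 1 : n → ℤ) x
      rw [Pi.single_apply]; split_ifs <;> simp
    · change -1 ≤ -(Pi.single i 1 : n → ℤ) x
      rw [Pi.single_apply]; split_ifs <;> simp
    · exact (by norm_num : (-1 : ℤ) ≤ 0)
  have hzero : ∀ x, x ≠ Sum.inl (Sum.inr i) → 0 ≤ flF r (Pi.single i 1 : n → ℤ) x := by
    rintro ((x | x) | x) hx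
    · change 0 ≤ (Pi.single i 1 : n → ℤ) x
      rw [Pi.single_apply]; split_ifs <;> simp
    · change 0 ≤ -(Pi.single i 1 : n → ℤ) x
      rw [Pi.single_eq_of_ne, neg_zero]
      rintro rfl
      exact hx rfl
    · exact le_rfl
  have hzero' : ∀ x, x ≠ Sum.inl (Sum.inl i) → flF r (Pi.single i 1 : n → ℤ) x ≤ 0 := by
    rintro ((x | x) | x) hx
    · change (Pi.single i 1 : n → ℤ) x ≤ 0
      rw [Pi.single_eq_of_ne]
      rintro rfl
      exact hx rfl
    · change -(Pi.single i 1 : n → ℤ) x ≤ 0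
      rw [Pi.single_apply]; split_ifs <;> simp
    · exact le_rfl
  refine ev_of_idx (b := Sum.inl (Sum.inl i)) (JG_herm hD) (by simp) (JG_f i) (JG_e i) hg.1
    (fun x => hg.2 x _ ?_) (fun x y h1 h2 h3 => hg.2 x y ?_)
  · have h1 : flF r (Pi.single i 1 : n → ℤ) (Sum.inl (Sum.inr i)) = -1 := by
      change -(Pi.single i 1 : n → ℤ) i = -1
      rw [Pi.single_eq_same]
    rw [h1, not_lt]
    exact hle x
  · exact not_lt.2 ((hzero' y h2).trans (hzero x h3))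

end Idx

section Col

variable {k P : Type*} [DecidableEq k] [Fintype k] [Ring P] [StarRing P]

theorem col_form (J : Matrix k k P) (x y : Matrix k Unit P) :
    (xᴴ * J * y) () () = star (fun i => x i ()) ⬝ᵥ (J *ᵥ fun i => y i ()) := by
  rw [Matrix.mul_assoc, Matrix.mul_apply]
  simp [dotProduct, Matrix.mulVec, Matrix.mul_apply]

theorem col_ext {x y : Matrix k Unit P} (h : (fun i => x i ()) = fun i => y i ()) : x = y := by
  ext i j
  exact congrFun h i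

theorem mul_col (M : Matrix k k P) (x : Matrix k Unit P) :
    (fun i => (M * x) i ()) = M *ᵥ fun i => x i () := by
  ext i
  simp [dotProduct, Matrix.mulVec, Matrix.mul_apply]

end Col

section Move

variable {n r P : Type*} [DecidableEq n] [Fintype n] [DecidableEq r] [Fintype r] [Ring P]
  [StarRing P]

/-- an isotropic vector with a dual vector is moved to `(a; 0; 0)`, `a` unimodular -/
theorem to_a0 {A D : Matrix r r P} (hD : D = A + (1 : ℤ) • Aᴴ) (hR : Reach 1 n D)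
    (W W' : (n ⊕ n) ⊕ r → P) (hW : star W ⬝ᵥ (JG 1 n D *ᵥ W) = 0)
    (hW' : star W' ⬝ᵥ (JG 1 n D *ᵥ W) = 1) :
    ∃ e ∈ EG 1 n D, ∃ a y : n → P, y ⬝ᵥ a = 1 ∧
      e.val *ᵥ W = Sum.elim (Sum.elim a 0) 0 := by
  have hε : (1 : ℤ) * 1 = 1 := by norm_num
  obtain ⟨a', c', z', rfl⟩ : ∃ a c z, W' = Sum.elim (Sum.elim a c) z :=
    ⟨_, _, _, (elim_eta W').symm⟩
  obtain ⟨a, c, z, hz⟩ : ∃ a c z, W = Sum.elim (Sum.elim a c) z := ⟨_, _, _, (elim_eta W).symm⟩
  rw [hz, hG_eq, hG, one_smul] at hW'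
  obtain ⟨e0, he0, -, y, hy⟩ := hR a c (star c') (star a') z z' (by
    rw [← hW', add_comm (star a' ⬝ᵥ c)])
  rw [← hz] at hy
  obtain ⟨a1, c1, z1, hz1⟩ : ∃ a c z, e0.val *ᵥ W = Sum.elim (Sum.elim a c) z :=
    ⟨_, _, _, (elim_eta _).symm⟩
  have hy1 : y ⬝ᵥ a1 = 1 := by
    rw [hz1] at hy
    exact hy
  -- kill `z`
  set e1 := lA A D (Matrix.vecMulVec (-z1) y) with he1
  have he1m : e1 ∈ EG 1 n D := lA_mem_EG hε hD _
  obtain ⟨c2, hc2⟩ : ∃ c2 : n → P, e1.val *ᵥ Sum.elim (Sum.elim a1 c1) z1 =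
      Sum.elim (Sum.elim a1 c2) 0 := by
    refine ⟨c1 - ((Matrix.vecMulVec (-z1) y)ᴴ * A * Matrix.vecMulVec (-z1) y) *ᵥ a1 -
      (Matrix.vecMulVec (-z1) y)ᴴ *ᵥ (D *ᵥ z1), ?_⟩
    rw [he1, lA_mulVec]
    congr 1
    rw [vec_mulVec, hy1]
    ext i
    simp
  -- the length
  have hσ : star a1 ⬝ᵥ c2 + (1 : ℤ) • (star c2 ⬝ᵥ a1) = 0 := by
    have h := isom_form (mul_mem (EG_le 1 n D he1m) (EG_le 1 n D he0)) W W
    rw [Units.val_mul, ← Matrix.mulVec_mulVec, hz1, hc2, hG_eq, hW, hG] at h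
    simpa using h
  have hσ' : star a1 ⬝ᵥ c2 + (1 : ℤ) • star (star a1 ⬝ᵥ c2) = 0 := by
    rw [← Matrix.star_dotProduct_star, star_star] at *
    exact hσ
  set C := killM 1 c2 y (star a1 ⬝ᵥ c2) with hC
  have hCa : C *ᵥ a1 = -c2 := killM_mulVec hy1 hσ
  have hCs : Sk 1 C := killM_sk hε hσ'
  refine ⟨embH r (lo C) * (e1 * e0), mul_mem (embH_mem_EG hε (lo_mem hCs)) (mul_mem he1m he0),
    a1, y, hy1, ?_⟩
  rw [Units.val_mul, Units.val_mul, ← Matrix.mulVec_mulVec, ← Matrix.mulVec_mulVec, hz1, hc2,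
    embH_lo, lb_mulVec, hCa, Matrix.zero_mulVec, Matrix.zero_mulVec, add_neg_cancel,
    add_zero, add_zero]

theorem GF_le_conj {D : Matrix r r P} (hD : Dᴴ = D) (i : n)
    {a : (Matrix ((n ⊕ n) ⊕ r) ((n ⊕ n) ⊕ r) P)ˣ} (ha : a ∈ isom (JG 1 n D))
    (H : Subgroup (Matrix ((n ⊕ n) ⊕ r) ((n ⊕ n) ⊕ r) P)ˣ)
    (w w' : Matrix ((n ⊕ n) ⊕ r) Unit P)
    (hae : a.val * (cc P (Sum.inl (Sum.inl i)) : Matrix ((n ⊕ n) ⊕ r) Unit P) = w)
    (haf : a.val * (cc P (Sum.inl (Sum.inr i)) : Matrix ((n ⊕ n) ⊕ r) Unit P) = w')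
    (hw : ∀ v, wᴴ * JG 1 n D * v = 0 → EM 1 (JG 1 n D) H w v)
    (hw' : ∀ v, w'ᴴ * JG 1 n D * v = 0 → EM 1 (JG 1 n D) H w' v) :
    GF 1 (Pi.single i (-1)) D ≤ H.comap (MulAut.conj a).toMonoidHom := by
  refine sup_le ?_ ?_
  · intro g hg
    obtain ⟨v, t, hEC, hgv⟩ := UF_ev hD i hg
    have h2 := EC.conj ha hEC
    rw [hae] at h2
    refine hw _ h2.wv _ t h2 ?_
    change a.val * g.val * a⁻¹.val = _
    rw [hgv, ev_conj ha, hae]
  · intro g hg
    obtain ⟨v, t, hEC, hgv⟩ := UF_ev' hD i hg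
    have h2 := EC.conj ha hEC
    rw [haf] at h2
    refine hw' _ h2.wv _ t h2 ?_
    change a.val * g.val * a⁻¹.val = _
    rw [hgv, ev_conj ha, haf]

end Move

section Fam

variable {ι : Type*} {N : ι → ℕ} {R Λ : ι → Type} [∀ i, CommRing (R i)]
  [∀ i, IsLocalization.Away (N i : ℤ) (R i)] [∀ i, Ring (Λ i)] [∀ i, StarRing (Λ i)]
  [∀ i, Algebra (R i) (Λ i)] [∀ i, Module.Free (R i) (Λ i)] [∀ i, Module.Finite (R i) (Λ i)]
  {r : Type*} [DecidableEq r] [Fintype r]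

/-- unimodular first halves -/
theorem to_e0 (hN : ∀ i, N i ≠ 0) (Q : ∀ i, QAlg (N i) (R i) (Λ i))
    (hQ : ∀ i x, star x = (Q i).conj x) {m : ℕ} (a y : Fin (m + 2) → ∀ i, Λ i)
    (hy : y ⬝ᵥ a = 1) :
    ∃ e ∈ EUL 1 (Fin (m + 2)) (∀ i, Λ i),
      e.val *ᵥ Sum.elim a 0 = Pi.single (Sum.inl 0) 1 := by
  obtain ⟨K, hK⟩ := trans_ball m
  choose x hx hxc using fun i => hK (N i) (R i) (Λ i) (hN i) (Q i) (hQ i) (fun j => a j i)
    (fun _ => 0) (fun j => y j i) (fun _ => 0) (by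
      have h := congrFun hy i
      rw [dotProduct, Finset.sum_apply] at h
      simpa using h) (by simp)
  obtain ⟨e, he, hex⟩ := ball_pi K x hx
  refine ⟨e, he, ?_⟩
  funext s
  funext i
  have h1 := congrFun (hxc i) s
  rw [Matrix.mulVec, dotProduct, Fintype.sum_sum_type] at h1 ⊢
  simp only [Sum.elim_inl, Sum.elim_inr, mul_zero, Finset.sum_const_zero, add_zero,
    Pi.zero_apply] at h1 ⊢
  rw [Finset.sum_apply]
  have h3 : ∀ j, (x i).val s j = e.val s j i := fun j => by rw [← hex i]; rfl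
  simp only [h3] at h1
  refine Eq.trans h1 ?_
  rw [Pi.single_apply, Pi.single_apply]
  split_ifs <;> rfl

/-- transitivity on the free isotropic vectors of `H^(m + 2) ⊥ V₀` -/
theorem reach_e0 (hN : ∀ i, N i ≠ 0) (Q : ∀ i, QAlg (N i) (R i) (Λ i))
    (hQ : ∀ i x, star x = (Q i).conj x) {m : ℕ} {A D : Matrix r r (∀ i, Λ i)}
    (hD : D = A + (1 : ℤ) • Aᴴ)
    (W W' : (Fin (m + 2) ⊕ Fin (m + 2)) ⊕ r → ∀ i, Λ i)
    (hW : star W ⬝ᵥ (JG 1 (Fin (m + 2)) D *ᵥ W) = 0)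
    (hW' : star W' ⬝ᵥ (JG 1 (Fin (m + 2)) D *ᵥ W) = 1) :
    ∃ g ∈ isom (JG 1 (Fin (m + 2)) D), g.val *ᵥ W = Pi.single (Sum.inl (Sum.inl 0)) 1 := by
  have hEUL : EUL 1 (Fin (m + 2)) (∀ i, Λ i) = EU 1 (Fin (m + 2)) (∀ i, Λ i) :=
    BWE.EUL_all hN Q hQ (m + 2) (by omega)
  obtain ⟨e, he, a, y, hy, ha⟩ := to_a0 hD (fun a c x w z t h =>
    reachG_of hEUL (by simp) hN Q hQ hD a c x w z t h) W W' hW hW'
  obtain ⟨e', he', hea⟩ := to_e0 hN Q hQ a y hy
  refine ⟨embH r e' * e, mul_mem (embH_memG (EUL_le_UG (by norm_num) he')) (EG_le _ _ _ he), ?_⟩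
  rw [Units.val_mul, ← Matrix.mulVec_mulVec, ha, embH_mulVec, hea]
  ext j
  rcases j with j | j
  · simp [Pi.single_apply]
  · simp

/-- hyperbolic pairs are conjugate -/
theorem exists_pair (hN : ∀ i, N i ≠ 0) (Q : ∀ i, QAlg (N i) (R i) (Λ i))
    (hQ : ∀ i x, star x = (Q i).conj x) {m : ℕ} {A D : Matrix r r (∀ i, Λ i)}
    (hD : D = A + (1 : ℤ) • Aᴴ)
    (w w' : Matrix ((Fin (m + 2) ⊕ Fin (m + 2)) ⊕ r) Unit (∀ i, Λ i))
    (hww : wᴴ * JG 1 (Fin (m + 2)) D * w = 0) (hww' : w'ᴴ * JG 1 (Fin (m + 2)) D * w' = 0)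
    (h1 : w'ᴴ * JG 1 (Fin (m + 2)) D * w = 1) :
    ∃ g ∈ isom (JG 1 (Fin (m + 2)) D),
      g.val * (cc (∀ i, Λ i) (Sum.inl (Sum.inl 0)) :
        Matrix ((Fin (m + 2) ⊕ Fin (m + 2)) ⊕ r) Unit (∀ i, Λ i)) = w ∧
      g.val * (cc (∀ i, Λ i) (Sum.inl (Sum.inr 0)) :
        Matrix ((Fin (m + 2) ⊕ Fin (m + 2)) ⊕ r) Unit (∀ i, Λ i)) = w' := by
  have hDs := conj_even (ε := 1) (by norm_num) hD
  rw [one_smul] at hDs
  have hJ := JG_herm (n := Fin (m + 2)) hDs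
  have he := JG_e (n := Fin (m + 2)) (D := D) 0
  have hf := JG_f (n := Fin (m + 2)) (D := D) 0
  set J := JG 1 (Fin (m + 2)) D with hJd
  obtain ⟨g1, hg1, h2⟩ := reach_e0 hN Q hQ hD (fun i => w i ()) (fun i => w' i ())
    ((col_form _ _ _).symm.trans (by rw [← hJd, hww]; rfl))
    ((col_form _ _ _).symm.trans (by rw [← hJd, h1]; rfl))
  rw [← hJd] at hg1
  set e : Matrix ((Fin (m + 2) ⊕ Fin (m + 2)) ⊕ r) Unit (∀ i, Λ i) :=
    cc _ (Sum.inl (Sum.inl 0)) with hed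
  set f : Matrix ((Fin (m + 2) ⊕ Fin (m + 2)) ⊕ r) Unit (∀ i, Λ i) :=
    cc _ (Sum.inl (Sum.inr 0)) with hfd
  have h3 : g1.val * w = e := by
    refine col_ext ?_
    rw [mul_col, h2]
    ext j
    rw [Pi.single_apply, hed, cc_apply]
  have hee : eᴴ * J * e = 0 := by
    rw [hed, cc_mul, mul_cc]
    ext i j
    simp [he]
  have hff : fᴴ * J * f = 0 := by
    rw [hfd, cc_mul, mul_cc]
    ext i j
    simp [hf]
  have hfe : fᴴ * J * e = 1 := by
    rw [hed, hfd, cc_mul, mul_cc]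
    ext i j
    simp [hf]
  have hef : eᴴ * J * f = 1 := by rw [← col_star hJ, hfe, Matrix.conjTranspose_one]
  obtain ⟨v, t, hEC, hfv, hq⟩ := pair_calc hJ hee hff hfe
    (q := g1.val * w') (by rw [form_g hg1, hww']) (by
      rw [← h3, form_g hg1, ← col_star hJ, h1, Matrix.conjTranspose_one])
  obtain ⟨g2, hg2, hg2v⟩ := exists_ev hJ hEC
  have hve : vᴴ * J * e = 0 := by rw [← col_star hJ, hEC.wv, Matrix.conjTranspose_zero]
  have hvf : vᴴ * J * f = 0 := by rw [← col_star hJ, hfv, Matrix.conjTranspose_zero]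
  have k1 : g2.val * e = e := by
    rw [hg2v, ev, one_smul, Matrix.sub_mul, Matrix.sub_mul, Matrix.add_mul, Matrix.one_mul,
      Matrix.mul_assoc e, Matrix.mul_assoc v, Matrix.mul_assoc (e * t), hve, hee]
    simp
  have k2 : g2.val * f = g1.val * w' := by
    rw [hq, hg2v, ev, one_smul, Matrix.sub_mul, Matrix.sub_mul, Matrix.add_mul, Matrix.one_mul,
      Matrix.mul_assoc e, Matrix.mul_assoc v, Matrix.mul_assoc (e * t), hvf, hef]
    simp
  have hi : ∀ (g : (Matrix ((Fin (m + 2) ⊕ Fin (m + 2)) ⊕ r)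
      ((Fin (m + 2) ⊕ Fin (m + 2)) ⊕ r) (∀ i, Λ i))ˣ)
      (x : Matrix ((Fin (m + 2) ⊕ Fin (m + 2)) ⊕ r) Unit (∀ i, Λ i)),
      g⁻¹.val * (g.val * x) = x := fun g x => by
    rw [← Matrix.mul_assoc, Units.inv_mul, Matrix.one_mul]
  refine ⟨g1⁻¹ * g2, mul_mem (inv_mem hg1) hg2, ?_, ?_⟩
  · change g1⁻¹.val * g2.val * e = w
    rw [Matrix.mul_assoc, k1, ← h3, hi]
  · change g1⁻¹.val * g2.val * f = w'
    rw [Matrix.mul_assoc, k2, hi]

end Fam

end Pr

section Pair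

variable {ι : Type*} {N : ι → ℕ} {R Λ : ι → Type} [∀ i, CommRing (R i)]
  [∀ i, IsLocalization.Away (N i : ℤ) (R i)] [∀ i, Ring (Λ i)] [∀ i, StarRing (Λ i)]
  [∀ i, Algebra (R i) (Λ i)] [∀ i, Module.Free (R i) (Λ i)] [∀ i, Module.Finite (R i) (Λ i)]
  {r : Type*} [DecidableEq r] [Fintype r]

open Pr

/-- (C) the radicals of one free hyperbolic pair generate the isometry group -/
theorem pair_big (hN : ∀ i, N i ≠ 0) (h4 : ∀ i, Module.finrank (R i) (Λ i) = 4)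
    (Q : ∀ i, QAlg (N i) (R i) (Λ i)) (hQ : ∀ i x, star x = (Q i).conj x)
    {m : ℕ} (hm : 2 ≤ m) {A D D' : Matrix r r (∀ i, Λ i)} (hD : D = A + (1 : ℤ) • Aᴴ)
    (hDD : D * D' = 1) (hDD' : D' * D = 1)
    (H : Subgroup (Matrix ((Fin m ⊕ Fin m) ⊕ r) ((Fin m ⊕ Fin m) ⊕ r) (∀ i, Λ i))ˣ)
    (w w' : Matrix ((Fin m ⊕ Fin m) ⊕ r) Unit (∀ i, Λ i))
    (hww : wᴴ * JG 1 (Fin m) D * w = 0) (hww' : w'ᴴ * JG 1 (Fin m) D * w' = 0)
    (h1 : w'ᴴ * JG 1 (Fin m) D * w = 1)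
    (hw : ∀ v, wᴴ * JG 1 (Fin m) D * v = 0 → EM 1 (JG 1 (Fin m) D) H w v)
    (hw' : ∀ v, w'ᴴ * JG 1 (Fin m) D * v = 0 → EM 1 (JG 1 (Fin m) D) H w' v) :
    isom (JG 1 (Fin m) D) ≤ H := by
  obtain ⟨m, rfl⟩ : ∃ m', m = m' + 2 := ⟨m - 2, by omega⟩
  have hε : (1 : ℤ) * 1 = 1 := by norm_num
  have hDs := conj_even hε hD
  rw [one_smul] at hDs
  obtain ⟨a, ha, hae, haf⟩ := exists_pair hN Q hQ hD w w' hww hww' h1
  have hen : Enough (Fin (m + 2)) (∀ i, Λ i) 1 := by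
    choose s1 s2 y1 y2 h1 h2 h3 using fun i => BWE.pure_gen (hN i) (Q i)
    exact Or.inr ⟨s1, s2, y1, y2, by rw [star_pure Q hQ h1, one_smul],
      by rw [star_pure Q hQ h2, one_smul], funext h3⟩
  have hEUL : EUL 1 (Fin (m + 2)) (∀ i, Λ i) = EU 1 (Fin (m + 2)) (∀ i, Λ i) :=
    BWE.EUL_all hN Q hQ (m + 2) hm
  have hE : isom (JG 1 (Fin (m + 2)) D) = EG 1 (Fin (m + 2)) D :=
    isom_eq_EG hε hD hDD hDD' (fun a c x w z t h =>
      reachG_of hEUL (by simp) hN Q hQ hD a c x w z t h)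
      (fun g hg => BWE.main_all hN h4 Q hQ (m + 2) hm g hg)
  have hf : (Pi.single 0 (-1) : Fin (m + 2) → ℤ) ≠ 0 := fun h => by
    have := congrFun h 0
    simp at this
  have hle : EG 1 (Fin (m + 2)) D ≤ H.comap (MulAut.conj a).toMonoidHom :=
    (EG_le_GF' hε hen hD hf).trans (GF_le_conj hDs 0 ha H w w' hae haf hw hw')
  intro g hg
  have h3 : a⁻¹ * g * a ∈ isom (JG 1 (Fin (m + 2)) D) := mul_mem (mul_mem (inv_mem ha) hg) ha
  rw [hE] at h3
  have h4 := hle h3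
  rw [Subgroup.mem_comap] at h4
  change a * (a⁻¹ * g * a) * a⁻¹ ∈ H at h4
  have h5 : a * (a⁻¹ * g * a) * a⁻¹ = g := by group
  rwa [h5] at h4

end Pair

end BWP
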