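import Pool.Agent.BWP.G
import Pool.Agent.BW.APSys

/-!
# The radical of the parabolic subgroup of an isotropic summand (helper56)
-/

set_option linter.unusedSectionVars false
set_option linter.unusedSimpArgs false

namespace BWP

open Matrix
open BW hiding star
open BWC

section UR

variable {k P : Type*} [DecidableEq k] [Fintype k] [Ring P] [StarRing P]
  {J e e' A : Matrix k k P} {ε : ℤ} {H : Subgroup (Matrix k k P)ˣ}

theorem one_sub_of {e X : Matrix k k P} (h : (1 - e) * X = 0) : X = e * X := by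
  rw [sub_mul, one_mul, sub_eq_zero] at h
  exact h

/-- the unipotent radical of the stabilizer of the image of `e` -/
def UR (h : Idem J e e') : Subgroup (Matrix k k P)ˣ where
  carrier := {g | g ∈ isom J ∧ (g.val - 1) * e = 0 ∧ e' * (g.val - 1) = 0 ∧
    (1 - e) * (g.val - 1) * (1 - e') = 0}
  one_mem' := by
    refine ⟨one_mem _, ?_, ?_, ?_⟩
    all_goals simp
  mul_mem' := by
    rintro a b ⟨a0, a1, a2, a3⟩ ⟨b0, b1, b2, b3⟩
    have h1 : (a * b).val - 1 = (a.val - 1) * (b.val - 1) + (a.val - 1) + (b.val - 1) := by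
      rw [Units.val_mul]; noncomm_ring
    refine ⟨mul_mem a0 b0, ?_, ?_, ?_⟩
    · rw [h1, add_mul, add_mul, mul_assoc, b1, a1, mul_zero, add_zero, add_zero]
    · rw [h1, mul_add, mul_add, ← mul_assoc, a2, b2, zero_mul, add_zero, add_zero]
    · rw [h1, mul_add, mul_add, add_mul, add_mul, a3, b3, add_zero, add_zero]
      have h2 : (b.val - 1) * (1 - e') = e * ((b.val - 1) * (1 - e')) :=
        one_sub_of (by rw [← mul_assoc]; exact b3)
      rw [mul_assoc, mul_assoc (a.val - 1), h2, ← mul_assoc (a.val - 1), a1, zero_mul, mul_zero]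
  inv_mem' := by
    rintro a ⟨a0, a1, a2, a3⟩
    have h1 : (a⁻¹).val - 1 = -((a⁻¹).val * (a.val - 1)) := by
      rw [mul_sub, ← Units.val_mul, inv_mul_cancel, Units.val_one]; noncomm_ring
    have h2 : (a⁻¹).val - 1 = -((a.val - 1) * (a⁻¹).val) := by
      rw [sub_mul, ← Units.val_mul, mul_inv_cancel, Units.val_one]; noncomm_ring
    have h3 : ((a⁻¹).val - 1) * e = 0 := by rw [h1, neg_mul, mul_assoc, a1, mul_zero, neg_zero]
    have h4 : (a⁻¹).val * e = e := by
      rw [sub_mul, one_mul, sub_eq_zero] at h3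
      exact h3
    refine ⟨inv_mem a0, h3, ?_, ?_⟩
    · rw [h2, mul_neg, ← mul_assoc, a2, zero_mul, neg_zero]
    · have h5 : (a.val - 1) * (1 - e') = e * ((a.val - 1) * (1 - e')) :=
        one_sub_of (by rw [← mul_assoc]; exact a3)
      rw [h1, mul_neg, neg_mul, mul_assoc, mul_assoc (a⁻¹).val, h5, ← mul_assoc (a⁻¹).val, h4,
        ← mul_assoc, sub_mul, one_mul, h.ee, sub_self, zero_mul, neg_zero]

theorem mem_UR {h : Idem J e e'} {g : (Matrix k k P)ˣ} : g ∈ UR h ↔ g ∈ isom J ∧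
    (g.val - 1) * e = 0 ∧ e' * (g.val - 1) = 0 ∧ (1 - e) * (g.val - 1) * (1 - e') = 0 := Iff.rfl

theorem UR_le (h : Idem J e e') : UR h ≤ isom J := fun _ hg => hg.1

theorem Idem.row (h : Idem J e e') (b : Matrix k Unit P) : bᴴ * J * e = (e' * b)ᴴ * J := by
  rw [Matrix.mul_assoc, ← h.adj', ← Matrix.mul_assoc, ← Matrix.conjTranspose_mul]

/-- the Eichler transformations of `UR` -/
theorem ev_mem_UR (hε : ε * ε = 1) (hJ : Jᴴ = ε • J) (h : Idem J e e') {x v : Matrix k Unit P}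
    {t : Matrix Unit Unit P} (hx : e * x = x) (hv : e' * v = 0) (hc : EC ε J x v t)
    {g : (Matrix k k P)ˣ} (hg : g.val = ev ε J x v t) : g ∈ UR h := by
  have h0 : g = E hε hJ hc := Units.ext hg
  have hx' : e' * x = 0 := h.kill hx
  have a1 : ∀ (a : Matrix k Unit P) (s : Matrix Unit Unit P), op J a s v * e = 0 := by
    intro a s
    rw [op, Matrix.mul_assoc, h.row, hv, Matrix.conjTranspose_zero, Matrix.zero_mul,
      Matrix.mul_zero]
  have a2 : ∀ (a : Matrix k Unit P) (s : Matrix Unit Unit P), op J a s x * e = 0 := by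
    intro a s
    rw [op, Matrix.mul_assoc, h.row, hx', Matrix.conjTranspose_zero, Matrix.zero_mul,
      Matrix.mul_zero]
  have a3 : ∀ (a : Matrix k Unit P) (s : Matrix Unit Unit P), op J a s x * (1 - e') = 0 := by
    intro a s
    rw [mul_sub, mul_one, op, Matrix.mul_assoc _ _ e', h.swap.row, hx, sub_self]
  have hg1 : g.val - 1 = op J x 1 v - ε • op J v 1 x - op J x t x := by
    rw [hg, ev_eq]; abel
  refine ⟨h0 ▸ E_mem_isom hε hJ hc, ?_, ?_, ?_⟩
  · rw [hg1]
    simp only [sub_mul, smul_mul_assoc, a1, a2, smul_zero, sub_zero]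
  · rw [hg1]
    simp only [mul_sub, mul_smul_comm, mul_op, hx', hv, op_zero_left, smul_zero, sub_zero]
  · have h1 : (1 - e) * op J x 1 v = 0 := by
      rw [mul_op, Matrix.sub_mul, Matrix.one_mul, hx, sub_self, op_zero_left]
    have h2 : (1 - e) * op J x t x = 0 := by
      rw [mul_op, Matrix.sub_mul, Matrix.one_mul, hx, sub_self, op_zero_left]
    have h3 : (1 - e) * (op J x 1 v - ε • op J v 1 x - op J x t x) =
        -(ε • ((1 - e) * op J v 1 x)) := by
      rw [mul_sub (1 - e), mul_sub (1 - e), h1, h2, sub_zero, zero_sub, mul_smul_comm]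
    rw [hg1, h3, neg_mul, smul_mul_assoc, mul_assoc, a3, mul_zero, smul_zero, neg_zero]

/-- the group generated by the two radicals -/
theorem big_UR (hε : ε * ε = 1) (hJ : Jᴴ = ε • J) (h : Idem J e e') :
    Big ε J e e' (UR h ⊔ UR h.swap) :=
  ⟨fun _ _ hx hv _ _ hc hg => Subgroup.mem_sup_left (ev_mem_UR hε hJ h hx hv hc hg),
    fun _ _ hx hv _ _ hc hg => Subgroup.mem_sup_right (ev_mem_UR hε hJ h.swap hx hv hc hg)⟩

end UR

section Grad

variable {k P : Type*} [DecidableEq k] [Fintype k] [Ring P] [StarRing P] {J J' : Matrix k k P}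
  {l : ℕ} {e : Fin l → Matrix k k P}

theorem grad_idem (he : CompleteOrthogonalIdempotents e)
    (ha : ∀ i, (e i)ᴴ * J = J * e (Fin.rev i)) {i : Fin l} (hi : i ≠ Fin.rev i) :
    Idem J (e i) (e (Fin.rev i)) :=
  ⟨he.idem _, he.idem _, he.ortho hi, he.ortho hi.symm, ha i, by rw [ha, Fin.rev_rev]⟩

theorem UR_le_Rad (he : CompleteOrthogonalIdempotents e) {i₀ : Fin l}
    (h : Idem J (e i₀) (e (Fin.rev i₀))) (h1 : ∀ j, j < i₀ → e j = 0)
    (h2 : ∀ j, Fin.rev i₀ < j → e j = 0) : (UR h : Set (Matrix k k P)ˣ) ⊆ Rad J e := by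
  rintro g ⟨g0, g1, g2, g3⟩
  refine ⟨g0, fun i j hij => ?_⟩
  by_cases c1 : i < i₀
  · rw [h1 i c1, zero_mul, zero_mul]
  by_cases c2 : Fin.rev i₀ < j
  · rw [h2 j c2, mul_zero]
  by_cases c3 : j = i₀
  · rw [c3, mul_assoc, g1, mul_zero]
  by_cases c4 : i = Fin.rev i₀
  · rw [c4, g2, zero_mul]
  by_cases c5 : j < i₀
  · rw [h1 j c5, mul_zero]
  by_cases c6 : Fin.rev i₀ < i
  · rw [h2 i c6, zero_mul, zero_mul]
  have c7 : i ≠ i₀ := by
    intro h
    apply hij
    rw [h]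
    exact lt_of_le_of_ne (not_lt.1 c5) (Ne.symm c3)
  have c8 : j ≠ Fin.rev i₀ := by
    intro h
    apply hij
    rw [h]
    exact lt_of_le_of_ne (not_lt.1 c6) c4
  have a1 : e i = e i * (1 - e i₀) := by rw [mul_sub, he.ortho c7, mul_one, sub_zero]
  have a2 : e j = (1 - e (Fin.rev i₀)) * e j := by
    rw [sub_mul, he.ortho (Ne.symm c8), one_mul, sub_zero]
  rw [a1, a2]
  calc e i * (1 - e i₀) * (g.val - 1) * ((1 - e (Fin.rev i₀)) * e j) =
      e i * ((1 - e i₀) * (g.val - 1) * (1 - e (Fin.rev i₀))) * e j := by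
        simp only [mul_assoc]
    _ = 0 := by rw [g3, mul_zero, zero_mul]

theorem exists_low (hJJ' : J' * J = 1) (ha : ∀ i, (e i)ᴴ * J = J * e (Fin.rev i))
    (h : ∃ i, e i ≠ 0 ∧ Fin.rev i ≠ i) : ∃ i₀, e i₀ ≠ 0 ∧ i₀ < Fin.rev i₀ ∧
      (∀ j, j < i₀ → e j = 0) ∧ (∀ j, Fin.rev i₀ < j → e j = 0) := by
  classical
  have hrev : ∀ j, e j = 0 → e (Fin.rev j) = 0 := by
    intro j hj
    have h1 := ha j
    rw [hj, Matrix.conjTranspose_zero, Matrix.zero_mul] at h1
    calc e (Fin.rev j) = J' * (J * e (Fin.rev j)) := by rw [← mul_assoc, hJJ', one_mul]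
      _ = 0 := by rw [← h1, mul_zero]
  obtain ⟨i, hi, hir⟩ := h
  obtain ⟨i₀, hi₀, hmin⟩ := Finset.exists_min_image (Finset.univ.filter fun j => e j ≠ 0) id
    ⟨i, by simp [hi]⟩
  simp only [Finset.mem_filter, Finset.mem_univ, true_and, id] at hi₀ hmin
  have hlow : ∀ j, j < i₀ → e j = 0 := by
    intro j hj
    by_contra hc
    exact absurd (hmin j hc) (not_le.2 hj)
  have hhigh : ∀ j, Fin.rev i₀ < j → e j = 0 := by
    intro j hj
    have h1 : Fin.rev j < i₀ := by
      rw [← Fin.rev_rev i₀]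
      exact Fin.rev_lt_rev.2 hj
    rw [← Fin.rev_rev j]
    exact hrev _ (hlow _ h1)
  refine ⟨i₀, hi₀, ?_, hlow, hhigh⟩
  by_contra hc
  rw [not_lt] at hc
  have h1 : i₀ ≤ i := hmin i hi
  have h2 : i ≤ Fin.rev i₀ := by
    by_contra h
    exact hi (hhigh i (not_le.1 h))
  have h3 : i = i₀ := le_antisymm (h2.trans hc) h1
  have h4 : Fin.rev i₀ = i₀ := le_antisymm hc (by rw [← h3]; rw [← h3] at h2; exact h2)
  apply hir
  rw [h3, h4]

end Grad

end BWP
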