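import Pool.Agent.BWP.Pi
import Pool.Agent.BWP.UR
import Pool.Agent.BWP.Pair

/-!
# All pairs of opposite parabolic subgroups, type `C` (helper56)
-/

set_option linter.unusedSectionVars false
set_option linter.unusedSimpArgs false

namespace BWP

open Matrix
open BW hiding star
open BWC
open scoped Pointwise

section Comp

variable {ι : Type*} {Λ : ι → Type*} [∀ i, Ring (Λ i)] [∀ i, StarRing (Λ i)] {k : Type*}
  [DecidableEq k] [Fintype k] {J e e' : Matrix k k (∀ i, Λ i)}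

theorem comp_cm (i : ι) (g : (Matrix k k (∀ i, Λ i))ˣ) : (comp i g).val = cm i g.val := rfl

theorem comp_mem_UR (h : Idem J e e') (i : ι) {J₁ e₁ e₁' : Matrix k k (Λ i)}
    (h₁ : Idem J₁ e₁ e₁') (hJ : cm i J = J₁) (he : cm i e = e₁) (he' : cm i e' = e₁')
    {g : (Matrix k k (∀ i, Λ i))ˣ} (hg : g ∈ UR h) : comp i g ∈ UR h₁ := by
  subst hJ he he'
  obtain ⟨g0, g1, g2, g3⟩ := hg
  refine ⟨comp_isom_iff.1 g0 i, ?_, ?_, ?_⟩
  · rw [comp_cm]
    have := congrArg (cm i) g1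
    rwa [cm_mul, cm_sub, cm_one, cm_zero] at this
  · rw [comp_cm]
    have := congrArg (cm i) g2
    rwa [cm_mul, cm_sub, cm_one, cm_zero] at this
  · rw [comp_cm]
    have := congrArg (cm i) g3
    rwa [cm_mul, cm_mul, cm_sub, cm_sub, cm_sub, cm_one, cm_zero] at this

end Comp

section Dat

/-- the data of `N`, of a quaternion Azumaya algebra without zero divisors over `ℤ[1/N]` with its
canonical involution, of a unimodular hermitian form, of a pair of opposite isotropic summands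
and of an isometry of `H^m ⊥ V₀` -/
structure DatP (m s : ℕ) where
  /-- the integer `N` -/
  N : ℕ
  hN : N ≠ 0
  /-- the ring `ℤ[1/N]` -/
  R : Type
  /-- the algebra -/
  Λ : Type
  cR : CommRing R
  rΛ : Ring Λ
  sΛ : StarRing Λ
  alg : Algebra R Λ
  loc : IsLocalization.Away (N : ℤ) R
  az : IsQuaternionAzumaya N R Λ
  st : ∀ x : Λ, ∃ t : R, x + star x = algebraMap R Λ t
  dom : ∀ x y : Λ, x * y = 0 → x = 0 ∨ y = 0
  /-- the Gram matrix of `V₀` -/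
  D : Matrix (Fin s) (Fin s) Λ
  hD : Dᴴ = D
  hu : IsUnit D
  /-- the idempotent of `W` -/
  e : Matrix ((Fin m ⊕ Fin m) ⊕ Fin s) ((Fin m ⊕ Fin m) ⊕ Fin s) Λ
  /-- the idempotent of `W'` -/
  e' : Matrix ((Fin m ⊕ Fin m) ⊕ Fin s) ((Fin m ⊕ Fin m) ⊕ Fin s) Λ
  hid : Idem (JG 1 (Fin m) D) e e'
  h0 : e ≠ 0
  /-- the element -/
  g : (Matrix ((Fin m ⊕ Fin m) ⊕ Fin s) ((Fin m ⊕ Fin m) ⊕ Fin s) Λ)ˣ
  hg : g ∈ isom (JG 1 (Fin m) D)

attribute [instance] DatP.cR DatP.rΛ DatP.sΛ DatP.alg DatP.loc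

/-- **the stabilizers of isotropic summands**: one number `L` for all pairs -/
theorem width_UR (m s : ℕ) (hm : 2 ≤ m) : ∃ L : ℕ, ∀ (N : ℕ), N ≠ 0 → ∀ (R Λ : Type) [CommRing R]
    [IsLocalization.Away (N : ℤ) R] [Ring Λ] [StarRing Λ] [Algebra R Λ],
    IsQuaternionAzumaya N R Λ → (∀ x : Λ, ∃ t : R, x + star x = algebraMap R Λ t) →
    (∀ x y : Λ, x * y = 0 → x = 0 ∨ y = 0) →
    ∀ D : Matrix (Fin s) (Fin s) Λ, Dᴴ = D → IsUnit D →
    ∀ (e e' : Matrix ((Fin m ⊕ Fin m) ⊕ Fin s) ((Fin m ⊕ Fin m) ⊕ Fin s) Λ)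
      (h : Idem (JG 1 (Fin m) D) e e'), e ≠ 0 →
      ((UR h : Set (Matrix ((Fin m ⊕ Fin m) ⊕ Fin s) ((Fin m ⊕ Fin m) ⊕ Fin s) Λ)ˣ) *
        (UR h.swap : Set (Matrix ((Fin m ⊕ Fin m) ⊕ Fin s) ((Fin m ⊕ Fin m) ⊕ Fin s) Λ)ˣ)) ^ L =
        (isom (JG 1 (Fin m) D) :
          Set (Matrix ((Fin m ⊕ Fin m) ⊕ Fin s) ((Fin m ⊕ Fin m) ⊕ Fin s) Λ)ˣ) := by
  have hε : (1 : ℤ) * 1 = 1 := by norm_num
  have hn : 2 ≤ Fintype.card (Fin m) := by simpa using hm
  have hfree : ∀ i : DatP m s, Module.Free i.R i.Λ := fun i => i.az.free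
  have hfin : ∀ i : DatP m s, Module.Finite i.R i.Λ := fun i => i.az.finite i.hN
  have hdom : ∀ i : DatP m s, NoZeroDivisors i.Λ := fun i => ⟨fun {x y} h => i.dom x y h⟩
  have Q : ∀ i : DatP m s, QAlg i.N i.R i.Λ := fun i => (i.az.qalg i.hN).some
  have hQ : ∀ (i : DatP m s) (x : i.Λ), star x = (Q i).conj x :=
    fun i x => star_eq_conj i.hN (Q i) i.st x
  obtain ⟨D, hDdef⟩ : ∃ D, D = fam (fun i : DatP m s => i.D) := ⟨_, rfl⟩
  choose A0 hA0 using fun i : DatP m s => even_of_herm i.hN (Q i) (hQ i) i.D i.hD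
  have hD : D = fam A0 + (1 : ℤ) • (fam A0)ᴴ := by
    rw [one_smul, hDdef]
    refine cm_ext fun i => ?_
    rw [cm_add, cm_ct, cm_fam, cm_fam]
    exact hA0 i
  choose u hu using fun i : DatP m s => i.hu
  have hDD : D * fam (fun i => (u i)⁻¹.val) = 1 := by
    rw [hDdef]
    refine cm_ext fun i => ?_
    rw [cm_mul, cm_one, cm_fam, cm_fam, ← hu i]
    exact (u i).mul_inv
  have hDD' : fam (fun i => (u i)⁻¹.val) * D = 1 := by
    rw [hDdef]
    refine cm_ext fun i => ?_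
    rw [cm_mul, cm_one, cm_fam, cm_fam, ← hu i]
    exact (u i).inv_mul
  obtain ⟨B, hB⟩ := JG_even (n := Fin m) hε hD
  have hJ : (JG 1 (Fin m) D)ᴴ = (1 : ℤ) • JG 1 (Fin m) D := by
    rw [hB, Matrix.conjTranspose_add, Matrix.conjTranspose_smul, star_trivial,
      Matrix.conjTranspose_conjTranspose, smul_add, smul_smul_self hε, add_comm]
  have hcJ : ∀ i : DatP m s, cm i (JG 1 (Fin m) D) = JG 1 (Fin m) i.D := by
    intro i
    rw [JG_cm, hDdef, cm_fam]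
  have hid : Idem (JG 1 (Fin m) D) (fam fun i : DatP m s => i.e) (fam fun i : DatP m s => i.e') :=
    idem_pi fun i => by
      rw [hcJ, cm_fam, cm_fam]
      exact i.hid
  obtain ⟨w, w', h1, h2, h3, h4, h5⟩ := exists_pair (N := fun i : DatP m s => i.N)
    (R := fun i : DatP m s => i.R) (fun i => i.hN) Q hQ (Or.inl rfl) hn hD hDD hDD' hid
    (fun i => by rw [cm_fam]; exact i.h0) (big_UR hε hJ hid)
  have hle := pair_big (N := fun i : DatP m s => i.N) (R := fun i : DatP m s => i.R)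
    (fun i => i.hN) (fun i => i.az.rank) Q hQ hm hD hDD hDD' (UR hid ⊔ UR hid.swap) w w' h1 h2 h3
    h4 h5
  have h6 : famU (fun i : DatP m s => i.g) ∈ isom (JG 1 (Fin m) D) := by
    rw [comp_isom_iff]
    intro i
    rw [comp_famU]
    have : (JG 1 (Fin m) D).map (fun x => x i) = JG 1 (Fin m) i.D := hcJ i
    rw [this]
    exact i.hg
  have h7 := hle h6
  generalize hX : famU (fun i : DatP m s => i.g) = X at h7
  obtain ⟨L, hL⟩ := exists_pow_of_mem_sup h7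
  refine ⟨L, fun N hN R Λ _ _ _ _ _ haz hst hdm D' hD' hDu e e' h h0 =>
    Set.Subset.antisymm ?_ fun g hg => ?_⟩
  · exact pow_subset_group (UR_le h) (UR_le h.swap) L
  · obtain ⟨i, hi⟩ : ∃ i : DatP m s, i = ⟨N, hN, R, Λ, inferInstance, inferInstance,
      inferInstance, inferInstance, inferInstance, haz, hst, hdm, D', hD', hDu, e, e', h, h0, g,
      hg⟩ := ⟨_, rfl⟩
    subst hi
    have h8 := map_mem_pow (comp (⟨N, hN, R, Λ, inferInstance, inferInstance,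
      inferInstance, inferInstance, inferInstance, haz, hst, hdm, D', hD', hDu, e, e', h, h0, g,
      hg⟩ : DatP m s))
      (fun x hx => comp_mem_UR hid _ h (hcJ _) rfl rfl hx)
      (fun x hx => comp_mem_UR hid.swap _ h.swap (hcJ _) rfl rfl hx) L hL
    rw [← hX, comp_famU] at h8
    exact h8

/-- **all parabolics, type `C`**: `e` is a grading `V = ⊕ V_i` with `V_i` orthogonal to `V_j`
unless `j = rev i` (all pairs of opposite parabolic subgroups), not concentrated in the middle -/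
theorem all_parabolics (m s : ℕ) (hm : 2 ≤ m) : ∃ L : ℕ, ∀ N : ℕ, N ≠ 0 → ∀ (R Λ : Type)
    [CommRing R] [IsLocalization.Away (N : ℤ) R] [Ring Λ] [StarRing Λ] [Algebra R Λ],
    IsQuaternionAzumaya N R Λ → (∀ x : Λ, ∃ t : R, x + star x = algebraMap R Λ t) →
    (∀ x y : Λ, x * y = 0 → x = 0 ∨ y = 0) →
    ∀ D : Matrix (Fin s) (Fin s) Λ, Dᴴ = D → IsUnit D →
    ∀ (l : ℕ) (e : Fin l → Matrix ((Fin m ⊕ Fin m) ⊕ Fin s) ((Fin m ⊕ Fin m) ⊕ Fin s) Λ),
      CompleteOrthogonalIdempotents e →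
      (∀ i, (e i)ᴴ * JG 1 (Fin m) D = JG 1 (Fin m) D * e (Fin.rev i)) →
      (∃ i, e i ≠ 0 ∧ Fin.rev i ≠ i) →
      (Rad (JG 1 (Fin m) D) e * Rad (JG 1 (Fin m) D) (fun i => e (Fin.rev i))) ^ L =
        (isom (JG 1 (Fin m) D) :
          Set (Matrix ((Fin m ⊕ Fin m) ⊕ Fin s) ((Fin m ⊕ Fin m) ⊕ Fin s) Λ)ˣ) := by
  have hε : (1 : ℤ) * 1 = 1 := by norm_num
  obtain ⟨L, hL⟩ := width_UR m s hm
  refine ⟨L, fun N hN R Λ _ _ _ _ _ haz hst hdm D hD hDu l e he ha h0 =>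
    Set.Subset.antisymm ?_ ?_⟩
  · intro x hx
    have h1 := map_mem_pow (MonoidHom.id _)
      (A' := (isom (JG 1 (Fin m) D) :
        Set (Matrix ((Fin m ⊕ Fin m) ⊕ Fin s) ((Fin m ⊕ Fin m) ⊕ Fin s) Λ)ˣ))
      (B' := (isom (JG 1 (Fin m) D) :
        Set (Matrix ((Fin m ⊕ Fin m) ⊕ Fin s) ((Fin m ⊕ Fin m) ⊕ Fin s) Λ)ˣ))
      (fun x hx => hx.1) (fun x hx => hx.1) L hx
    exact pow_subset_group le_rfl le_rfl L h1
  · obtain ⟨u, rfl⟩ := hDu
    obtain ⟨J', -, hJJ'⟩ := JG_inv (n := Fin m) hε u.mul_inv u.inv_mul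
    obtain ⟨i₀, hi₀, hlt, hlow, hhigh⟩ := exists_low hJJ' ha h0
    have hid := grad_idem he ha hlt.ne
    rw [← hL N hN R Λ haz hst hdm u.val hD u.isUnit (e i₀) (e (Fin.rev i₀)) hid hi₀]
    refine Set.pow_subset_pow_left (Set.mul_subset_mul (UR_le_Rad he hid hlow hhigh) ?_)
    have he' : CompleteOrthogonalIdempotents (fun i => e (Fin.rev i)) := BW.AP.rev he
    have h1 : Idem (JG 1 (Fin m) u.val) ((fun i => e (Fin.rev i)) i₀)
        ((fun i => e (Fin.rev i)) (Fin.rev i₀)) := by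
      simp only [Fin.rev_rev]
      exact hid.swap
    have h2 := UR_le_Rad he' h1 (fun j hj => hhigh _ (Fin.rev_lt_rev.2 hj))
      (fun j hj => hlow _ (by rw [← Fin.rev_rev i₀]; exact Fin.rev_lt_rev.2 hj))
    intro x hx
    refine h2 ?_
    simp only [SetLike.mem_coe, mem_UR, Fin.rev_rev] at hx ⊢
    exact hx

end Dat

end BWP
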