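import Pool.Agent.BWP.G
import Pool.Agent.BWC.KStab
import Pool.Agent.BWC.Parab

/-!
# All parabolic subgroups: one free hyperbolic pair is enough, any ring with involution
-/

set_option autoImplicit false
set_option linter.unusedSectionVars false

namespace BWP

open Matrix
open BW hiding star
open BWC

namespace PG

section Gen

variable {k P : Type*} [DecidableEq k] [Fintype k] [Ring P] [StarRing P]
  {J : Matrix k k P} {ε : ℤ} {H : Subgroup (Matrix k k P)ˣ}

/-- the rank one idempotent of a hyperbolic pair -/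
theorem idem_of_pair (hε : ε * ε = 1) (hJ : Jᴴ = ε • J) {w w' : Matrix k Unit P}
    (hww : wᴴ * J * w = 0) (hww' : w'ᴴ * J * w' = 0) (h1 : w'ᴴ * J * w = 1) :
    Idem J (w * (w'ᴴ * J)) (ε • (w' * (wᴴ * J))) := by
  have h2 : wᴴ * J * w' = ε • 1 := by
    have h := form_symm hJ w' w
    rw [h1, Matrix.conjTranspose_one] at h
    rw [h, smul_smul, hε, one_smul]
  have e1 : ∀ (a b c d : Matrix k Unit P), a * (bᴴ * J) * (c * (dᴴ * J)) =
      a * (bᴴ * J * c) * (dᴴ * J) := fun a b c d => by simp only [Matrix.mul_assoc]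
  refine ⟨?_, ?_, ?_, ?_, ?_, ?_⟩
  · rw [e1, h1, Matrix.mul_one]
  · rw [Matrix.smul_mul, Matrix.mul_smul, e1, h2, Matrix.mul_smul, Matrix.smul_mul, smul_smul,
      hε, one_smul, Matrix.mul_one]
  · rw [Matrix.mul_smul, e1, hww']
    simp
  · rw [Matrix.smul_mul, e1, hww]
    simp
  · rw [Matrix.conjTranspose_mul, Matrix.conjTranspose_mul, Matrix.conjTranspose_conjTranspose,
      hJ]
    simp only [Matrix.smul_mul, Matrix.mul_smul, Matrix.mul_assoc]
  · rw [Matrix.conjTranspose_smul, Matrix.conjTranspose_mul, Matrix.conjTranspose_mul,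
      Matrix.conjTranspose_conjTranspose, hJ, star_trivial]
    simp only [Matrix.smul_mul, Matrix.mul_assoc, smul_smul, hε, one_smul]

/-- multiples of the first vector -/
theorem em_smul {w : Matrix k Unit P} (hww : wᴴ * J * w = 0)
    (h : ∀ v, wᴴ * J * v = 0 → EM ε J H w v) (c : Matrix Unit Unit P) (v : Matrix k Unit P)
    (hv : wᴴ * J * v = 0) : EM ε J H (w * c) v := by
  intro g t hc hg
  rw [ev_smul] at hg
  have h1 : wᴴ * J * (v * cᴴ) = 0 := by rw [← Matrix.mul_assoc, hv, Matrix.zero_mul]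
  refine h _ h1 g _ ⟨hww, h1, ?_⟩ hg
  have h2 := hc.tt
  have h3 : c * t * cᴴ + ε • (c * t * cᴴ)ᴴ = c * (t + ε • tᴴ) * cᴴ := by
    rw [Matrix.conjTranspose_mul, Matrix.conjTranspose_mul, Matrix.conjTranspose_conjTranspose,
      Matrix.mul_add, Matrix.add_mul, Matrix.mul_smul, Matrix.smul_mul, Matrix.mul_assoc c tᴴ cᴴ]
  rw [h3, h2, Matrix.conjTranspose_mul, Matrix.conjTranspose_conjTranspose, Matrix.mul_smul,
    Matrix.smul_mul]
  simp only [Matrix.mul_assoc]

/-- a hyperbolic pair all of whose Eichler transformations are in `H` -/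
theorem big_of_pair (hε : ε * ε = 1) (hJ : Jᴴ = ε • J) {w w' : Matrix k Unit P}
    (hww : wᴴ * J * w = 0) (hww' : w'ᴴ * J * w' = 0) (h1 : w'ᴴ * J * w = 1)
    (hw : ∀ v, wᴴ * J * v = 0 → EM ε J H w v) (hw' : ∀ v, w'ᴴ * J * v = 0 → EM ε J H w' v) :
    Big ε J (w * (w'ᴴ * J)) (ε • (w' * (wᴴ * J))) H := by
  have h2 : wᴴ * J * w' = ε • 1 := by
    have h := form_symm hJ w' w
    rw [h1, Matrix.conjTranspose_one] at h
    rw [h, smul_smul, hε, one_smul]
  refine ⟨?_, ?_⟩
  · intro x v hx hv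
    have hv0 : wᴴ * J * v = 0 := by
      have h3 := congrArg (wᴴ * J * ·) hv
      simp only [Matrix.mul_zero] at h3
      rw [Matrix.smul_mul, Matrix.mul_smul, Matrix.mul_assoc w', ← Matrix.mul_assoc (wᴴ * J), h2,
        Matrix.smul_mul, smul_smul, hε, one_smul, Matrix.one_mul] at h3
      exact h3
    rw [← hx, Matrix.mul_assoc]
    exact em_smul hww hw _ v hv0
  · intro x v hx hv
    have hv0 : w'ᴴ * J * v = 0 := by
      have h3 := congrArg (w'ᴴ * J * ·) hv
      simp only [Matrix.mul_zero] at h3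
      rw [Matrix.mul_assoc w, ← Matrix.mul_assoc (w'ᴴ * J), h1, Matrix.one_mul] at h3
      exact h3
    rw [← hx, Matrix.smul_mul, Matrix.mul_assoc, ← Matrix.mul_smul]
    exact em_smul hww' hw' _ v hv0

theorem full_of_pair {w w' : Matrix k Unit P} (hε : ε * ε = 1) (hJ : Jᴴ = ε • J)
    (h1 : w'ᴴ * J * w = 1) :
    Full2 J (w * (w'ᴴ * J)) (ε • (w' * (wᴴ * J))) := by
  have h2 : wᴴ * J * w' = ε • 1 := by
    have h := form_symm hJ w' w
    rw [h1, Matrix.conjTranspose_one] at h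
    rw [h, smul_smul, hε, one_smul]
  refine ⟨w, 0, w', 0, ?_, by simp, ?_, by simp, ?_⟩
  · rw [Matrix.mul_assoc, h1, Matrix.mul_one]
  · rw [Matrix.smul_mul, Matrix.mul_assoc, h2, Matrix.mul_smul, smul_smul, hε, one_smul,
      Matrix.mul_one]
  · rw [h1]; simp

/-- change of the dual vector -/
theorem em_dual (hε : ε * ε = 1) (hJ : Jᴴ = ε • J) {w q f : Matrix k Unit P}
    (hww : wᴴ * J * w = 0) (hqq : qᴴ * J * q = 0) (hff : fᴴ * J * f = 0)
    (hqw : qᴴ * J * w = 1) (hfw : fᴴ * J * w = 1)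
    (hw : ∀ v, wᴴ * J * v = 0 → EM ε J H w v) (hq : ∀ v, qᴴ * J * v = 0 → EM ε J H q v)
    (v : Matrix k Unit P) (hv : fᴴ * J * v = 0) : EM ε J H f v := by
  have hwf : wᴴ * J * f = ε • 1 := by
    have h := form_symm hJ f w
    rw [hfw, Matrix.conjTranspose_one] at h
    rw [h, smul_smul, hε, one_smul]
  have hwq : wᴴ * J * q = ε • 1 := by
    have h := form_symm hJ q w
    rw [hqw, Matrix.conjTranspose_one] at h
    rw [h, smul_smul, hε, one_smul]
  obtain ⟨s, hs⟩ : ∃ s, s = fᴴ * J * q := ⟨_, rfl⟩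
  obtain ⟨u, hu⟩ : ∃ u, u = f - q + w * s := ⟨_, rfl⟩
  have hwu : wᴴ * J * u = 0 := by
    rw [hu, Matrix.mul_add, Matrix.mul_sub, hwf, hwq, sub_self, zero_add, ← Matrix.mul_assoc, hww,
      Matrix.zero_mul]
  have hfu : fᴴ * J * u = 0 := by
    rw [hu, Matrix.mul_add, Matrix.mul_sub, hff, ← hs, ← Matrix.mul_assoc, hfw, Matrix.one_mul,
      zero_sub, neg_add_cancel]
  have huf : uᴴ * J * f = 0 := form_symm_zero hε hJ hfu
  have huw : uᴴ * J * w = 0 := form_symm_zero hε hJ hwu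
  have hqf : qᴴ * J * f = ε • sᴴ := by
    rw [hs, form_symm hJ, smul_smul, hε, one_smul]
  have huq : uᴴ * J * q = ε • sᴴ + s := by
    have h3 : qᴴ * J * u = ε • sᴴ + s := by
      rw [hu, Matrix.mul_add, Matrix.mul_sub, hqq, hqf, ← Matrix.mul_assoc, hqw, Matrix.one_mul,
        sub_zero]
    have h4 := form_symm hJ q u
    rw [h3, Matrix.conjTranspose_add, Matrix.conjTranspose_smul, star_trivial,
      Matrix.conjTranspose_conjTranspose] at h4
    calc uᴴ * J * q = ε • (ε • (uᴴ * J * q)) := by rw [smul_smul, hε, one_smul]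
      _ = ε • sᴴ + s := by
        rw [← h4, smul_add, smul_smul, hε, one_smul, add_comm]
  have huu : uᴴ * J * u = -(ε • sᴴ + s) := by
    conv_lhs => rw [hu]
    rw [Matrix.mul_add, Matrix.mul_sub, ← hu, huf, huq, ← Matrix.mul_assoc, huw, Matrix.zero_mul,
      add_zero, zero_sub]
  have hEC : EC ε J w u (-(ε • s)) := by
    refine ⟨hww, hwu, ?_⟩
    rw [huu, Matrix.conjTranspose_neg, Matrix.conjTranspose_smul, star_trivial]
    simp only [smul_neg, smul_smul, hε, one_smul, smul_add]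
    abel
  obtain ⟨g, hg⟩ : ∃ g, g = E hε hJ hEC := ⟨_, rfl⟩
  have hgi : g ∈ isom J := by rw [hg]; exact E_mem_isom hε hJ hEC
  have hgH : g ∈ H := hw u hwu g _ hEC (by rw [hg]; rfl)
  have hgf : g.val * f = q := by
    rw [hg, E_val, ev_eq, Matrix.sub_mul, Matrix.sub_mul, Matrix.add_mul, Matrix.one_mul,
      Matrix.smul_mul, op_mulVec, op_mulVec, op_mulVec, huf, hwf, hu]
    simp only [Matrix.mul_zero, Matrix.mul_smul, Matrix.mul_one, Matrix.mul_neg, smul_neg,
      smul_smul, hε, one_smul, add_zero]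
    abel
  have hginv : g⁻¹.val * g.val = 1 := by rw [← Units.val_mul, inv_mul_cancel, Units.val_one]
  have h5 : EM ε J H q (g.val * v) := hq _ (by
    have h6 := form_isom (g := g.val) hgi f v
    rw [hgf, hv] at h6
    exact h6)
  have h6 := EM.conj (ε := ε) (inv_mem hgi) (inv_mem hgH) h5
  rw [← Matrix.mul_assoc, hginv, Matrix.one_mul, ← hgf, ← Matrix.mul_assoc, hginv,
    Matrix.one_mul] at h6
  exact h6

/-- transport by an isometry -/
theorem em_comap {e : (Matrix k k P)ˣ} (he : e ∈ isom J) {w v : Matrix k Unit P}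
    (h : EM ε J H w v) :
    EM ε J (H.comap (MulAut.conj e⁻¹).toMonoidHom) (e.val * w) (e.val * v) := by
  intro g t hc hg
  refine h _ t ((EC.conj_iff (g := e.val) he).1 hc) ?_
  have h1 : e⁻¹.val * e.val = 1 := by rw [← Units.val_mul, inv_mul_cancel, Units.val_one]
  change e⁻¹.val * g.val * (e⁻¹)⁻¹.val = _
  rw [inv_inv, hg, Matrix.mul_assoc, ev_conj (g := e.val) he, ← Matrix.mul_assoc, h1,
    Matrix.one_mul]

end Gen

section Blocks

variable {n r P : Type*} [DecidableEq n] [Fintype n] [DecidableEq r] [Fintype r] [Ring P]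
  [StarRing P] {ε : ℤ}

/-- the block of the Lagrangian -/
def bl (r : Type*) (X : Matrix n n P) : Matrix ((n ⊕ n) ⊕ r) ((n ⊕ n) ⊕ r) P :=
  Matrix.fromBlocks (Matrix.fromBlocks X 0 0 0) 0 0 0

/-- the adjoint block -/
def bl' (r : Type*) (X : Matrix n n P) : Matrix ((n ⊕ n) ⊕ r) ((n ⊕ n) ⊕ r) P :=
  Matrix.fromBlocks (Matrix.fromBlocks 0 0 0 Xᴴ) 0 0 0

theorem bl_mul (X Y : Matrix n n P) : bl r X * bl r Y = bl r (X * Y) := by
  simp [bl, Matrix.fromBlocks_multiply]

theorem bl_mul_bl' (X Y : Matrix n n P) : bl r X * bl' r Y = 0 := by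
  simp [bl, bl', Matrix.fromBlocks_multiply]

theorem bl'_mul_bl (X Y : Matrix n n P) : bl' r X * bl r Y = 0 := by
  simp [bl, bl', Matrix.fromBlocks_multiply]

theorem bl'_mul (X Y : Matrix n n P) : bl' r X * bl' r Y = bl' r (Y * X) := by
  simp [bl', Matrix.fromBlocks_multiply]

theorem bl_add (X Y : Matrix n n P) : bl r X + bl r Y = bl r (X + Y) := by
  simp [bl, Matrix.fromBlocks_add]

theorem bl'_add (X Y : Matrix n n P) : bl' r X + bl' r Y = bl' r (X + Y) := by
  simp [bl', Matrix.fromBlocks_add]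

theorem bl_adj (D : Matrix r r P) (X : Matrix n n P) :
    (bl r X)ᴴ * JG ε n D = JG ε n D * bl' r X := by
  simp [bl, bl', JG, BWC.J, Matrix.fromBlocks_multiply, Matrix.fromBlocks_conjTranspose,
    -zsmul_eq_mul]

theorem bl'_adj (D : Matrix r r P) (X : Matrix n n P) :
    (bl' r X)ᴴ * JG ε n D = JG ε n D * bl r X := by
  simp [bl, bl', JG, BWC.J, Matrix.fromBlocks_multiply, Matrix.fromBlocks_conjTranspose,
    -zsmul_eq_mul, -zsmul_one]

theorem idem_bl (D : Matrix r r P) {X : Matrix n n P} (hX : X * X = X) :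
    Idem (JG ε n D) (bl r X) (bl' r X) :=
  ⟨by rw [bl_mul, hX], by rw [bl'_mul, hX], bl_mul_bl' _ _, bl'_mul_bl _ _, bl_adj D X,
    bl'_adj D X⟩

/-- a column -/
def cv {k : Type*} (x : k → P) : Matrix k Unit P := Matrix.of fun i _ => x i

/-- a scalar -/
def sc (t : P) : Matrix Unit Unit P := Matrix.of fun _ _ => t

theorem cv_apply {k : Type*} (x : k → P) (i : k) (j : Unit) : cv x i j = x i := rfl

theorem sc_apply (t : P) (i j : Unit) : sc t i j = t := rfl

theorem col_form {k : Type*} [Fintype k] (J : Matrix k k P) (x y : k → P) :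
    (cv x)ᴴ * J * cv y = sc (star x ⬝ᵥ (J *ᵥ y)) := by
  ext i j
  rw [Matrix.mul_assoc, Matrix.mul_apply, sc_apply]
  simp [dotProduct, Matrix.mulVec, Matrix.mul_apply, cv_apply]

theorem row_form (D : Matrix r r P) (a c : n → P) (z : r → P) :
    (cv (Sum.elim (Sum.elim a c) z))ᴴ * JG ε n D =
      Matrix.of fun _ q => Sum.elim (Sum.elim (fun j => ε • star (c j)) fun j => star (a j))
        (star z ᵥ* D) q := by
  ext i q
  rw [Matrix.mul_apply, Matrix.of_apply, Fintype.sum_sum_type, Fintype.sum_sum_type]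
  rcases q with (q | q) | q
  · simp [JG, BWC.J, cv_apply, Matrix.one_apply, -zsmul_eq_mul, -zsmul_one]
  · simp [JG, BWC.J, cv_apply, Matrix.one_apply, -zsmul_eq_mul, -zsmul_one]
  · simp [JG, BWC.J, cv_apply, Matrix.vecMul, dotProduct, -zsmul_eq_mul, -zsmul_one]

/-- the column `(x, 0, z)` -/
def cL (x : n → P) (z : r → P) : Matrix ((n ⊕ n) ⊕ r) Unit P := cv (Sum.elim (Sum.elim x 0) z)

/-- the column `(0, x, z)` -/
def cM (x : n → P) (z : r → P) : Matrix ((n ⊕ n) ⊕ r) Unit P := cv (Sum.elim (Sum.elim 0 x) z)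

/-- the Eichler transformations of the Lagrangian -/
theorem ev_up (D : Matrix r r P) (x a : n → P) (z : r → P) (t : P) :
    ev ε (JG ε n D) (cL x 0) (cL a z) (sc t) =
      (ub (Matrix.of fun j k => x j * star (a k) - ε • (a j * star (x k)) - x j * t * star (x k))
        (Matrix.of fun j l => x j * (star z ᵥ* D) l)
        (Matrix.of fun l k => -(ε • (z l * star (x k))))).val := by
  rw [ev, cL, cL, row_form, row_form, ub_val]
  ext p q
  have h1 : ∀ (u : Matrix ((n ⊕ n) ⊕ r) Unit P) (w : Matrix Unit ((n ⊕ n) ⊕ r) P) (p q),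
      (u * w) p q = u p () * w () q := fun u w p q => by
    rw [Matrix.mul_apply]; simp
  have h2 : ∀ (u : Matrix ((n ⊕ n) ⊕ r) Unit P) (w : Matrix Unit Unit P) (p) (q : Unit),
      (u * w) p q = u p () * w () q := fun u w p q => by
    rw [Matrix.mul_apply]; simp
  rw [Matrix.sub_apply, Matrix.sub_apply, Matrix.add_apply, Matrix.smul_apply, h1, h1, h1, h2]
  simp only [cv_apply, sc_apply, Matrix.of_apply]
  rcases p with (p | p) | p <;> rcases q with (q | q) | q <;>
    simp [Matrix.one_apply, -zsmul_eq_mul]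

/-- the Eichler transformations of the opposite Lagrangian -/
theorem ev_lo (hε : ε * ε = 1) (D : Matrix r r P) (x c : n → P) (z : r → P) (t : P) :
    ev ε (JG ε n D) (cM x 0) (cM c z) (sc t) =
      (lb (Matrix.of fun j k => ε • (x j * star (c k)) - c j * star (x k) -
          ε • (x j * t * star (x k)))
        (Matrix.of fun j l => x j * (star z ᵥ* D) l)
        (Matrix.of fun l k => -(z l * star (x k)))).val := by
  rw [ev, cM, cM, row_form, row_form, lb_val]
  ext p q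
  have h1 : ∀ (u : Matrix ((n ⊕ n) ⊕ r) Unit P) (w : Matrix Unit ((n ⊕ n) ⊕ r) P) (p q),
      (u * w) p q = u p () * w () q := fun u w p q => by
    rw [Matrix.mul_apply]; simp
  have h2 : ∀ (u : Matrix ((n ⊕ n) ⊕ r) Unit P) (w : Matrix Unit Unit P) (p) (q : Unit),
      (u * w) p q = u p () * w () q := fun u w p q => by
    rw [Matrix.mul_apply]; simp
  rw [Matrix.sub_apply, Matrix.sub_apply, Matrix.add_apply, Matrix.smul_apply, h1, h1, h1, h2]
  simp only [cv_apply, sc_apply, Matrix.of_apply]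
  rcases p with (p | p) | p <;> rcases q with (q | q) | q <;>
    simp [Matrix.one_apply, -zsmul_eq_mul, smul_smul, hε]

theorem bl_cL (x : n → P) : bl r (1 : Matrix n n P) * (cL x 0 : Matrix ((n ⊕ n) ⊕ r) Unit P) =
    cL x 0 := by
  ext p q
  rw [bl, Matrix.mul_apply, Fintype.sum_sum_type, Fintype.sum_sum_type]
  rcases p with (p | p) | p <;> simp [cL, cv_apply, Matrix.one_apply]

theorem bl'_cL (a : n → P) (z : r → P) :
    bl' r (1 : Matrix n n P) * (cL a z : Matrix ((n ⊕ n) ⊕ r) Unit P) = 0 := by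
  ext p q
  rw [bl', Matrix.mul_apply, Fintype.sum_sum_type, Fintype.sum_sum_type]
  rcases p with (p | p) | p <;> simp [cL, cv_apply, Matrix.one_apply]

theorem bl'_cM (x : n → P) : bl' r (1 : Matrix n n P) * (cM x 0 : Matrix ((n ⊕ n) ⊕ r) Unit P) =
    cM x 0 := by
  ext p q
  rw [bl', Matrix.mul_apply, Fintype.sum_sum_type, Fintype.sum_sum_type]
  rcases p with (p | p) | p <;> simp [cM, cv_apply, Matrix.one_apply]

theorem bl_cM (a : n → P) (z : r → P) :
    bl r (1 : Matrix n n P) * (cM a z : Matrix ((n ⊕ n) ⊕ r) Unit P) = 0 := by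
  ext p q
  rw [bl, Matrix.mul_apply, Fintype.sum_sum_type, Fintype.sum_sum_type]
  rcases p with (p | p) | p <;> simp [cM, cv_apply, Matrix.one_apply]

theorem form_up (D : Matrix r r P) (a : n → P) (z : r → P) (a' : n → P) (z' : r → P) :
    (cL a z : Matrix ((n ⊕ n) ⊕ r) Unit P)ᴴ * JG ε n D *
      (cL a' z' : Matrix ((n ⊕ n) ⊕ r) Unit P) = sc (star z ⬝ᵥ (D *ᵥ z')) := by
  rw [cL, cL, col_form, hG_eq, hG]
  simp

theorem form_lo (D : Matrix r r P) (a : n → P) (z : r → P) (a' : n → P) (z' : r → P) :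
    (cM a z : Matrix ((n ⊕ n) ⊕ r) Unit P)ᴴ * JG ε n D *
      (cM a' z' : Matrix ((n ⊕ n) ⊕ r) Unit P) = sc (star z ⬝ᵥ (D *ᵥ z')) := by
  rw [cM, cM, col_form, hG_eq, hG]
  simp

theorem sc_star (t : P) : (sc t)ᴴ = sc (star t) := rfl
theorem sc_add (s t : P) : sc s + sc t = sc (s + t) := rfl
theorem sc_smul (m : ℤ) (t : P) : m • sc t = sc (m • t) := rfl
theorem sc_zero : sc (0 : P) = 0 := rfl

variable {A D : Matrix r r P} {H : Subgroup (Matrix ((n ⊕ n) ⊕ r) ((n ⊕ n) ⊕ r) P)ˣ}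

/-- elements of `U_P` of the form `E(x; (a, 0, z), t)` -/
theorem up_mem_of_big (hB : Big ε (JG ε n D) (bl r 1) (bl' r 1) H) (x a : n → P) (z : r → P)
    (t : P) (ht : t + ε • star t = ε • (star z ⬝ᵥ (D *ᵥ z)))
    {g : (Matrix ((n ⊕ n) ⊕ r) ((n ⊕ n) ⊕ r) P)ˣ}
    (hg : g.val = ev ε (JG ε n D) (cL x 0) (cL a z) (sc t)) : g ∈ H := by
  refine hB.pos _ _ (bl_cL x) (bl'_cL a z) g (sc t) ⟨?_, ?_, ?_⟩ hg
  · rw [form_up]; simp [sc_zero]
  · rw [form_up]; simp [sc_zero]
  · rw [form_up, sc_star, sc_smul, sc_smul, sc_add, ht]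

theorem lo_mem_of_big (hB : Big ε (JG ε n D) (bl r 1) (bl' r 1) H) (x a : n → P) (z : r → P)
    (t : P) (ht : t + ε • star t = ε • (star z ⬝ᵥ (D *ᵥ z)))
    {g : (Matrix ((n ⊕ n) ⊕ r) ((n ⊕ n) ⊕ r) P)ˣ}
    (hg : g.val = ev ε (JG ε n D) (cM x 0) (cM a z) (sc t)) : g ∈ H := by
  refine hB.neg _ _ (bl'_cM x) (bl_cM a z) g (sc t) ⟨?_, ?_, ?_⟩ hg
  · rw [form_lo]; simp [sc_zero]
  · rw [form_lo]; simp [sc_zero]
  · rw [form_lo, sc_star, sc_smul, sc_smul, sc_add, ht]

theorem tt_even (hD : D = A + ε • Aᴴ) (y : r → P) :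
    star y ⬝ᵥ (D *ᵥ y) = star y ⬝ᵥ (A *ᵥ y) + ε • star (star y ⬝ᵥ (A *ᵥ y)) := by
  rw [hD, Matrix.add_mulVec, dotProduct_add, Matrix.smul_mulVec, dotProduct_smul]
  congr 2
  rw [← Matrix.star_dotProduct_star, star_star, Matrix.star_mulVec, ← Matrix.dotProduct_mulVec]

theorem single_one (i p : n) : (Pi.single i (1 : P) : n → P) p = if p = i then 1 else 0 :=
  Pi.single_apply i 1 p

theorem star_single (i p : n) (c : P) :
    star ((Pi.single i c : n → P) p) = if p = i then star c else 0 := by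
  rw [Pi.single_apply]
  split_ifs <;> simp

theorem matrix_single (i j p q : n) (c : P) :
    Matrix.single i j c p q = if p = i then (if q = j then c else 0) else 0 := by
  rw [Matrix.single_apply]
  by_cases h1 : p = i
  · by_cases h2 : q = j
    · rw [if_pos ⟨h1.symm, h2.symm⟩, if_pos h1, if_pos h2]
    · rw [if_neg (fun h => h2 h.2.symm), if_pos h1, if_neg h2]
  · rw [if_neg (fun h => h1 h.1.symm), if_neg h1]

theorem cl_star_mul' (i : n) (y : r → P) (X : Matrix r r P) (p : n) (q : r) :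
    ((cl i y)ᴴ * X) p q = if p = i then (star y ᵥ* X) q else 0 := by
  rw [Matrix.mul_apply, Matrix.vecMul, dotProduct]
  split_ifs with h
  · refine Finset.sum_congr rfl fun l _ => ?_
    rw [Matrix.conjTranspose_apply, cl_apply, if_pos h]
    rfl
  · refine Finset.sum_eq_zero fun l _ => ?_
    rw [Matrix.conjTranspose_apply, cl_apply, if_neg h, star_zero, zero_mul]

theorem cl_quad (i : n) (y : r → P) (X : Matrix r r P) (p q : n) :
    ((cl i y)ᴴ * X * cl i y) p q =
      if p = i then (if q = i then star y ⬝ᵥ (X *ᵥ y) else 0) else 0 := by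
  rw [Matrix.mul_apply]
  have h1 : ∀ l, ((cl i y)ᴴ * X) p l * cl i y l q =
      if p = i then (if q = i then (star y ᵥ* X) l * y l else 0) else 0 := by
    intro l
    rw [cl_star_mul', cl_apply]
    split_ifs <;> simp
  rw [Finset.sum_congr rfl fun l _ => h1 l]
  split_ifs
  · rw [Matrix.dotProduct_mulVec]
    rfl
  · simp
  · simp

/-- the upper radical -/
theorem UPG_le (hε : ε * ε = 1) (hD : D = A + ε • Aᴴ)
    (hB : Big ε (JG ε n D) (bl r 1) (bl' r 1) H) : UPG ε n D ≤ H := by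
  intro g hg
  rw [UPG_eq] at hg
  refine elim (Q := True) H hε hD ?_ ?_ ?_ _ Finset.univ g rfl
    ⟨hg.1, hg.2, fun γ hγ => absurd (Finset.mem_univ _) hγ, Or.inl trivial⟩
  · rintro (i | i) (j | j) h x hw
    · exact absurd hw (lt_irrefl _)
    · refine up_mem_of_big hB (Pi.single i 1) (Pi.single j (star x)) 0 0 (by simp) ?_
      rw [ev_up, T_up i j h, embH_up]
      congr 2
      · ext p q
        rw [Matrix.sub_apply, Matrix.smul_apply, matrix_single, matrix_single,
          Matrix.of_apply, single_one, star_single, star_single, Pi.single_apply, star_star,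
          star_one]
        split_ifs <;> simp
      · ext p q
        rw [Matrix.of_apply, star_zero, Matrix.zero_vecMul]
        simp
      · ext p q
        rw [Matrix.of_apply]
        simp
    · exact absurd hw (by simp [wt])
    · exact absurd hw (lt_irrefl _)
  · rintro (i | i) b hb hw
    · refine up_mem_of_big hB (Pi.single i 1) 0 0 (-b) ?_ ?_
      · rw [star_neg, hb]
        simp [smul_smul, hε, -zsmul_eq_mul]
      rw [ev_up, lg_up i, embH_up]
      congr 2
      · ext p q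
        rw [matrix_single, Matrix.of_apply, single_one, star_single, star_one]
        split_ifs <;> simp
      · ext p q
        rw [Matrix.of_apply, star_zero, Matrix.zero_vecMul]
        simp
      · ext p q
        rw [Matrix.of_apply]
        simp
    · exact absurd hw (by simp [wt])
  · rintro - (i | i) y hw
    · have h1 : star y ⬝ᵥ (D *ᵥ y) = star y ⬝ᵥ (A *ᵥ y) + ε • star (star y ⬝ᵥ (A *ᵥ y)) :=
        tt_even hD y
      have h2 : star (-(ε • y)) ⬝ᵥ (D *ᵥ (-(ε • y))) = star y ⬝ᵥ (D *ᵥ y) := by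
        rw [Matrix.mulVec_neg, Matrix.mulVec_smul, star_neg, star_zsmul,
          neg_dotProduct_neg, smul_dotProduct, dotProduct_smul, smul_smul, hε, one_smul]
      refine up_mem_of_big hB (Pi.single i 1) 0 (-(ε • y)) (star (star y ⬝ᵥ (A *ᵥ y))) ?_ ?_
      · rw [h2, h1, star_star, smul_add, smul_smul, hε, one_smul, add_comm]
      rw [ev_up, mv, uA]
      congr 2
      · ext p q
        rw [Matrix.neg_apply, Matrix.conjTranspose_apply, cl_quad, Matrix.of_apply, single_one,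
          star_single, star_one]
        split_ifs <;> simp
      · ext p q
        rw [Matrix.neg_apply, Matrix.smul_apply, cl_star_mul', Matrix.of_apply, single_one,
          star_neg, star_zsmul, Matrix.neg_vecMul, Matrix.smul_vecMul]
        split_ifs <;> simp [-zsmul_eq_mul]
      · ext p q
        rw [Matrix.of_apply, star_single, star_one, cl_apply]
        split_ifs <;> simp [smul_smul, hε, -zsmul_eq_mul]
    · exact absurd hw (by simp [wt])

/-- the lower radical -/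
theorem UMG_le (hε : ε * ε = 1) (hD : D = A + ε • Aᴴ)
    (hB : Big ε (JG ε n D) (bl r 1) (bl' r 1) H) : UMG ε n D ≤ H := by
  intro g hg
  rw [UMG_eq] at hg
  refine elim (Q := True) H hε hD ?_ ?_ ?_ _ Finset.univ g rfl
    ⟨hg.1, hg.2, fun γ hγ => absurd (Finset.mem_univ _) hγ, Or.inl trivial⟩
  · rintro (i | i) (j | j) h x hw
    · exact absurd hw (lt_irrefl _)
    · exact absurd hw (by simp [wt])
    · refine lo_mem_of_big hB (Pi.single i 1) (Pi.single j (ε • star x)) 0 0 (by simp) ?_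
      rw [ev_lo hε, T_lo i j h, embH_lo]
      congr 2
      · ext p q
        rw [Matrix.sub_apply, Matrix.smul_apply, matrix_single, matrix_single,
          Matrix.of_apply, single_one, star_single, star_single, Pi.single_apply, star_zsmul,
          star_star, star_one]
        split_ifs <;> simp [smul_smul, hε, -zsmul_eq_mul]
      · ext p q
        rw [Matrix.of_apply, star_zero, Matrix.zero_vecMul]
        simp
      · ext p q
        rw [Matrix.of_apply]
        simp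
    · exact absurd hw (lt_irrefl _)
  · rintro (i | i) b hb hw
    · exact absurd hw (by simp [wt])
    · refine lo_mem_of_big hB (Pi.single i 1) 0 0 (-(ε • b)) ?_ ?_
      · rw [star_neg, star_zsmul, hb]
        simp [smul_smul, hε, -zsmul_eq_mul]
      rw [ev_lo hε, lg_lo i, embH_lo]
      congr 2
      · ext p q
        rw [matrix_single, Matrix.of_apply, single_one, star_single, star_one]
        split_ifs <;> simp [smul_smul, hε, -zsmul_eq_mul]
      · ext p q
        rw [Matrix.of_apply, star_zero, Matrix.zero_vecMul]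
        simp
      · ext p q
        rw [Matrix.of_apply]
        simp
  · rintro - (i | i) y hw
    · exact absurd hw (by simp [wt])
    · have h1 : star y ⬝ᵥ (D *ᵥ y) = star y ⬝ᵥ (A *ᵥ y) + ε • star (star y ⬝ᵥ (A *ᵥ y)) :=
        tt_even hD y
      have h2 : star (-y) ⬝ᵥ (D *ᵥ (-y)) = star y ⬝ᵥ (D *ᵥ y) := by
        rw [Matrix.mulVec_neg, star_neg, neg_dotProduct_neg]
      refine lo_mem_of_big hB (Pi.single i 1) 0 (-y) (ε • (star y ⬝ᵥ (A *ᵥ y))) ?_ ?_
      · rw [h2, h1, star_zsmul, smul_add]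
      rw [ev_lo hε, mv, lA]
      congr 2
      · ext p q
        rw [Matrix.neg_apply, cl_quad, Matrix.of_apply, single_one,
          star_single, star_one]
        split_ifs <;> simp [smul_smul, hε, -zsmul_eq_mul]
      · ext p q
        rw [Matrix.neg_apply, cl_star_mul', Matrix.of_apply, single_one,
          star_neg, Matrix.neg_vecMul]
        split_ifs <;> simp
      · ext p q
        rw [Matrix.of_apply, star_single, star_one, cl_apply]
        split_ifs <;> simp

/-- an isotropic unimodular vector is moved into the Lagrangian -/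
theorem to_a0 (hε : ε * ε = 1) (hD : D = A + ε • Aᴴ) (hR : Reach ε n D)
    (W W' : (n ⊕ n) ⊕ r → P) (hW : star W ⬝ᵥ (JG ε n D *ᵥ W) = 0)
    (hW' : star W' ⬝ᵥ (JG ε n D *ᵥ W) = 1) :
    ∃ e ∈ EG ε n D, ∃ a y : n → P, y ⬝ᵥ a = 1 ∧
      e.val *ᵥ W = Sum.elim (Sum.elim a 0) 0 := by
  obtain ⟨a', c', z', rfl⟩ : ∃ a c z, W' = Sum.elim (Sum.elim a c) z :=
    ⟨_, _, _, (elim_eta W').symm⟩
  obtain ⟨a, c, z, hz⟩ : ∃ a c z, W = Sum.elim (Sum.elim a c) z := ⟨_, _, _, (elim_eta W).symm⟩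
  rw [hz, hG_eq, hG] at hW'
  obtain ⟨e0, he0, -, y, hy⟩ := hR a c (ε • star c') (star a') z z' (by
    rw [← hW', smul_dotProduct, add_comm (star a' ⬝ᵥ c)])
  rw [← hz] at hy
  obtain ⟨a1, c1, z1, hz1⟩ : ∃ a c z, e0.val *ᵥ W = Sum.elim (Sum.elim a c) z :=
    ⟨_, _, _, (elim_eta _).symm⟩
  have hy1 : y ⬝ᵥ a1 = 1 := by
    rw [hz1] at hy
    exact hy
  -- kill `z`
  set e1 := lA A D (Matrix.vecMulVec (-z1) y) with he1
  have he1m : e1 ∈ EG ε n D := lA_mem_EG hε hD _
  obtain ⟨c2, hc2⟩ : ∃ c2 : n → P, e1.val *ᵥ Sum.elim (Sum.elim a1 c1) z1 =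
      Sum.elim (Sum.elim a1 c2) 0 := by
    refine ⟨c1 - ((Matrix.vecMulVec (-z1) y)ᴴ * A * Matrix.vecMulVec (-z1) y) *ᵥ a1 -
      (Matrix.vecMulVec (-z1) y)ᴴ *ᵥ (D *ᵥ z1), ?_⟩
    rw [he1, lA_mulVec]
    congr 1
    rw [vec_mulVec, hy1]
    ext i
    simp
  -- the length
  have hσ : star a1 ⬝ᵥ c2 + ε • (star c2 ⬝ᵥ a1) = 0 := by
    have h := isom_form (mul_mem (EG_le ε n D he1m) (EG_le ε n D he0)) W W
    rw [Units.val_mul, ← Matrix.mulVec_mulVec, hz1, hc2, hG_eq, hW, hG] at h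
    simpa using h
  have hσ' : star a1 ⬝ᵥ c2 + ε • star (star a1 ⬝ᵥ c2) = 0 := by
    rw [← Matrix.star_dotProduct_star, star_star] at *
    exact hσ
  set C := killM ε c2 y (star a1 ⬝ᵥ c2) with hC
  have hCa : C *ᵥ a1 = -c2 := killM_mulVec hy1 hσ
  have hCs : Sk ε C := killM_sk hε hσ'
  refine ⟨embH r (lo C) * (e1 * e0), mul_mem (embH_mem_EG hε (lo_mem hCs)) (mul_mem he1m he0),
    a1, y, hy1, ?_⟩
  rw [Units.val_mul, Units.val_mul, ← Matrix.mulVec_mulVec, ← Matrix.mulVec_mulVec, hz1, hc2,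
    embH_lo, lb_mulVec, hCa, Matrix.zero_mulVec, Matrix.zero_mulVec, add_neg_cancel,
    add_zero, add_zero]

theorem JG_even' (hD : D = A + ε • Aᴴ) : ∃ B, JG ε n D = B + ε • Bᴴ := by
  refine ⟨Matrix.fromBlocks (Matrix.fromBlocks 0 1 0 0) 0 0 A, ?_⟩
  rw [JG, BWC.J, hD, Matrix.fromBlocks_conjTranspose, Matrix.fromBlocks_conjTranspose]
  simp only [Matrix.conjTranspose_zero, Matrix.conjTranspose_one, Matrix.fromBlocks_smul,
    Matrix.fromBlocks_add, smul_zero, add_zero, zero_add]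

theorem cv_eta {k : Type*} (w : Matrix k Unit P) : cv (fun i => w i ()) = w := rfl

theorem mul_cv {k : Type*} [Fintype k] (g : Matrix k k P) (x : k → P) : g * cv x = cv (g *ᵥ x) := rfl

theorem JG_star (hε : ε * ε = 1) (hD : D = A + ε • Aᴴ) : (JG ε n D)ᴴ = ε • JG ε n D := by
  obtain ⟨B, hB⟩ := JG_even' (n := n) hD
  rw [hB, Matrix.conjTranspose_add, Matrix.conjTranspose_smul, star_trivial,
    Matrix.conjTranspose_conjTranspose, smul_add, smul_smul_self hε, add_comm]

/-- the pair `(a, 0, 0)`, `(0, ε ȳ, 0)` -/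
theorem pair_bl (hε : ε * ε = 1) (D : Matrix r r P) (a y : n → P) :
    (cL a 0 : Matrix ((n ⊕ n) ⊕ r) Unit P) *
        ((cM (ε • star y) 0 : Matrix ((n ⊕ n) ⊕ r) Unit P)ᴴ * JG ε n D) =
      bl r (Matrix.vecMulVec a y) := by
  rw [cM, row_form, bl]
  ext p q
  rw [Matrix.mul_apply]
  rcases p with (p | p) | p <;> rcases q with (q | q) | q <;>
    simp [cL, cv_apply, Matrix.vecMulVec_apply, star_zsmul, smul_smul, hε, -zsmul_eq_mul]

theorem pair_bl' (hε : ε * ε = 1) (D : Matrix r r P) (a y : n → P) :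
    ε • ((cM (ε • star y) 0 : Matrix ((n ⊕ n) ⊕ r) Unit P) *
        ((cL a 0 : Matrix ((n ⊕ n) ⊕ r) Unit P)ᴴ * JG ε n D)) =
      bl' r (Matrix.vecMulVec a y) := by
  rw [cL, row_form, bl']
  ext p q
  rw [Matrix.smul_apply, Matrix.mul_apply]
  rcases p with (p | p) | p <;> rcases q with (q | q) | q <;>
    simp [cM, cv_apply, Matrix.vecMulVec_apply, Matrix.conjTranspose_apply, smul_smul, hε,
      -zsmul_eq_mul]

/-- **one free hyperbolic pair is enough** -/
theorem EG_le_of_pair (hε : ε * ε = 1) (hD : D = A + ε • Aᴴ) (hR : Reach ε n D)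
    {w w' : Matrix ((n ⊕ n) ⊕ r) Unit P} (hww : wᴴ * JG ε n D * w = 0)
    (hww' : w'ᴴ * JG ε n D * w' = 0) (h1 : w'ᴴ * JG ε n D * w = 1)
    (hw : ∀ v, wᴴ * JG ε n D * v = 0 → EM ε (JG ε n D) H w v)
    (hw' : ∀ v, w'ᴴ * JG ε n D * v = 0 → EM ε (JG ε n D) H w' v) : EG ε n D ≤ H := by
  have hJ : (JG ε n D)ᴴ = ε • JG ε n D := JG_star hε hD
  obtain ⟨B, hB'⟩ := JG_even' (n := n) hD
  obtain ⟨e, he, a, y, hy, ha⟩ := to_a0 hε hD hR (fun i => w i ()) (fun i => w' i ())
    (by
      have h := hww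
      rw [← cv_eta w, col_form] at h
      exact congrFun (congrFun h ()) ())
    (by
      have h := h1
      rw [← cv_eta w, ← cv_eta w', col_form] at h
      exact congrFun (congrFun h ()) ())
  have hei : e ∈ isom (JG ε n D) := EG_le ε n D he
  have hew : e.val * w = cL a 0 := by
    rw [← cv_eta w, mul_cv, ha]
    rfl
  have hei' : (e⁻¹).val * e.val = 1 := by rw [← Units.val_mul, inv_mul_cancel, Units.val_one]
  have hei'' : e.val * (e⁻¹).val = 1 := by rw [← Units.val_mul, mul_inv_cancel, Units.val_one]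
  -- transport
  have tr : ∀ u : Matrix ((n ⊕ n) ⊕ r) Unit P,
      (∀ v, uᴴ * JG ε n D * v = 0 → EM ε (JG ε n D) H u v) →
      ∀ v, (e.val * u)ᴴ * JG ε n D * v = 0 →
        EM ε (JG ε n D) (H.comap (MulAut.conj e⁻¹).toMonoidHom) (e.val * u) v := by
    intro u hu v hv
    have h2 : v = e.val * (e⁻¹.val * v) := by rw [← Matrix.mul_assoc, hei'', Matrix.one_mul]
    rw [h2, form_isom (g := e.val) hei] at hv
    rw [h2]
    exact em_comap hei (hu _ hv)
  set H' := H.comap (MulAut.conj e⁻¹).toMonoidHom with hH'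
  have t1 := tr w hw
  have t2 := tr w' hw'
  rw [hew] at t1
  have k1 : (cL a 0 : Matrix ((n ⊕ n) ⊕ r) Unit P)ᴴ * JG ε n D *
      (cL a 0 : Matrix ((n ⊕ n) ⊕ r) Unit P) = 0 := by
    rw [form_up]; simp [sc_zero]
  have k2 : (cM (ε • star y) 0 : Matrix ((n ⊕ n) ⊕ r) Unit P)ᴴ * JG ε n D *
      (cM (ε • star y) 0 : Matrix ((n ⊕ n) ⊕ r) Unit P) = 0 := by
    rw [form_lo]; simp [sc_zero]
  have k3 : (cM (ε • star y) 0 : Matrix ((n ⊕ n) ⊕ r) Unit P)ᴴ * JG ε n D *
      (cL a 0 : Matrix ((n ⊕ n) ⊕ r) Unit P) = 1 := by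
    rw [cM, cL, col_form, hG_eq, hG]
    simp only [star_zero, zero_dotProduct, zero_add, Matrix.mulVec_zero, dotProduct_zero,
      add_zero, star_zsmul, star_star, smul_dotProduct, smul_smul, hε, one_smul, hy]
    rfl
  have k4 : (e.val * w')ᴴ * JG ε n D * (e.val * w') = 0 := by
    rw [form_isom (g := e.val) hei, hww']
  have k5 : (e.val * w')ᴴ * JG ε n D * (cL a 0 : Matrix ((n ⊕ n) ⊕ r) Unit P) = 1 := by
    rw [← hew, form_isom (g := e.val) hei, h1]
  have t3 := em_dual hε hJ k1 k4 k2 k5 k3 t1 t2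
  have hB1 := big_of_pair hε hJ k1 k2 k3 t1 t3
  have hf1 : Full2 (JG ε n D) _ _ := full_of_pair hε hJ k3
  have hX : Matrix.vecMulVec a y * Matrix.vecMulVec a y = Matrix.vecMulVec a y := by
    rw [Matrix.vecMulVec_mul_vecMulVec, hy]
    ext i j
    simp [Matrix.vecMulVec_apply]
  rw [pair_bl hε, pair_bl' hε] at hB1 hf1
  set X : Matrix n n P := Matrix.vecMulVec a y with hXd
  have hX1 : X * (1 - X) = 0 := by rw [Matrix.mul_sub, Matrix.mul_one, hX, sub_self]
  have hX2 : (1 - X) * X = 0 := by rw [Matrix.sub_mul, Matrix.one_mul, hX, sub_self]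
  have hX3 : (1 - X) * (1 - X) = 1 - X := by rw [Matrix.mul_sub, Matrix.mul_one, hX2, sub_zero]
  have b0 : bl r (0 : Matrix n n P) = 0 := by simp [bl]
  have b0' : bl' r (0 : Matrix n n P) = 0 := by simp [bl']
  have hB2 := Big.merge hε hJ hB' (idem_bl D hX) (idem_bl D hX3)
    (by rw [bl_mul, hX1, b0]) (by rw [bl_mul, hX2, b0]) (bl'_mul_bl _ _) (bl_mul_bl' _ _)
    (bl_mul_bl' _ _) (bl'_mul_bl _ _) (by rw [bl'_mul, hX2, b0']) (by rw [bl'_mul, hX1, b0'])
    hB1 hf1
  rw [bl_add, bl'_add, add_sub_cancel] at hB2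
  have hEG : EG ε n D ≤ H' := sup_le (UPG_le hε hD hB2) (UMG_le hε hD hB2)
  intro g hg
  have h3 := hEG (mul_mem (mul_mem he hg) (inv_mem he))
  rw [hH', Subgroup.mem_comap] at h3
  change e⁻¹ * (e * g * e⁻¹) * (e⁻¹)⁻¹ ∈ H at h3
  have h4 : e⁻¹ * (e * g * e⁻¹) * (e⁻¹)⁻¹ = g := by group
  rwa [h4] at h3

end Blocks

end PG

end BWP
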