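import Pool.Agent.BWC.KDef
import Pool.Agent.BWC.KG

/-!
# All parabolic subgroups of unitary groups: definitions (helper56)

Columns are `Matrix k Unit P`, rows `Matrix Unit k P`, scalars `Matrix Unit Unit P`.
`xᴴ * J * y` is the form `h(x, y)`, `Jᴴ = ε • J`. The adjoint idempotent of `e` is `e'` with
`eᴴ * J = J * e'`.
-/

namespace BWP

open Matrix
open BW hiding star
open BWC

section Form

variable {k P : Type*} [DecidableEq k] [Fintype k] [Ring P] [StarRing P]

/-- the Eichler transformation `E(w; v, t)` as a matrix -/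
def ev (ε : ℤ) (J : Matrix k k P) (w v : Matrix k Unit P) (t : Matrix Unit Unit P) :
    Matrix k k P :=
  1 + w * (vᴴ * J) - ε • (v * (wᴴ * J)) - w * t * (wᴴ * J)

/-- the conditions: `h(w, w) = 0`, `h(w, v) = 0`, `t + ε tᴴ = ε h(v, v)` -/
structure EC (ε : ℤ) (J : Matrix k k P) (w v : Matrix k Unit P) (t : Matrix Unit Unit P) :
    Prop where
  ww : wᴴ * J * w = 0
  wv : wᴴ * J * v = 0
  tt : t + ε • tᴴ = ε • (vᴴ * J * v)

/-- all `E(w; v, t)` are in `H` -/
def EM (ε : ℤ) (J : Matrix k k P) (H : Subgroup (Matrix k k P)ˣ) (w v : Matrix k Unit P) : Prop :=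
  ∀ (g : (Matrix k k P)ˣ) (t : Matrix Unit Unit P), EC ε J w v t → g.val = ev ε J w v t → g ∈ H

/-- the data of a parabolic subgroup and its opposite: the idempotents of `W` and `W'` -/
structure Idem (J e e' : Matrix k k P) : Prop where
  ee : e * e = e
  ee' : e' * e' = e'
  mul : e * e' = 0
  mul' : e' * e = 0
  adj : eᴴ * J = J * e'
  adj' : e'ᴴ * J = J * e

/-- `H` contains the two unipotent radicals -/
structure Big (ε : ℤ) (J e e' : Matrix k k P) (H : Subgroup (Matrix k k P)ˣ) : Prop where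
  pos : ∀ x v : Matrix k Unit P, e * x = x → e' * v = 0 → EM ε J H x v
  neg : ∀ x v : Matrix k Unit P, e' * x = x → e * v = 0 → EM ε J H x v

/-- an idempotent (or any matrix) with the image `x D ∩ V`: `y n(φ z) = z conj(φ z) φ(y)` -/
def R1 (e : Matrix k k P) : Prop :=
  ∀ (z y : Matrix k Unit P) (φ : Matrix Unit k P), e * z = z → e * y = y →
    y * ((φ * z)ᴴ * (φ * z)) = z * ((φ * z)ᴴ * (φ * y))

/-- the unipotent radical of the parabolic subgroup of a grading -/
def Rad (J : Matrix k k P) {l : ℕ} (e : Fin l → Matrix k k P) : Set (Matrix k k P)ˣ :=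
  {g | g ∈ isom J ∧ ∀ i j, ¬ i < j → e i * (g.val - 1) * e j = 0}

end Form

end BWP
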