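import Pool.Agent.BWP.Defs

/-!
# Eichler transformations, any ring with involution (helper56)
-/

set_option linter.unusedSectionVars false
set_option linter.unusedSimpArgs false

namespace BWP

open Matrix
open BW hiding star
open BWC

section Op

variable {k P : Type*} [DecidableEq k] [Fintype k] [Ring P] [StarRing P] (J : Matrix k k P)

/-- the operator `z ↦ a s h(b, z)` -/
def op (a : Matrix k Unit P) (s : Matrix Unit Unit P) (b : Matrix k Unit P) : Matrix k k P :=
  a * s * (bᴴ * J)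

variable {J}

theorem op_mul (a b c d : Matrix k Unit P) (s t : Matrix Unit Unit P) :
    op J a s b * op J c t d = op J a (s * (bᴴ * J * c) * t) d := by
  simp only [op, Matrix.mul_assoc]

theorem op_zero (a b : Matrix k Unit P) : op J a 0 b = 0 := by simp [op]

theorem op_zero_left (s : Matrix Unit Unit P) (b : Matrix k Unit P) : op J 0 s b = 0 := by
  simp [op]

theorem op_zero_right (s : Matrix Unit Unit P) (b : Matrix k Unit P) : op J b s 0 = 0 := by
  simp [op]

theorem op_add (a b : Matrix k Unit P) (s t : Matrix Unit Unit P) :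
    op J a (s + t) b = op J a s b + op J a t b := by
  simp only [op, Matrix.mul_add, Matrix.add_mul]

theorem op_sub (a b : Matrix k Unit P) (s t : Matrix Unit Unit P) :
    op J a (s - t) b = op J a s b - op J a t b := by
  simp only [op, Matrix.mul_sub, Matrix.sub_mul]

theorem op_neg (a b : Matrix k Unit P) (s : Matrix Unit Unit P) :
    op J a (-s) b = -op J a s b := by
  simp only [op, Matrix.mul_neg, Matrix.neg_mul]

theorem op_smul (ε : ℤ) (a b : Matrix k Unit P) (s : Matrix Unit Unit P) :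
    op J a (ε • s) b = ε • op J a s b := by
  simp only [op, Matrix.mul_smul, Matrix.smul_mul]

theorem op_add_left (a a' b : Matrix k Unit P) (s : Matrix Unit Unit P) :
    op J (a + a') s b = op J a s b + op J a' s b := by
  simp only [op, Matrix.add_mul]

theorem op_add_right (a b b' : Matrix k Unit P) (s : Matrix Unit Unit P) :
    op J a s (b + b') = op J a s b + op J a s b' := by
  simp only [op, Matrix.conjTranspose_add, Matrix.add_mul, Matrix.mul_add]

theorem op_mul_left (a b : Matrix k Unit P) (c s : Matrix Unit Unit P) :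
    op J (a * c) s b = op J a (c * s) b := by
  simp only [op, Matrix.mul_assoc]

theorem op_mul_right (a b : Matrix k Unit P) (c s : Matrix Unit Unit P) :
    op J a s (b * c) = op J a (s * cᴴ) b := by
  simp only [op, Matrix.mul_assoc, Matrix.conjTranspose_mul]

theorem op_smul_left (ε : ℤ) (a b : Matrix k Unit P) (s : Matrix Unit Unit P) :
    op J (ε • a) s b = ε • op J a s b := by
  simp only [op, Matrix.smul_mul]

theorem op_smul_right (ε : ℤ) (a b : Matrix k Unit P) (s : Matrix Unit Unit P) :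
    op J a s (ε • b) = ε • op J a s b := by
  simp only [op, Matrix.conjTranspose_smul, star_trivial, Matrix.smul_mul, Matrix.mul_smul]

theorem op_mulVec (a b z : Matrix k Unit P) (s : Matrix Unit Unit P) :
    op J a s b * z = a * (s * (bᴴ * J * z)) := by
  simp only [op, Matrix.mul_assoc]

theorem mul_op (g : Matrix k k P) (a b : Matrix k Unit P) (s : Matrix Unit Unit P) :
    g * op J a s b = op J (g * a) s b := by
  simp only [op, Matrix.mul_assoc]

theorem op_isom {g : Matrix k k P} (hg : gᴴ * J * g = J) (a b : Matrix k Unit P)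
    (s : Matrix Unit Unit P) : op J a s (g * b) * g = op J a s b := by
  have h1 : bᴴ * gᴴ * J * g = bᴴ * J := by
    calc bᴴ * gᴴ * J * g = bᴴ * (gᴴ * J * g) := by simp only [Matrix.mul_assoc]
      _ = bᴴ * J := by rw [hg]
  simp only [op, Matrix.conjTranspose_mul]
  calc a * s * (bᴴ * gᴴ * J) * g = a * s * (bᴴ * gᴴ * J * g) := by simp only [Matrix.mul_assoc]
    _ = _ := by rw [h1]

theorem ev_eq (ε : ℤ) (w v : Matrix k Unit P) (t : Matrix Unit Unit P) :
    ev ε J w v t = 1 + op J w 1 v - ε • op J v 1 w - op J w t w := by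
  simp only [ev, op, Matrix.mul_one]

/-- the adjoint of an operator -/
theorem op_adj {ε : ℤ} (hJ : Jᴴ = ε • J) (a b : Matrix k Unit P) (s : Matrix Unit Unit P) :
    (op J a s b)ᴴ * J = ε • (J * op J b sᴴ a) := by
  simp only [op, Matrix.conjTranspose_mul, Matrix.conjTranspose_conjTranspose, hJ,
    Matrix.smul_mul, Matrix.mul_assoc]

/-- symmetry of the form -/
theorem form_symm {ε : ℤ} (hJ : Jᴴ = ε • J) (a b : Matrix k Unit P) :
    (aᴴ * J * b)ᴴ = ε • (bᴴ * J * a) := by
  simp only [Matrix.conjTranspose_mul, Matrix.conjTranspose_conjTranspose, hJ, Matrix.smul_mul,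
    Matrix.mul_smul, Matrix.mul_assoc]

theorem form_symm_zero {ε : ℤ} (hε : ε * ε = 1) (hJ : Jᴴ = ε • J) {a b : Matrix k Unit P}
    (h : aᴴ * J * b = 0) : bᴴ * J * a = 0 := by
  have h1 := form_symm hJ a b
  rw [h, Matrix.conjTranspose_zero] at h1
  calc bᴴ * J * a = (ε * ε) • (bᴴ * J * a) := by rw [hε, one_smul]
    _ = ε • (ε • (bᴴ * J * a)) := by rw [smul_smul]
    _ = 0 := by rw [← h1, smul_zero]

end Op

section Unit

variable {k P : Type*} [DecidableEq k] [Fintype k] [Ring P] [StarRing P] {J : Matrix k k P}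
  {ε : ℤ} (hε : ε * ε = 1) (hJ : Jᴴ = ε • J)

theorem smul_smul_self (hε : ε * ε = 1) {M : Type*} [AddCommGroup M] (x : M) : ε • ε • x = x := by
  rw [smul_smul, hε, one_smul]

include hε hJ in
theorem EC.vw {w v : Matrix k Unit P} {t : Matrix Unit Unit P} (h : EC ε J w v t) :
    vᴴ * J * w = 0 := form_symm_zero hε hJ h.wv

include hε hJ in
theorem ev_mul_aux {w v : Matrix k Unit P} {t : Matrix Unit Unit P} (h : EC ε J w v t) :
    (1 + op J w 1 v - ε • op J v 1 w - op J w t w) *
      (1 - op J w 1 v + ε • op J v 1 w - ε • op J w tᴴ w) = 1 := by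
  have h1 := h.ww
  have h2 := h.wv
  have h3 := h.vw hε hJ
  have h4 : ε • op J w (vᴴ * J * v) w = op J w t w + ε • op J w tᴴ w := by
    rw [← op_smul, ← h.tt, op_add, op_smul]
  simp only [mul_add, mul_sub, add_mul, sub_mul, one_mul, mul_one, mul_smul_comm, smul_mul_assoc,
    op_mul, h1, h2, h3, Matrix.mul_zero, Matrix.zero_mul, Matrix.one_mul, Matrix.mul_one, op_zero,
    smul_zero, smul_add, smul_sub, h4]
  abel

include hε hJ in
theorem ev_mul_aux' {w v : Matrix k Unit P} {t : Matrix Unit Unit P} (h : EC ε J w v t) :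
    (1 - op J w 1 v + ε • op J v 1 w - ε • op J w tᴴ w) *
      (1 + op J w 1 v - ε • op J v 1 w - op J w t w) = 1 := by
  have h1 := h.ww
  have h2 := h.wv
  have h3 := h.vw hε hJ
  have h4 : ε • op J w (vᴴ * J * v) w = op J w t w + ε • op J w tᴴ w := by
    rw [← op_smul, ← h.tt, op_add, op_smul]
  simp only [mul_add, mul_sub, add_mul, sub_mul, one_mul, mul_one, mul_smul_comm, smul_mul_assoc,
    op_mul, h1, h2, h3, Matrix.mul_zero, Matrix.zero_mul, Matrix.one_mul, Matrix.mul_one, op_zero,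
    smul_zero, smul_add, smul_sub, h4]
  abel

/-- the Eichler transformation as a unit -/
def E {w v : Matrix k Unit P} {t : Matrix Unit Unit P} (h : EC ε J w v t) : (Matrix k k P)ˣ where
  val := ev ε J w v t
  inv := 1 - op J w 1 v + ε • op J v 1 w - ε • op J w tᴴ w
  val_inv := by rw [ev_eq]; exact ev_mul_aux hε hJ h
  inv_val := by rw [ev_eq]; exact ev_mul_aux' hε hJ h

@[simp] theorem E_val {w v : Matrix k Unit P} {t : Matrix Unit Unit P} (h : EC ε J w v t) :
    (E hε hJ h).val = ev ε J w v t := rfl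

theorem E_mem_isom {w v : Matrix k Unit P} {t : Matrix Unit Unit P} (h : EC ε J w v t) :
    E hε hJ h ∈ isom J := by
  rw [mem_isom, E_val]
  have h1 : (ev ε J w v t)ᴴ * J =
      J * (1 - op J w 1 v + ε • op J v 1 w - ε • op J w tᴴ w) := by
    rw [ev_eq, Matrix.conjTranspose_sub, Matrix.conjTranspose_sub, Matrix.conjTranspose_add,
      Matrix.conjTranspose_one, Matrix.conjTranspose_smul, star_trivial, Matrix.sub_mul,
      Matrix.sub_mul, Matrix.add_mul, Matrix.one_mul, Matrix.smul_mul, op_adj hJ, op_adj hJ,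
      op_adj hJ, smul_smul_self hε, Matrix.conjTranspose_one]
    simp only [Matrix.mul_sub, Matrix.mul_add, Matrix.mul_one, Matrix.mul_smul]
    abel
  rw [h1, Matrix.mul_assoc, ev_eq, ev_mul_aux' hε hJ h, Matrix.mul_one]

/-- `g E(w; v, t) = E(g w; g v, t) g` -/
theorem ev_conj {g : Matrix k k P} (hg : gᴴ * J * g = J) (w v : Matrix k Unit P)
    (t : Matrix Unit Unit P) : ev ε J (g * w) (g * v) t * g = g * ev ε J w v t := by
  simp only [ev_eq, add_mul, sub_mul, mul_add, mul_sub, one_mul, mul_one, smul_mul_assoc,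
    mul_smul_comm, mul_op, op_isom hg]

theorem form_isom {g : Matrix k k P} (hg : gᴴ * J * g = J) (a b : Matrix k Unit P) :
    (g * a)ᴴ * J * (g * b) = aᴴ * J * b := by
  calc (g * a)ᴴ * J * (g * b) = aᴴ * (gᴴ * J * g) * b := by
        rw [Matrix.conjTranspose_mul]; simp only [Matrix.mul_assoc]
    _ = _ := by rw [hg]

theorem EC.conj_iff {g : Matrix k k P} (hg : gᴴ * J * g = J) {w v : Matrix k Unit P}
    {t : Matrix Unit Unit P} : EC ε J (g * w) (g * v) t ↔ EC ε J w v t := by
  constructor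
  · rintro ⟨h1, h2, h3⟩
    rw [form_isom hg] at h1 h2 h3
    exact ⟨h1, h2, h3⟩
  · rintro ⟨h1, h2, h3⟩
    exact ⟨by rw [form_isom hg, h1], by rw [form_isom hg, h2], by rw [form_isom hg, h3]⟩

variable {H : Subgroup (Matrix k k P)ˣ}

/-- conjugation by an element of `H` -/
theorem EM.conj {g : (Matrix k k P)ˣ} (hg : g ∈ isom J) (hgH : g ∈ H) {w v : Matrix k Unit P}
    (h : EM ε J H w v) : EM ε J H (g.val * w) (g.val * v) := by
  intro u t hu huv
  have h1 : (g⁻¹ * u * g).val = ev ε J w v t := by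
    have h2 := ev_conj (ε := ε) hg w v t
    rw [Units.val_mul, Units.val_mul, huv, mul_assoc, h2, ← mul_assoc, ← Units.val_mul,
      inv_mul_cancel, Units.val_one, one_mul]
  have h3 := h _ t ((EC.conj_iff hg).1 hu) h1
  have h4 : u = g * (g⁻¹ * u * g) * g⁻¹ := by group
  rw [h4]
  exact mul_mem (mul_mem hgH h3) (inv_mem hgH)

/-- the product of two Eichler transformations with the same isotropic vector -/
theorem ev_mul {w v v' : Matrix k Unit P} {t t' : Matrix Unit Unit P} (hww : wᴴ * J * w = 0)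
    (hwv : wᴴ * J * v = 0) (hwv' : wᴴ * J * v' = 0) (hε : ε * ε = 1) (hJ : Jᴴ = ε • J) :
    ev ε J w v t * ev ε J w v' t' = ev ε J w (v + v') (t + t' + ε • (vᴴ * J * v')) := by
  have h3 := form_symm_zero hε hJ hwv
  have h4 := form_symm_zero hε hJ hwv'
  simp only [ev_eq, mul_add, mul_sub, add_mul, sub_mul, one_mul, mul_one, mul_smul_comm,
    smul_mul_assoc, op_mul, hww, hwv, hwv', h3, h4, Matrix.mul_zero, Matrix.zero_mul,
    Matrix.one_mul, Matrix.mul_one, op_zero, smul_zero, op_add, op_add_left, op_add_right, op_smul,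
    smul_add, smul_sub]
  abel

/-- existence of `t` -/
theorem exists_t (hε : ε * ε = 1) {A : Matrix k k P} (hA : J = A + ε • Aᴴ) (v : Matrix k Unit P) :
    ∃ t : Matrix Unit Unit P, t + ε • tᴴ = ε • (vᴴ * J * v) := by
  refine ⟨ε • (vᴴ * A * v), ?_⟩
  have h1 : vᴴ * J * v = vᴴ * A * v + ε • (vᴴ * Aᴴ * v) := by
    rw [hA]
    simp only [Matrix.mul_add, Matrix.add_mul, Matrix.mul_smul, Matrix.smul_mul]
  rw [h1, Matrix.conjTranspose_smul, star_trivial, smul_smul_self hε, smul_add,
    smul_smul_self hε]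
  simp only [Matrix.conjTranspose_mul, Matrix.conjTranspose_conjTranspose, Matrix.mul_assoc]

include hε hJ in
/-- additivity -/
theorem EM.add {A : Matrix k k P} (hA : J = A + ε • Aᴴ) {w v v' : Matrix k Unit P}
    (hv : wᴴ * J * v = 0) (h : EM ε J H w v) (h' : EM ε J H w v') :
    EM ε J H w (v + v') := by
  intro u t hu huv
  obtain ⟨t1, ht1⟩ := exists_t hε hA v
  have hwv' : wᴴ * J * v' = 0 := by
    have := hu.wv
    rw [Matrix.mul_add, hv, zero_add] at this
    exact this
  have e1 : EC ε J w v t1 := ⟨hu.ww, hv, ht1⟩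
  set t2 := t - t1 - ε • (vᴴ * J * v') with ht2
  have e2 : EC ε J w v' t2 := by
    refine ⟨hu.ww, hwv', ?_⟩
    have h1 := hu.tt
    have h2 : (v + v')ᴴ * J * (v + v') = vᴴ * J * v + vᴴ * J * v' + v'ᴴ * J * v + v'ᴴ * J * v' := by
      rw [Matrix.conjTranspose_add]
      simp only [Matrix.add_mul, Matrix.mul_add]
      abel
    have h3 := form_symm hJ v v'
    rw [h2] at h1
    have h4 : t2 + ε • t2ᴴ = (t + ε • tᴴ) - (t1 + ε • t1ᴴ) - ε • (vᴴ * J * v') -
        (v'ᴴ * J * v) * 1 * 1 + 0 - 0 - (ε • (v'ᴴ * J * v) - (v'ᴴ * J * v)) := by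
      rw [ht2, Matrix.conjTranspose_sub, Matrix.conjTranspose_sub, Matrix.conjTranspose_smul,
        star_trivial, h3, smul_smul_self hε]
      simp only [smul_sub, Matrix.mul_one]
      abel
    rw [h4, h1, ht1]
    simp only [smul_add, Matrix.mul_one]
    abel
  have m1 : E hε hJ e1 ∈ H := h _ t1 e1 rfl
  have m2 : E hε hJ e2 ∈ H := h' _ t2 e2 rfl
  have h5 : u = E hε hJ e1 * E hε hJ e2 := by
    ext1
    rw [Units.val_mul, E_val, E_val, ev_mul hu.ww hv hwv' hε hJ, huv]
    congr 1
    rw [ht2]; abel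
  rw [h5]
  exact mul_mem m1 m2

/-- from one `t` to all -/
theorem EM.of_one {w v : Matrix k Unit P} {t : Matrix Unit Unit P} (ht : EC ε J w v t)
    (h : E hε hJ ht ∈ H) (h0 : EM ε J H w 0) : EM ε J H w v := by
  intro u t' hu huv
  have e2 : EC ε J w 0 (t' - t) := by
    refine ⟨ht.ww, by simp, ?_⟩
    have h1 := hu.tt
    have h2 := ht.tt
    rw [← h2] at h1
    rw [Matrix.conjTranspose_sub, smul_sub]
    have h3 : t' - t + (ε • t'ᴴ - ε • tᴴ) = (t' + ε • t'ᴴ) - (t + ε • tᴴ) := by abel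
    rw [h3, h1, sub_self]
    simp
  have m2 : E hε hJ e2 ∈ H := h0 _ _ e2 rfl
  have h5 : u = E hε hJ ht * E hε hJ e2 := by
    ext1
    rw [Units.val_mul, E_val, E_val, ev_mul ht.ww ht.wv (by simp) hε hJ, huv]
    simp
  rw [h5]
  exact mul_mem h m2

include hε hJ in
theorem EM.zero_of {w v : Matrix k Unit P} {t : Matrix Unit Unit P} (ht : EC ε J w v t)
    (h : EM ε J H w v) : EM ε J H w 0 := by
  intro u s hu huv
  have e2 : EC ε J w v (t + s) := by
    refine ⟨ht.ww, ht.wv, ?_⟩
    have h1 := hu.tt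
    rw [Matrix.conjTranspose_zero, Matrix.zero_mul, Matrix.zero_mul, smul_zero] at h1
    rw [Matrix.conjTranspose_add, smul_add]
    have h3 : t + s + (ε • tᴴ + ε • sᴴ) = (t + ε • tᴴ) + (s + ε • sᴴ) := by abel
    rw [h3, h1, add_zero, ht.tt]
  have m1 : E hε hJ ht ∈ H := h _ _ ht rfl
  have m2 : E hε hJ e2 ∈ H := h _ _ e2 rfl
  have h5 : E hε hJ ht * u = E hε hJ e2 := by
    ext1
    rw [Units.val_mul, E_val, E_val, huv, ev_mul ht.ww ht.wv (by simp) hε hJ]
    simp
  exact (Subgroup.mul_mem_cancel_left _ m1).1 (by rw [h5]; exact m2)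

/-- exchange of the two vectors -/
theorem ev_swap {w v : Matrix k Unit P} (hε : ε * ε = 1) :
    ev ε J w v 0 = ev ε J v (-(ε • w)) 0 := by
  rw [ev_eq, ev_eq]
  have h1 : op J v 1 (-(ε • w)) = -(ε • op J v 1 w) := by
    simp only [op, Matrix.conjTranspose_neg, Matrix.conjTranspose_smul, star_trivial,
      Matrix.neg_mul, Matrix.mul_neg, Matrix.smul_mul, Matrix.mul_smul]
  have h2 : op J (-(ε • w)) 1 v = -(ε • op J w 1 v) := by
    simp only [op, Matrix.neg_mul, Matrix.smul_mul]
  rw [h1, h2, op_zero, op_zero, smul_neg, smul_smul_self hε]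
  abel

include hε hJ in
theorem EC.swap {w v : Matrix k Unit P} (hww : wᴴ * J * w = 0) (hvv : vᴴ * J * v = 0)
    (hwv : wᴴ * J * v = 0) : EC ε J v (-(ε • w)) 0 := by
  have h1 := form_symm_zero hε hJ hwv
  refine ⟨hvv, ?_, ?_⟩
  · rw [Matrix.mul_neg, Matrix.mul_smul, h1, smul_zero, neg_zero]
  · rw [Matrix.conjTranspose_neg, Matrix.conjTranspose_smul, star_trivial]
    simp only [Matrix.neg_mul, Matrix.mul_neg, Matrix.smul_mul, Matrix.mul_smul, hww, smul_zero,
      neg_zero, Matrix.conjTranspose_zero, add_zero]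

/-- additivity in the first vector -/
theorem ev_add_left {x p v : Matrix k Unit P} {t : Matrix Unit Unit P} (hε : ε * ε = 1)
    (hJ : Jᴴ = ε • J) (hxx : xᴴ * J * x = 0) (hpp : pᴴ * J * p = 0) (hxp : xᴴ * J * p = 0)
    (hxv : xᴴ * J * v = 0) (hpv : pᴴ * J * v = 0) (ht : t + ε • tᴴ = ε • (vᴴ * J * v)) :
    ev ε J (x + p) v t = ev ε J x v t * ev ε J p v t * ev ε J x (ε • (p * t)) 0 := by
  have h1 := form_symm_zero hε hJ hxp
  have h2 := form_symm_zero hε hJ hxv
  have h3 := form_symm_zero hε hJ hpv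
  have h4 : ε • op J x (vᴴ * J * v) p = op J x t p + ε • op J x tᴴ p := by
    rw [← op_smul, ← ht, op_add, op_smul]
  simp only [ev_eq, op_smul_left, op_smul_right, op_mul_left, op_mul_right, Matrix.one_mul,
    Matrix.mul_one, smul_smul_self hε, op_zero, sub_zero]
  simp only [mul_add, mul_sub, add_mul, sub_mul, one_mul, mul_one, mul_smul_comm,
    smul_mul_assoc, op_mul, hxx, hpp, hxp, hxv, hpv, h1, h2, h3, Matrix.mul_zero, Matrix.zero_mul,
    Matrix.one_mul, Matrix.mul_one, op_zero, smul_zero, op_add_left, op_add_right, smul_add,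
    smul_sub, h4]
  abel

include hε hJ in
theorem EM.add_left {x p v : Matrix k Unit P} (hxx : xᴴ * J * x = 0) (hpp : pᴴ * J * p = 0)
    (hxp : xᴴ * J * p = 0) (hxv : xᴴ * J * v = 0) (hpv : pᴴ * J * v = 0)
    (h1 : EM ε J H x v) (h2 : EM ε J H p v)
    (h3 : ∀ c : Matrix Unit Unit P, EM ε J H x (p * c)) :
    EM ε J H (x + p) v := by
  intro u t hu huv
  have c1 : EC ε J x v t := ⟨hxx, hxv, hu.tt⟩
  have c2 : EC ε J p v t := ⟨hpp, hpv, hu.tt⟩
  have e3 : ε • (p * t) = p * (ε • t) := by rw [Matrix.mul_smul]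
  have c3 : EC ε J x (ε • (p * t)) 0 := by
    refine ⟨hxx, ?_, ?_⟩
    · rw [Matrix.mul_smul, ← Matrix.mul_assoc, hxp, Matrix.zero_mul, smul_zero]
    · rw [Matrix.conjTranspose_smul, star_trivial, Matrix.conjTranspose_mul]
      simp only [Matrix.smul_mul, Matrix.mul_smul]
      have : tᴴ * pᴴ * J * (p * t) = tᴴ * (pᴴ * J * p) * t := by simp only [Matrix.mul_assoc]
      rw [this, hpp]
      simp
  have m1 : E hε hJ c1 ∈ H := h1 _ _ c1 rfl
  have m2 : E hε hJ c2 ∈ H := h2 _ _ c2 rfl
  have m3 : E hε hJ c3 ∈ H := by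
    refine (h3 (ε • t)) _ 0 ?_ ?_
    · rw [← e3]; exact c3
    · rw [← e3]; rfl
  have h5 : u = E hε hJ c1 * E hε hJ c2 * E hε hJ c3 := by
    ext1
    rw [Units.val_mul, Units.val_mul, E_val, E_val, E_val, huv]
    exact ev_add_left hε hJ hxx hpp hxp hxv hpv hu.tt
  rw [h5]
  exact mul_mem (mul_mem m1 m2) m3

end Unit

end BWP
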