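import Pool.Agent.BWP.Eich

/-!
# Reduction lemmas for the group generated by two opposite radicals (helper56)
-/

set_option linter.unusedSectionVars false
set_option linter.unusedSimpArgs false

namespace BWP

open Matrix
open BW hiding star
open BWC

section G

variable {k P : Type*} [DecidableEq k] [Fintype k] [Ring P] [StarRing P]
  {J e e' A : Matrix k k P} {ε : ℤ} {H : Subgroup (Matrix k k P)ˣ}

theorem Idem.swap (h : Idem J e e') : Idem J e' e :=
  ⟨h.ee', h.ee, h.mul', h.mul, h.adj', h.adj⟩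

theorem Big.swap (h : Big ε J e e' H) : Big ε J e' e H := ⟨h.neg, h.pos⟩

/-- `h(a, b) = 0` for `a` in the image of `e` and `e' b = 0` -/
theorem Idem.form (h : Idem J e e') {a b : Matrix k Unit P} (ha : e * a = a) (hb : e' * b = 0) :
    aᴴ * J * b = 0 := by
  rw [← ha, conjTranspose_mul]
  calc aᴴ * eᴴ * J * b = aᴴ * (eᴴ * J) * b := by simp only [Matrix.mul_assoc]
    _ = aᴴ * (J * e') * b := by rw [h.adj]
    _ = aᴴ * J * (e' * b) := by simp only [Matrix.mul_assoc]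
    _ = 0 := by rw [hb, Matrix.mul_zero]

theorem Idem.kill (h : Idem J e e') {a : Matrix k Unit P} (ha : e * a = a) : e' * a = 0 := by
  rw [← ha, ← Matrix.mul_assoc, h.mul', Matrix.zero_mul]

theorem Idem.kill' (h : Idem J e e') {a : Matrix k Unit P} (ha : e' * a = a) : e * a = 0 :=
  h.swap.kill ha

theorem Idem.iso (h : Idem J e e') {a b : Matrix k Unit P} (ha : e * a = a) (hb : e * b = b) :
    aᴴ * J * b = 0 := h.form ha (h.kill hb)

/-- fullness of the image of `e` with two terms -/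
def Full2 (J e e' : Matrix k k P) : Prop :=
  ∃ x₁ x₂ y₁ y₂ : Matrix k Unit P, e * x₁ = x₁ ∧ e * x₂ = x₂ ∧ e' * y₁ = y₁ ∧ e' * y₂ = y₂ ∧
    y₁ᴴ * J * x₁ + y₂ᴴ * J * x₂ = 1

theorem Full2.swap (_ : ε * ε = 1) (hJ : Jᴴ = ε • J) (h : Full2 J e e') : Full2 J e' e := by
  obtain ⟨x₁, x₂, y₁, y₂, h1, h2, h3, h4, h5⟩ := h
  refine ⟨y₁, y₂, ε • x₁, ε • x₂, h3, h4, by rw [Matrix.mul_smul, h1], by rw [Matrix.mul_smul, h2],
    ?_⟩
  have h6 := congrArg conjTranspose h5
  rw [Matrix.conjTranspose_add, form_symm hJ, form_symm hJ, Matrix.conjTranspose_one] at h6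
  rw [← h6, Matrix.conjTranspose_smul, Matrix.conjTranspose_smul, star_trivial]
  simp only [Matrix.smul_mul]

/-- scalars in the first vector -/
theorem ev_smul (w v : Matrix k Unit P) (d t : Matrix Unit Unit P) :
    ev ε J (w * d) v t = ev ε J w (v * dᴴ) (d * t * dᴴ) := by
  simp only [ev_eq, op_mul_left, op_mul_right, Matrix.mul_one, Matrix.one_mul,
    Matrix.conjTranspose_conjTranspose, Matrix.mul_assoc]

variable (hε : ε * ε = 1) (hJ : Jᴴ = ε • J)

include hε in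
theorem skew_of {t : Matrix Unit Unit P} (h : t + ε • tᴴ = 0) : tᴴ = -(ε • t) := by
  have h1 : ε • tᴴ = -t := by rw [eq_neg_iff_add_eq_zero, add_comm]; exact h
  rw [← smul_smul_self hε tᴴ, h1, smul_neg]

theorem tt_zero {s : Matrix Unit Unit P} (hs : s + ε • sᴴ = 0) :
    s + ε • sᴴ = ε • ((0 : Matrix k Unit P)ᴴ * J * (0 : Matrix k Unit P)) := by
  rw [hs, Matrix.mul_zero, smul_zero]

include hε hJ in
theorem zm_conj (hid : Idem J e e') (hB : Big ε J e e' H) {w x y : Matrix k Unit P}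
    (hw : e * w = 0) (hw' : e' * w = 0) (hww : wᴴ * J * w = 0) (hx : e * x = x) (hy : e' * y = y)
    {s : Matrix Unit Unit P} (hs : s + ε • sᴴ = 0) {g : (Matrix k k P)ˣ}
    (hg : g.val = ev ε J w 0 ((yᴴ * J * x) * s * (yᴴ * J * x)ᴴ)) : g ∈ H := by
  set c := yᴴ * J * x with hc
  have ec : EC ε J y w 0 := ⟨hid.swap.iso hy hy, hid.swap.form hy hw, by simp [hww]⟩
  have hG : E hε hJ ec ∈ H := hB.neg y w hy hw _ 0 ec rfl
  have hwx : wᴴ * J * x = 0 := form_symm_zero hε hJ (hid.form hx hw')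
  have hGx : (E hε hJ ec).val * x = x + w * (-(ε • c)) := by
    rw [E_val, ev_eq, op_zero, sub_zero, Matrix.sub_mul, Matrix.add_mul, Matrix.one_mul,
      Matrix.smul_mul, op_mulVec, op_mulVec, hwx, ← hc]
    simp only [Matrix.mul_zero, Matrix.one_mul, add_zero, Matrix.mul_neg, Matrix.mul_smul,
      sub_eq_add_neg]
  have h1 : EM ε J H (x + w * (-(ε • c))) 0 := by
    have h2 := EM.conj (ε := ε) (E_mem_isom hε hJ ec) hG (hB.pos x 0 hx (Matrix.mul_zero _))
    rw [hGx, Matrix.mul_zero] at h2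
    exact h2
  set d := -(ε • c) with hd
  have hxw : xᴴ * J * w = 0 := hid.form hx hw'
  have hpp : (w * d)ᴴ * J * (w * d) = 0 := by
    have : (w * d)ᴴ * J * (w * d) = dᴴ * (wᴴ * J * w) * d := by
      rw [Matrix.conjTranspose_mul]; simp only [Matrix.mul_assoc]
    rw [this, hww, Matrix.mul_zero, Matrix.zero_mul]
  have hxp : xᴴ * J * (w * d) = 0 := by rw [← Matrix.mul_assoc, hxw, Matrix.zero_mul]
  have hs' : s + ε • sᴴ = ε • ((0 : Matrix k Unit P)ᴴ * J * (0 : Matrix k Unit P)) :=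
    tt_zero hs
  have hxx := hid.iso hx hx
  have c1 : EC ε J x 0 s := ⟨hxx, by simp, hs'⟩
  have c2 : EC ε J (w * d) 0 s := ⟨hpp, by simp, hs'⟩
  have c0 : EC ε J (x + w * d) 0 s := by
    refine ⟨?_, by simp, hs'⟩
    have hpx := form_symm_zero hε hJ hxp
    rw [Matrix.conjTranspose_add]
    simp only [Matrix.add_mul, Matrix.mul_add, hxx, hpp, hxp, hpx, add_zero]
  have c3 : EC ε J x (ε • (w * d * s)) 0 := by
    refine ⟨hxx, ?_, ?_⟩
    · rw [Matrix.mul_smul, ← Matrix.mul_assoc, hxp, Matrix.zero_mul, smul_zero]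
    · rw [Matrix.conjTranspose_smul, star_trivial, Matrix.conjTranspose_mul]
      simp only [Matrix.smul_mul, Matrix.mul_smul]
      have : sᴴ * (w * d)ᴴ * J * (w * d * s) = sᴴ * ((w * d)ᴴ * J * (w * d)) * s := by
        simp only [Matrix.mul_assoc]
      rw [this, hpp]
      simp
  have m0 : E hε hJ c0 ∈ H := h1 _ s c0 rfl
  have m1 : E hε hJ c1 ∈ H := hB.pos x 0 hx (Matrix.mul_zero _) _ s c1 rfl
  have m3 : E hε hJ c3 ∈ H := by
    refine hB.pos x _ hx ?_ _ 0 c3 rfl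
    rw [Matrix.mul_smul, Matrix.mul_assoc w d s, ← Matrix.mul_assoc, hw', Matrix.zero_mul,
      smul_zero]
  have h5 : E hε hJ c0 = E hε hJ c1 * g * E hε hJ c3 := by
    ext1
    rw [Units.val_mul, Units.val_mul, E_val, E_val, E_val, hg]
    rw [ev_add_left hε hJ hxx hpp hxp (by simp) (by simp) hs', ev_smul w 0 d s, Matrix.zero_mul]
    have : d * s * dᴴ = c * s * cᴴ := by
      rw [hd, Matrix.conjTranspose_neg, Matrix.conjTranspose_smul, star_trivial]
      simp only [Matrix.neg_mul, Matrix.mul_neg, Matrix.smul_mul, Matrix.mul_smul, neg_neg,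
        smul_neg, smul_smul_self hε]
    rw [this]
  have h6 : g = (E hε hJ c1)⁻¹ * E hε hJ c0 * (E hε hJ c3)⁻¹ := by rw [h5]; group
  rw [h6]
  exact mul_mem (mul_mem (inv_mem m1) m0) (inv_mem m3)

include hε hJ in
/-- `E(w; x, 0)` for `w ∈ V'`, `x ∈ W` -/
theorem em_pos_zero (hid : Idem J e e') (hB : Big ε J e e' H) {w x : Matrix k Unit P}
    (hw' : e' * w = 0) (hww : wᴴ * J * w = 0) (hx : e * x = x) {g : (Matrix k k P)ˣ}
    (hg : g.val = ev ε J w x 0) : g ∈ H := by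
  have hxw : xᴴ * J * w = 0 := hid.form hx hw'
  have hwx := form_symm_zero hε hJ hxw
  refine hB.pos x (-(ε • w)) hx ?_ g 0 (EC.swap hε hJ hww (hid.iso hx hx) hwx) ?_
  · rw [Matrix.mul_neg, Matrix.mul_smul, hw', smul_zero, neg_zero]
  · rw [hg, ev_swap hε]

include hε hJ in
theorem ec_pos_zero (hid : Idem J e e') {w x : Matrix k Unit P}
    (hw' : e' * w = 0) (hww : wᴴ * J * w = 0) (hx : e * x = x) : EC ε J w x 0 := by
  have hxw : xᴴ * J * w = 0 := hid.form hx hw'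
  exact ⟨hww, form_symm_zero hε hJ hxw, by simp [hid.iso hx hx]⟩

include hε hJ in
theorem zm_comm (hid : Idem J e e') (hB : Big ε J e e' H) {w x y : Matrix k Unit P}
    (hw : e * w = 0) (hw' : e' * w = 0) (hww : wᴴ * J * w = 0) (hx : e * x = x) (hy : e' * y = y)
    {g : (Matrix k k P)ˣ} (hg : g.val = ev ε J w 0 ((yᴴ * J * x)ᴴ - ε • (yᴴ * J * x))) :
    g ∈ H := by
  have cx := ec_pos_zero hε hJ hid hw' hww hx
  have cy := ec_pos_zero hε hJ hid.swap hw hww hy
  have mx : E hε hJ cx ∈ H := em_pos_zero hε hJ hid hB hw' hww hx rfl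
  have my : E hε hJ cy ∈ H := em_pos_zero hε hJ hid.swap hB.swap hw hww hy rfl
  have h1 : g * (E hε hJ cy * E hε hJ cx) = E hε hJ cx * E hε hJ cy := by
    ext1
    simp only [Units.val_mul, E_val]
    rw [ev_mul hww cy.wv cx.wv hε hJ, ev_mul hww cx.wv cy.wv hε hJ, hg,
      ev_mul hww (by simp) (by rw [Matrix.mul_add, cy.wv, cx.wv, add_zero]) hε hJ, form_symm hJ]
    congr 1
    · abel
    · simp only [Matrix.conjTranspose_zero, Matrix.zero_mul, smul_zero]; abel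
  have h2 : g = E hε hJ cx * E hε hJ cy * (E hε hJ cy * E hε hJ cx)⁻¹ := by rw [← h1]; group
  rw [h2]
  exact mul_mem (mul_mem mx my) (inv_mem (mul_mem my mx))

include hε hJ in
/-- (b) long root elements in the direction of an isotropic vector of `V'` -/
theorem em_zero (hid : Idem J e e') (hB : Big ε J e e' H) (hf : Full2 J e e')
    {w : Matrix k Unit P} (hw : e * w = 0) (hw' : e' * w = 0) (hww : wᴴ * J * w = 0) :
    EM ε J H w 0 := by
  intro g t ht hg
  obtain ⟨x₁, x₂, y₁, y₂, hx1, hx2, hy1, hy2, h5⟩ := hf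
  have h1 : t + ε • tᴴ = 0 := by
    have := ht.tt
    simpa using this
  have h2 := skew_of hε h1
  set c₁ := y₁ᴴ * J * x₁ with hc1
  set c₂ := y₂ᴴ * J * x₂ with hc2
  set μ : Matrix Unit Unit P := -(ε • (t * c₂ᴴ)) with hμ
  have hcs : ∀ c : Matrix Unit Unit P, EC ε J w 0 (c * t * cᴴ) := by
    intro c
    refine ⟨hww, by simp, ?_⟩
    have : (c * t * cᴴ)ᴴ = c * tᴴ * cᴴ := by
      simp only [Matrix.conjTranspose_mul, Matrix.conjTranspose_conjTranspose, Matrix.mul_assoc]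
    rw [this]
    calc c * t * cᴴ + ε • (c * tᴴ * cᴴ) = c * (t + ε • tᴴ) * cᴴ := by
          simp only [Matrix.mul_add, Matrix.add_mul, Matrix.mul_smul, Matrix.smul_mul]
      _ = _ := by rw [h1]; simp
  have hz : y₁ᴴ * J * (x₁ * μ) = c₁ * μ := by rw [← Matrix.mul_assoc]
  have e3 : EC ε J w 0 ((c₁ * μ)ᴴ - ε • (c₁ * μ)) := by
    refine ⟨hww, by simp, ?_⟩
    rw [Matrix.conjTranspose_sub, Matrix.conjTranspose_smul, star_trivial,
      Matrix.conjTranspose_conjTranspose, smul_sub, smul_smul_self hε]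
    simp
  have m1 : E hε hJ (hcs c₁) ∈ H := zm_conj hε hJ hid hB hw hw' hww hx1 hy1 h1 rfl
  have m2 : E hε hJ (hcs c₂) ∈ H := zm_conj hε hJ hid hB hw hw' hww hx2 hy2 h1 rfl
  have m3 : E hε hJ e3 ∈ H := by
    refine zm_comm hε hJ hid hB hw hw' hww (x := x₁ * μ) (y := y₁) ?_ hy1 ?_
    · rw [← Matrix.mul_assoc, hx1]
    · rw [hz]; rfl
  have h6 : t = c₁ * t * c₁ᴴ + c₂ * t * c₂ᴴ + ((c₁ * μ)ᴴ - ε • (c₁ * μ)) := by
    have a1 : t = (c₁ + c₂) * t * (c₁ + c₂)ᴴ := by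
      rw [h5, Matrix.conjTranspose_one, Matrix.one_mul, Matrix.mul_one]
    have a2 : ε • (c₁ * μ) = -(c₁ * t * c₂ᴴ) := by
      rw [hμ, Matrix.mul_neg, Matrix.mul_smul, smul_neg, smul_smul_self hε, ← Matrix.mul_assoc]
    have a3 : (c₁ * μ)ᴴ = c₂ * t * c₁ᴴ := by
      rw [hμ, Matrix.mul_neg, Matrix.mul_smul, Matrix.conjTranspose_neg,
        Matrix.conjTranspose_smul, star_trivial, Matrix.conjTranspose_mul,
        Matrix.conjTranspose_mul, Matrix.conjTranspose_conjTranspose, h2]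
      simp only [Matrix.mul_neg, Matrix.neg_mul, smul_neg, neg_neg, Matrix.mul_smul,
        Matrix.smul_mul, smul_smul_self hε]
    rw [a2, a3]
    nth_rewrite 1 [a1]
    rw [Matrix.conjTranspose_add]
    simp only [Matrix.add_mul, Matrix.mul_add]
    abel
  have h7 : g = E hε hJ (hcs c₁) * E hε hJ (hcs c₂) * E hε hJ e3 := by
    ext1
    simp only [Units.val_mul, E_val]
    rw [ev_mul hww (by simp) (by simp) hε hJ, ev_mul hww (by simp) (by simp) hε hJ, hg]
    simp only [Matrix.conjTranspose_zero, Matrix.zero_mul, smul_zero, add_zero]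
    rw [← h6]
  rw [h7]
  exact mul_mem (mul_mem m1 m2) m3

include hε hJ in
/-- (a) -/
theorem em_pos (hid : Idem J e e') (hB : Big ε J e e' H) (hf : Full2 J e e')
    {w x : Matrix k Unit P} (hw : e * w = 0) (hw' : e' * w = 0) (hww : wᴴ * J * w = 0)
    (hx : e * x = x) : EM ε J H w x := by
  have c := ec_pos_zero hε hJ hid hw' hww hx
  exact EM.of_one hε hJ c (em_pos_zero hε hJ hid hB hw' hww hx rfl)
    (em_zero hε hJ hid hB hf hw hw' hww)

theorem form_add_zero {w v v' : Matrix k Unit P} (h : wᴴ * J * v = 0) (h' : wᴴ * J * v' = 0) :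
    wᴴ * J * (v + v') = 0 := by rw [Matrix.mul_add, h, h', add_zero]

theorem form_mul_zero {w v : Matrix k Unit P} (h : wᴴ * J * v = 0) (c : Matrix Unit Unit P) :
    wᴴ * J * (v * c) = 0 := by rw [← Matrix.mul_assoc, h, Matrix.zero_mul]

theorem form_neg_zero {w v : Matrix k Unit P} (h : wᴴ * J * v = 0) :
    wᴴ * J * (-v) = 0 := by rw [Matrix.mul_neg, h, neg_zero]

include hε hJ in
/-- (c) -/
theorem em_mid (hA : J = A + ε • Aᴴ) (hid : Idem J e e') (hB : Big ε J e e' H)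
    (hf : Full2 J e e') {w v : Matrix k Unit P} (hw : e * w = 0) (hw' : e' * w = 0)
    (hww : wᴴ * J * w = 0) (hv : e * v = 0) (hv' : e' * v = 0) (hwv : wᴴ * J * v = 0) :
    EM ε J H w v := by
  have key : ∀ x y : Matrix k Unit P, e * x = x → e' * y = y →
      EM ε J H w (v * (yᴴ * J * x)) := by
    intro x y hx hy
    have hv1 : e * (-(ε • v)) = 0 := by rw [Matrix.mul_neg, Matrix.mul_smul, hv, smul_zero,
      neg_zero]
    have hv2 : e' * (-(ε • v)) = 0 := by rw [Matrix.mul_neg, Matrix.mul_smul, hv', smul_zero,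
      neg_zero]
    have hwv1 : wᴴ * J * (-(ε • v)) = 0 := by
      rw [Matrix.mul_neg, Matrix.mul_smul, hwv, smul_zero, neg_zero]
    set v₁ := -(ε • v) with hv₁
    obtain ⟨t, ht⟩ := exists_t hε hA v₁
    have ec : EC ε J y v₁ t := ⟨hid.swap.iso hy hy, hid.swap.form hy hv1, ht⟩
    have hG : E hε hJ ec ∈ H := hB.neg y v₁ hy hv1 _ t ec rfl
    have hyw : yᴴ * J * w = 0 := hid.swap.form hy hw
    have hvx : v₁ᴴ * J * x = 0 := form_symm_zero hε hJ (hid.form hx hv2)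
    have hGw : (E hε hJ ec).val * w = w := by
      rw [E_val, ev_eq, Matrix.sub_mul, Matrix.sub_mul, Matrix.add_mul, Matrix.one_mul,
        Matrix.smul_mul, op_mulVec, op_mulVec, op_mulVec, hyw, form_symm_zero hε hJ hwv1]
      simp
    have hGx : (E hε hJ ec).val * x = x + (v * (yᴴ * J * x) + y * (-(t * (yᴴ * J * x)))) := by
      rw [E_val, ev_eq, Matrix.sub_mul, Matrix.sub_mul, Matrix.add_mul, Matrix.one_mul,
        Matrix.smul_mul, op_mulVec, op_mulVec, op_mulVec, hvx, hv₁]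
      simp only [Matrix.mul_zero, Matrix.mul_neg, Matrix.neg_mul, Matrix.smul_mul, smul_neg,
        smul_smul_self hε, Matrix.one_mul]
      abel
    have hwx : wᴴ * J * x = 0 := form_symm_zero hε hJ (hid.form hx hw')
    have hwy : wᴴ * J * y = 0 := form_symm_zero hε hJ (hid.swap.form hy hw)
    have h1 := EM.conj (ε := ε) (E_mem_isom hε hJ ec) hG (em_pos hε hJ hid hB hf hw hw' hww hx)
    rw [hGw, hGx] at h1
    have h2 : EM ε J H w (-x) := em_pos hε hJ hid hB hf hw hw' hww (by rw [Matrix.mul_neg, hx])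
    have h3 : EM ε J H w (y * (t * (yᴴ * J * x))) :=
      em_pos hε hJ hid.swap hB.swap (hf.swap hε hJ) hw' hw hww (by rw [← Matrix.mul_assoc, hy])
    have h4 := EM.add hε hJ hA (form_add_zero hwx (form_add_zero (form_mul_zero hwv _)
      (form_mul_zero hwy _))) h1 (EM.add hε hJ hA (form_neg_zero hwx) h2 h3)
    have h5 : v * (yᴴ * J * x) = x + (v * (yᴴ * J * x) + y * (-(t * (yᴴ * J * x)))) +
        (-x + y * (t * (yᴴ * J * x))) := by
      rw [Matrix.mul_neg]; abel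
    rw [h5]
    exact h4
  obtain ⟨x₁, x₂, y₁, y₂, hx1, hx2, hy1, hy2, h5⟩ := hf
  have h6 : v = v * (y₁ᴴ * J * x₁) + v * (y₂ᴴ * J * x₂) := by
    rw [← Matrix.mul_add, h5, Matrix.mul_one]
  rw [h6]
  exact EM.add hε hJ hA (form_mul_zero hwv _) (key x₁ y₁ hx1 hy1) (key x₂ y₂ hx2 hy2)

include hε hJ in
/-- **G1**: isotropic vectors of `V'` -/
theorem G1 (hA : J = A + ε • Aᴴ) (hid : Idem J e e') (hB : Big ε J e e' H)
    (hf : Full2 J e e') {w : Matrix k Unit P} (hw : e * w = 0) (hw' : e' * w = 0)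
    (hww : wᴴ * J * w = 0) (v : Matrix k Unit P) (hwv : wᴴ * J * v = 0) : EM ε J H w v := by
  have h1 : e * (e * v) = e * v := by rw [← Matrix.mul_assoc, hid.ee]
  have h2 : e' * (e' * v) = e' * v := by rw [← Matrix.mul_assoc, hid.ee']
  have h3 : v = e * v + (e' * v + (v - e * v - e' * v)) := by abel
  have hwx : wᴴ * J * (e * v) = 0 := form_symm_zero hε hJ (hid.form h1 hw')
  have hwy : wᴴ * J * (e' * v) = 0 := form_symm_zero hε hJ (hid.swap.form h2 hw)
  have hwz : wᴴ * J * (v - e * v - e' * v) = 0 := by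
    rw [Matrix.mul_sub, Matrix.mul_sub, hwv, hwx, hwy, sub_zero, sub_zero]
  have h4 : e * (v - e * v - e' * v) = 0 := by
    rw [Matrix.mul_sub, Matrix.mul_sub, h1, ← Matrix.mul_assoc e e' v, hid.mul, Matrix.zero_mul,
      sub_self, sub_zero]
  have h5 : e' * (v - e * v - e' * v) = 0 := by
    rw [Matrix.mul_sub, Matrix.mul_sub, h2, ← Matrix.mul_assoc e' e v, hid.mul', Matrix.zero_mul,
      sub_zero, sub_self]
  rw [h3]
  exact EM.add hε hJ hA hwx (em_pos hε hJ hid hB hf hw hw' hww h1)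
    (EM.add hε hJ hA hwy (em_pos hε hJ hid.swap hB.swap (hf.swap hε hJ) hw' hw hww h2)
      (em_mid hε hJ hA hid hB hf hw hw' hww h4 h5 hwz))

/-- enlarging `W` by an isotropic summand of `V'` -/
theorem Idem.merge {σ σ' : Matrix k k P} (hid : Idem J e e') (hσ : Idem J σ σ')
    (h1 : e * σ = 0) (h2 : σ * e = 0) (h3 : e' * σ = 0) (h4 : σ * e' = 0)
    (h5 : e * σ' = 0) (h6 : σ' * e = 0) (h7 : e' * σ' = 0) (h8 : σ' * e' = 0) :
    Idem J (e + σ) (e' + σ') := by
  refine ⟨?_, ?_, ?_, ?_, ?_, ?_⟩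
  · simp only [add_mul, mul_add, hid.ee, hσ.ee, h1, h2, add_zero, zero_add]
  · simp only [add_mul, mul_add, hid.ee', hσ.ee', h7, h8, add_zero, zero_add]
  · simp only [add_mul, mul_add, hid.mul, hσ.mul, h4, h5, add_zero]
  · simp only [add_mul, mul_add, hid.mul', hσ.mul', h3, h6, add_zero]
  · rw [Matrix.conjTranspose_add, Matrix.add_mul, Matrix.mul_add, hid.adj, hσ.adj]
  · rw [Matrix.conjTranspose_add, Matrix.add_mul, Matrix.mul_add, hid.adj', hσ.adj']

include hε hJ in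
theorem merge_pos (hA : J = A + ε • Aᴴ) {σ σ' : Matrix k k P} (hid : Idem J e e')
    (hσ : Idem J σ σ') (h1 : e * σ = 0) (h3 : e' * σ = 0)
    (h6 : σ' * e = 0) (h7 : e' * σ' = 0) (h8 : σ' * e' = 0)
    (hB : Big ε J e e' H) (hf : Full2 J e e') (x v : Matrix k Unit P) (hx : (e + σ) * x = x)
    (hv : (e' + σ') * v = 0) : EM ε J H x v := by
  have a1 : e * (e * x) = e * x := by rw [← Matrix.mul_assoc, hid.ee]
  have a2 : σ * (σ * x) = σ * x := by rw [← Matrix.mul_assoc, hσ.ee]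
  have a3 : e * (σ * x) = 0 := by rw [← Matrix.mul_assoc, h1, Matrix.zero_mul]
  have a4 : e' * (σ * x) = 0 := by rw [← Matrix.mul_assoc, h3, Matrix.zero_mul]
  have a5 : σ' * (e * x) = 0 := by rw [← Matrix.mul_assoc, h6, Matrix.zero_mul]
  have b1 : e' * v = 0 := by
    have := congrArg (e' * ·) hv
    simp only [Matrix.mul_zero] at this
    rw [← Matrix.mul_assoc, Matrix.mul_add, hid.ee', h7, add_zero] at this
    exact this
  have b2 : σ' * v = 0 := by
    have := congrArg (σ' * ·) hv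
    simp only [Matrix.mul_zero] at this
    rw [← Matrix.mul_assoc, Matrix.mul_add, hσ.ee', h8, zero_add] at this
    exact this
  have hxx : (e * x)ᴴ * J * (e * x) = 0 := hid.iso a1 a1
  have hpp : (σ * x)ᴴ * J * (σ * x) = 0 := hσ.iso a2 a2
  have hxp : (e * x)ᴴ * J * (σ * x) = 0 := hid.form a1 a4
  have hxv : (e * x)ᴴ * J * v = 0 := hid.form a1 b1
  have hpv : (σ * x)ᴴ * J * v = 0 := hσ.form a2 b2
  have h9 := EM.add_left hε hJ hxx hpp hxp hxv hpv (hB.pos _ v a1 b1)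
    (G1 hε hJ hA hid hB hf a3 a4 hpp v hpv)
    (fun c => hB.pos _ _ a1 (by rw [← Matrix.mul_assoc, a4, Matrix.zero_mul]))
  rw [← Matrix.add_mul, hx] at h9
  exact h9

include hε hJ in
/-- **merge** -/
theorem Big.merge (hA : J = A + ε • Aᴴ) {σ σ' : Matrix k k P} (hid : Idem J e e')
    (hσ : Idem J σ σ') (h1 : e * σ = 0) (h2 : σ * e = 0) (h3 : e' * σ = 0) (h4 : σ * e' = 0)
    (h5 : e * σ' = 0) (h6 : σ' * e = 0) (h7 : e' * σ' = 0) (h8 : σ' * e' = 0)
    (hB : Big ε J e e' H) (hf : Full2 J e e') : Big ε J (e + σ) (e' + σ') H :=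
  ⟨merge_pos hε hJ hA hid hσ h1 h3 h6 h7 h8 hB hf,
    merge_pos hε hJ hA hid.swap hσ.swap h7 h5 h4 h1 h2 hB.swap (hf.swap hε hJ)⟩

include hε hJ in
/-- the input of `G2` -/
theorem em_input (hA : J = A + ε • Aᴴ) (hid : Idem J e e') (hB : Big ε J e e' H)
    {p z u : Matrix k Unit P} {s μ : Matrix Unit Unit P} (hp : e * p = p) (hz : e' * z = z)
    (hpz : pᴴ * J * z = 0) (hu : e * u = u) (hs : s + ε • sᴴ = 0) :
    EM ε J H p (z * s * (zᴴ * J * u) * μ) := by
  have ec : EC ε J z 0 s := ⟨hid.swap.iso hz hz, by rw [Matrix.mul_zero], tt_zero hs⟩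
  have hG : E hε hJ ec ∈ H := hB.neg z 0 hz (Matrix.mul_zero _) _ s ec rfl
  have hGp : (E hε hJ ec).val * p = p := by
    rw [E_val, ev_eq, op_zero_left, op_zero_right, smul_zero, add_zero, sub_zero, Matrix.sub_mul,
      Matrix.one_mul, op_mulVec, form_symm_zero hε hJ hpz, Matrix.mul_zero, Matrix.mul_zero,
      sub_zero]
  have hGu : (E hε hJ ec).val * (-(u * μ)) = -(u * μ) + z * s * (zᴴ * J * u) * μ := by
    rw [E_val, ev_eq, op_zero_left, op_zero_right, smul_zero, add_zero, sub_zero, Matrix.sub_mul,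
      Matrix.one_mul, op_mulVec, Matrix.mul_neg, ← Matrix.mul_assoc (zᴴ * J) u μ]
    simp only [Matrix.mul_assoc, Matrix.mul_neg, sub_neg_eq_add]
  have hu' : e * (u * μ) = u * μ := by rw [← Matrix.mul_assoc, hu]
  have hu'' : e * (-(u * μ)) = -(u * μ) := by rw [Matrix.mul_neg, hu']
  have h1 := EM.conj (ε := ε) (E_mem_isom hε hJ ec) hG (hB.pos p (-(u * μ)) hp (hid.kill hu''))
  rw [hGp, hGu] at h1
  have hpu : pᴴ * J * (u * μ) = 0 := hid.iso hp hu'
  have hpz' : pᴴ * J * (z * s * (zᴴ * J * u) * μ) = 0 := by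
    simp only [← Matrix.mul_assoc] at hpz ⊢
    rw [hpz]
    simp only [Matrix.zero_mul]
  have h2 := EM.add hε hJ hA (form_add_zero (form_neg_zero hpu) hpz') h1
    (hB.pos p (u * μ) hp (hid.kill hu'))
  have h3 : z * s * (zᴴ * J * u) * μ = -(u * μ) + z * s * (zᴴ * J * u) * μ + u * μ := by abel
  rw [h3]
  exact h2

include hε hJ in
/-- **G2** -/
theorem G2 (hA : J = A + ε • Aᴴ) (hid : Idem J e e') (hB : Big ε J e e' H)
    {p x₁ x₂ y₁ y₂ : Matrix k Unit P} (hp : e * p = p) (hx1 : e * x₁ = x₁) (hx2 : e * x₂ = x₂)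
    (hy1 : e' * y₁ = y₁) (hy2 : e' * y₂ = y₂) (hp1 : pᴴ * J * y₁ = 0) (hp2 : pᴴ * J * y₂ = 0)
    (h5 : y₁ᴴ * J * x₁ + y₂ᴴ * J * x₂ = 1)
    (i1 : ∀ μ : Matrix Unit Unit P, EM ε J H p (y₁ * μ))
    (i2 : ∀ μ : Matrix Unit Unit P, EM ε J H p (y₂ * μ)) (v : Matrix k Unit P)
    (hpv : pᴴ * J * v = 0) : EM ε J H p v := by
  have key : ∀ v x y : Matrix k Unit P, e' * v = v → pᴴ * J * v = 0 → e * x = x → e' * y = y →
      pᴴ * J * y = 0 → (∀ μ : Matrix Unit Unit P, EM ε J H p (y * μ)) →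
      EM ε J H p (v * (yᴴ * J * x)) := by
    intro v x y hv hpv hx hy hpy i
    have ec : EC ε J v y 0 := ⟨hid.swap.iso hv hv, hid.swap.iso hv hy, by
      rw [hid.swap.iso hy hy, Matrix.conjTranspose_zero, smul_zero, add_zero]⟩
    have hG : E hε hJ ec ∈ H := hB.neg v y hv (hid.kill' hy) _ 0 ec rfl
    have hGp : (E hε hJ ec).val * p = p := by
      rw [E_val, ev_eq, op_zero, sub_zero, Matrix.sub_mul, Matrix.add_mul, Matrix.one_mul,
        Matrix.smul_mul, op_mulVec, op_mulVec, form_symm_zero hε hJ hpv,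
        form_symm_zero hε hJ hpy]
      simp only [Matrix.mul_zero, smul_zero, add_zero, sub_zero]
    have hGx : (E hε hJ ec).val * x = x + (v * (yᴴ * J * x) + y * (-(ε • (vᴴ * J * x)))) := by
      rw [E_val, ev_eq, op_zero, sub_zero, Matrix.sub_mul, Matrix.add_mul, Matrix.one_mul,
        Matrix.smul_mul, op_mulVec, op_mulVec]
      simp only [Matrix.one_mul, Matrix.mul_neg, Matrix.mul_smul]
      abel
    have h1 := EM.conj (ε := ε) (E_mem_isom hε hJ ec) hG (hB.pos p x hp (hid.kill hx))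
    rw [hGp, hGx] at h1
    have hpx : pᴴ * J * x = 0 := hid.iso hp hx
    have hx' : e * (-x) = -x := by rw [Matrix.mul_neg, hx]
    have h4 := EM.add hε hJ hA (form_add_zero hpx (form_add_zero (form_mul_zero hpv _)
      (form_mul_zero hpy _))) h1 (EM.add hε hJ hA (form_neg_zero hpx)
        (hB.pos p (-x) hp (hid.kill hx')) (i (ε • (vᴴ * J * x))))
    have h6 : v * (yᴴ * J * x) = x + (v * (yᴴ * J * x) + y * (-(ε • (vᴴ * J * x)))) +
        (-x + y * (ε • (vᴴ * J * x))) := by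
      rw [Matrix.mul_neg]; abel
    rw [h6]
    exact h4
  have h2 : e' * (e' * v) = e' * v := by rw [← Matrix.mul_assoc, hid.ee']
  have h7 : e' * (v - e' * v) = 0 := by rw [Matrix.mul_sub, h2, sub_self]
  have h8 : pᴴ * J * (v - e' * v) = 0 := hid.form hp h7
  have h9 : pᴴ * J * (e' * v) = 0 := by
    rw [Matrix.mul_sub, hpv, zero_sub, neg_eq_zero] at h8
    exact h8
  have h10 : v = (v - e' * v) + (e' * v * (y₁ᴴ * J * x₁) + e' * v * (y₂ᴴ * J * x₂)) := by
    rw [← Matrix.mul_add, h5, Matrix.mul_one]; abel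
  rw [h10]
  exact EM.add hε hJ hA h8 (hB.pos p _ hp h7) (EM.add hε hJ hA (form_mul_zero h9 _)
    (key _ x₁ y₁ h2 h9 hx1 hy1 hp1 i1) (key _ x₂ y₂ h2 h9 hx2 hy2 hp2 i2))

end G

end BWP
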