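import Pool.Agent.BWP.Defs
import Pool.Agent.BW.APLat
import Pool.Agent.BWC.Stab

/-!
# Isotropic vectors and idempotents (row A2)
-/

set_option autoImplicit false

namespace BWP

open Matrix
open BW hiding star
open BWC

section any

variable {k P : Type*} [DecidableEq k] [Fintype k] [Ring P] [StarRing P]

theorem conj_J {ε : ℤ} (hε : ε * ε = 1) {J A : Matrix k k P} (hJ : J = A + ε • Aᴴ) :
    Jᴴ = ε • J := by
  rw [hJ, Matrix.conjTranspose_add, Matrix.conjTranspose_zsmul, Matrix.conjTranspose_conjTranspose,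
    smul_add, smul_smul, hε, one_smul, add_comm]

theorem conj_J' {ε : ℤ} (hε : ε * ε = 1) {J J' : Matrix k k P} (hJ : Jᴴ = ε • J)
    (hJJ : J * J' = 1) : J'ᴴ * J = ε • 1 := by
  have h1 : J'ᴴ * Jᴴ = 1 := by rw [← Matrix.conjTranspose_mul, hJJ, Matrix.conjTranspose_one]
  rw [hJ, Matrix.mul_smul] at h1
  rw [← h1, smul_smul, hε, one_smul]

theorem adj_swap {ε : ℤ} (hε : ε * ε = 1) {J : Matrix k k P} (hJ : Jᴴ = ε • J)
    {π π' : Matrix k k P} (hadj : πᴴ * J = J * π') : π'ᴴ * J = J * π := by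
  have h1 := congrArg Matrix.conjTranspose hadj
  rw [Matrix.conjTranspose_mul, Matrix.conjTranspose_mul, Matrix.conjTranspose_conjTranspose,
    hJ, Matrix.smul_mul, Matrix.mul_smul] at h1
  have h2 := congrArg (fun X => ε • X) h1
  simp only [smul_smul, hε, one_smul] at h2
  exact h2.symm

theorem cancel_J {J J' : Matrix k k P} (hJJ' : J' * J = 1) {l : Type*} [Fintype l]
    {X Y : Matrix k l P} (h : J * X = J * Y) : X = Y := by
  rw [← Matrix.one_mul X, ← hJJ', Matrix.mul_assoc, h, ← Matrix.mul_assoc, hJJ', Matrix.one_mul]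

/-- (A7) the isotropic correction of an idempotent (any ring): `Y + Yᴴ`-splitting of the form -/
theorem iso_idem {ε : ℤ}
    (hε : ε * ε = 1) {J J' A π π' : Matrix k k P} (hJ : J = A + ε • Aᴴ) (hJJ : J * J' = 1)
    (hJJ' : J' * J = 1) (hπ : π * π = π) (hadj : πᴴ * J = J * π') (h0 : π' * π = 0) :
    ∃ σ σ' : Matrix k k P, Idem J σ σ' ∧ (∀ x : Matrix k Unit P, π * x = x → σ * x = x) ∧
      (∀ x : Matrix k Unit P, σ * x = x → π * x = x) ∧ (∃ X, σ = π * X) ∧
      (∃ Y Z, σ = Y * π + Z * π') := by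
  have hJc := conj_J hε hJ
  have hadj' := adj_swap hε hJc hadj
  have hπ' : π' * π' = π' := by
    apply cancel_J hJJ'
    rw [← Matrix.mul_assoc, ← hadj, Matrix.mul_assoc, ← hadj, ← Matrix.mul_assoc,
      ← Matrix.conjTranspose_mul, hπ]
  obtain ⟨B, hB⟩ : ∃ B, B = J' * A := ⟨_, rfl⟩
  have hJB : J * B = A := by rw [hB, ← Matrix.mul_assoc, hJJ, Matrix.one_mul]
  obtain ⟨σ, hσ⟩ : ∃ σ, σ = π * (1 - B * π') := ⟨_, rfl⟩
  obtain ⟨σ', hσ'⟩ : ∃ σ', σ' = π' - π * (1 - B) * π' := ⟨_, rfl⟩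
  have hσπ : σ * π = π := by
    rw [hσ, Matrix.mul_assoc, Matrix.sub_mul, Matrix.one_mul, Matrix.mul_assoc, h0,
      Matrix.mul_zero, sub_zero, hπ]
  have hσσ : σ * σ = σ := by
    calc σ * σ = σ * π * (1 - B * π') := by rw [Matrix.mul_assoc, ← hσ]
      _ = σ := by rw [hσπ, hσ]
  have hπσ : π * σ = σ := by rw [hσ, ← Matrix.mul_assoc, hπ]
  have e1 : σ' * σ = 0 := by
    have : σ' * π = 0 := by
      rw [hσ', Matrix.sub_mul, Matrix.mul_assoc _ π' π, h0, Matrix.mul_zero, sub_zero]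
    rw [hσ, ← Matrix.mul_assoc, this, Matrix.zero_mul]
  have e2 : σ * σ' = 0 := by
    have h3 : σ * π' = π * (1 - B) * π' := by
      rw [hσ, Matrix.mul_assoc, Matrix.mul_assoc, Matrix.sub_mul, Matrix.sub_mul,
        Matrix.mul_assoc B, hπ']
    have h4 : σ * (π * (1 - B) * π') = π * (1 - B) * π' := by
      rw [← Matrix.mul_assoc, ← Matrix.mul_assoc, hσπ]
    rw [hσ', Matrix.mul_sub, h3, h4, sub_self]
  have hadjσ : σᴴ * J = J * σ' := by
    have h5 : J - A = ε • Aᴴ := by rw [hJ]; abel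
    calc σᴴ * J = (1 - B * π')ᴴ * (πᴴ * J) := by
          rw [hσ, Matrix.conjTranspose_mul, Matrix.mul_assoc]
      _ = J * π' - π'ᴴ * (Aᴴ * (J'ᴴ * J)) * π' := by
          rw [hadj, Matrix.conjTranspose_sub, Matrix.conjTranspose_one, Matrix.sub_mul,
            Matrix.one_mul, Matrix.conjTranspose_mul, hB, Matrix.conjTranspose_mul]
          simp only [Matrix.mul_assoc]
      _ = J * π' - π'ᴴ * (ε • Aᴴ) * π' := by
          rw [conj_J' hε hJc hJJ, Matrix.mul_smul, Matrix.mul_one]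
      _ = J * π' - (π'ᴴ * J) * (1 - B) * π' := by
          rw [Matrix.mul_assoc π'ᴴ J, Matrix.mul_sub J, Matrix.mul_one, hJB, h5]
      _ = J * σ' := by
          rw [hadj', hσ', Matrix.mul_sub J π']
          simp only [Matrix.mul_assoc]
  have hadjσ' := adj_swap hε hJc hadjσ
  have hσ'σ' : σ' * σ' = σ' := by
    apply cancel_J hJJ'
    rw [← Matrix.mul_assoc, ← hadjσ, Matrix.mul_assoc, ← hadjσ, ← Matrix.mul_assoc,
      ← Matrix.conjTranspose_mul, hσσ]
  refine ⟨σ, σ', ⟨hσσ, hσ'σ', e2, e1, hadjσ, hadjσ'⟩, fun x hx => ?_, fun x hx => ?_, ⟨_, hσ⟩,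
    ⟨1, -(π * B), ?_⟩⟩
  · rw [← hx, ← Matrix.mul_assoc, hσπ]
  · rw [← hx, ← Matrix.mul_assoc, hπσ]
  · rw [hσ, Matrix.mul_sub, Matrix.mul_one, Matrix.one_mul, Matrix.neg_mul, ← sub_eq_add_neg,
      Matrix.mul_assoc]

/-- a column of a matrix -/
def colOf (e : Matrix k k P) (j : k) : Matrix k Unit P := Matrix.of fun i _ => e i j

theorem mul_colOf (a e : Matrix k k P) (j : k) : a * colOf e j = colOf (a * e) j := by
  ext i u
  simp [colOf, Matrix.mul_apply]

theorem conj_colOf (a e : Matrix k k P) (x : Matrix k Unit P) (j : k) (u v : Unit) :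
    ((colOf e j)ᴴ * a * x) u v = (eᴴ * a * x) j v := by
  simp [colOf, Matrix.mul_apply, Matrix.conjTranspose_apply]

theorem conj_eq_zero {a e : Matrix k k P} {x : Matrix k Unit P}
    (h : ∀ j, (colOf e j)ᴴ * a * x = 0) : eᴴ * a * x = 0 := by
  ext j v
  have := congrFun (congrFun (h j) ()) v
  rw [conj_colOf] at this
  simpa using this

theorem conj_eq_zero' {a e : Matrix k k P}
    (h : ∀ i j, (colOf e i)ᴴ * a * colOf e j = 0) : eᴴ * a * e = 0 := by
  ext i j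
  have h1 := congrFun (congrFun (h i j) ()) ()
  rw [conj_colOf, mul_colOf] at h1
  simpa [colOf] using h1

end any

section dom

variable {k Λ : Type*} [DecidableEq k] [Fintype k] [Ring Λ] [StarRing Λ] [NoZeroDivisors Λ]

theorem mul_eq_zero1 {a b : Matrix Unit Unit Λ} (h : a * b = 0) : a = 0 ∨ b = 0 := by
  have h1 := congrFun (congrFun h ()) ()
  simp only [Matrix.mul_apply, Finset.univ_unique, PUnit.default_eq_unit, Finset.sum_singleton,
    Matrix.zero_apply, mul_eq_zero] at h1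
  rcases h1 with h1 | h1
  · left; ext i j; exact h1
  · right; ext i j; exact h1

theorem conj_ne_zero {a : Matrix Unit Unit Λ} (h : a ≠ 0) : aᴴ ≠ 0 := by
  intro h1
  apply h
  rw [← Matrix.conjTranspose_conjTranspose a, h1, Matrix.conjTranspose_zero]

/-- the vectors of the image of a rank one idempotent are proportional -/
theorem prop_R1 {e : Matrix k k Λ} (h1 : R1 e) {w y : Matrix k Unit Λ} (hw : e * w = w)
    (hw0 : w ≠ 0) (hy : e * y = y) :
    ∃ a b : Matrix Unit Unit Λ, a ≠ 0 ∧ y * a = w * b := by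
  obtain ⟨i, hi⟩ : ∃ i, w i () ≠ 0 := by
    by_contra hc
    push Not at hc
    apply hw0
    ext i u
    exact hc i
  set φ : Matrix Unit k Λ := Matrix.of fun _ j => if j = i then 1 else 0 with hφ
  have h2 : φ * w ≠ 0 := by
    intro h
    have h3 := congrFun (congrFun h ()) ()
    rw [hφ, Matrix.mul_apply] at h3
    simp at h3
    exact hi h3
  refine ⟨(φ * w)ᴴ * (φ * w), (φ * w)ᴴ * (φ * y), fun h => ?_, h1 w y φ hw hy⟩
  rcases mul_eq_zero1 h with h | h
  · exact conj_ne_zero h2 h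
  · exact h2 h

theorem ortho_left {e a : Matrix k k Λ} (h1 : R1 e) {w y x : Matrix k Unit Λ} (hw : e * w = w)
    (hw0 : w ≠ 0) (hy : e * y = y) (hx : wᴴ * a * x = 0) : yᴴ * a * x = 0 := by
  obtain ⟨c, b, hc, h⟩ := prop_R1 h1 hw hw0 hy
  have h2 : cᴴ * (yᴴ * a * x) = 0 := by
    calc cᴴ * (yᴴ * a * x) = (y * c)ᴴ * a * x := by
          rw [Matrix.conjTranspose_mul]; simp only [Matrix.mul_assoc]
      _ = bᴴ * (wᴴ * a * x) := by
          rw [h, Matrix.conjTranspose_mul]; simp only [Matrix.mul_assoc]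
      _ = 0 := by rw [hx, Matrix.mul_zero]
  rcases mul_eq_zero1 h2 with h3 | h3
  · exact absurd h3 (conj_ne_zero hc)
  · exact h3

theorem ortho_right {e a : Matrix k k Λ} (h1 : R1 e) {w y x : Matrix k Unit Λ} (hw : e * w = w)
    (hw0 : w ≠ 0) (hy : e * y = y) (hx : xᴴ * a * w = 0) : xᴴ * a * y = 0 := by
  obtain ⟨c, b, hc, h⟩ := prop_R1 h1 hw hw0 hy
  have h2 : (xᴴ * a * y) * c = 0 := by
    calc (xᴴ * a * y) * c = xᴴ * a * (y * c) := by simp only [Matrix.mul_assoc]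
      _ = (xᴴ * a * w) * b := by rw [h]; simp only [Matrix.mul_assoc]
      _ = 0 := by rw [hx, Matrix.zero_mul]
  rcases mul_eq_zero1 h2 with h3 | h3
  · exact h3
  · exact absurd h3 hc

end dom

section Lag

/-- a coordinate vector -/
def sgl {k P : Type*} [DecidableEq k] [Ring P] (i : k) : Matrix k Unit P :=
  Matrix.of fun j _ => if j = i then 1 else 0

variable {N : ℕ} {R Λ n r : Type*} [DecidableEq n] [Fintype n] [DecidableEq r] [Fintype r]
  [CommRing R] [IsLocalization.Away (N : ℤ) R] [Ring Λ] [StarRing Λ] [Algebra R Λ]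
  [Module.Free R Λ] [Module.Finite R Λ] (hN : N ≠ 0) (Q : QAlg N R Λ)
  (hQ : ∀ x, star x = Q.conj x) [NoZeroDivisors Λ]

omit [NoZeroDivisors Λ] in
theorem sgl_form {k : Type*} [DecidableEq k] [Fintype k] (J : Matrix k k Λ) (i j : k) :
    (sgl i : Matrix k Unit Λ)ᴴ * J * (sgl j : Matrix k Unit Λ) = Matrix.of fun _ _ => J i j := by
  ext u v
  simp [sgl, Matrix.mul_apply, Matrix.conjTranspose_apply, apply_ite star]

omit [NoZeroDivisors Λ] in
theorem sgl_self {k : Type*} [DecidableEq k] [Fintype k] (i : k) :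
    (sgl i : Matrix k Unit Λ)ᴴ * (sgl i : Matrix k Unit Λ) = 1 := by
  have h := sgl_form (1 : Matrix k k Λ) i i
  rw [Matrix.mul_one] at h
  rw [h]
  ext u v
  simp

omit [NoZeroDivisors Λ] in
theorem sgl_ne {k : Type*} [DecidableEq k] [Fintype k] {i j : k} (hij : i ≠ j) :
    (sgl i : Matrix k Unit Λ)ᴴ * (sgl j : Matrix k Unit Λ) = 0 := by
  have h := sgl_form (1 : Matrix k k Λ) i j
  rw [Matrix.mul_one] at h
  rw [h]
  ext u v
  simp [Matrix.one_apply_ne hij]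

omit [NoZeroDivisors Λ] in
/-- the projection of an isotropic vector orthogonal to `W` is isotropic -/
theorem iso_proj {k : Type*} [DecidableEq k] [Fintype k] {J e e' : Matrix k k Λ}
    (h : Idem J e e') {x : Matrix k Unit Λ} (hx : e' * x = 0) (hxx : xᴴ * J * x = 0) :
    e * (x - e * x) = 0 ∧ e' * (x - e * x) = 0 ∧ (x - e * x)ᴴ * J * (x - e * x) = 0 := by
  refine ⟨?_, ?_, ?_⟩
  · rw [Matrix.mul_sub, ← Matrix.mul_assoc, h.ee, sub_self]
  · rw [Matrix.mul_sub, ← Matrix.mul_assoc, h.mul', Matrix.zero_mul, hx, sub_zero]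
  · have h1 : (e * x)ᴴ * J * x = 0 := by
      rw [Matrix.conjTranspose_mul, Matrix.mul_assoc xᴴ, h.adj, Matrix.mul_assoc,
        Matrix.mul_assoc, hx, Matrix.mul_zero, Matrix.mul_zero]
    have h2 : (e * x)ᴴ * J * (e * x) = 0 := by
      rw [Matrix.conjTranspose_mul, Matrix.mul_assoc xᴴ, h.adj, Matrix.mul_assoc,
        Matrix.mul_assoc, ← Matrix.mul_assoc e', h.mul', Matrix.zero_mul, Matrix.mul_zero,
        Matrix.mul_zero]
    have h3 : xᴴ * J * (e * x) = 0 := by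
      rw [← Matrix.mul_assoc, Matrix.mul_assoc xᴴ, ← h.adj', ← Matrix.mul_assoc,
        ← Matrix.conjTranspose_mul, hx, Matrix.conjTranspose_zero, Matrix.zero_mul,
        Matrix.zero_mul]
    rw [Matrix.conjTranspose_sub, Matrix.sub_mul, Matrix.sub_mul, Matrix.mul_sub,
      Matrix.mul_sub, h1, h2, h3, hxx]
    simp

/-- a vector orthogonal to one vector of a rank one `W` is killed by `e'` -/
theorem kill_of_ortho {k : Type*} [DecidableEq k] [Fintype k] {J J' e e' : Matrix k k Λ}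
    (hJJ' : J' * J = 1) (h : Idem J e e') (h1 : R1 e) {w x : Matrix k Unit Λ} (hw : e * w = w)
    (hw0 : w ≠ 0) (hx : wᴴ * J * x = 0) : e' * x = 0 := by
  apply cancel_J hJJ'
  rw [Matrix.mul_zero, ← Matrix.mul_assoc, ← h.adj]
  apply conj_eq_zero
  intro j
  exact ortho_left h1 hw hw0 (by rw [mul_colOf, h.ee]) hx

/-- (A8) the rank one summand of an isotropic vector of `V'` -/
theorem exists_sigma {k : Type*} [DecidableEq k] [Fintype k] {ε : ℤ} (hε : ε * ε = 1)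
    (rank_one : ∀ (e : Matrix k k Λ) (_ : e * e = e) (x : Matrix k Unit Λ) (_ : e * x = x)
      (_ : x ≠ 0), ∃ π : Matrix k k Λ, π * π = π ∧ e * π = π ∧ π * e = π ∧ π * x = x ∧ R1 π)
    {J J' A e e' : Matrix k k Λ} (hJ : J = A + ε • Aᴴ) (hJJ : J * J' = 1) (hJJ' : J' * J = 1)
    (h : Idem J e e') (x : Matrix k Unit Λ) (hx : x ≠ 0) (hex : e * x = 0) (hex' : e' * x = 0)
    (hxx : xᴴ * J * x = 0) : ∃ σ σ' : Matrix k k Λ, Idem J σ σ' ∧ σ * x = x ∧ R1 σ ∧
      e * σ = 0 ∧ σ * e = 0 ∧ e' * σ = 0 ∧ σ * e' = 0 ∧ e * σ' = 0 ∧ σ' * e = 0 ∧ e' * σ' = 0 ∧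
      σ' * e' = 0 := by
  have hJc := conj_J hε hJ
  obtain ⟨p, hp⟩ : ∃ p, p = 1 - e - e' := ⟨_, rfl⟩
  have hep : e * p = 0 := by
    rw [hp, Matrix.mul_sub, Matrix.mul_sub, Matrix.mul_one, h.ee, h.mul, sub_self, sub_zero]
  have hep' : e' * p = 0 := by
    rw [hp, Matrix.mul_sub, Matrix.mul_sub, Matrix.mul_one, h.ee', h.mul', sub_zero, sub_self]
  have hpe : p * e = 0 := by
    rw [hp, Matrix.sub_mul, Matrix.sub_mul, Matrix.one_mul, h.ee, h.mul', sub_self, sub_zero]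
  have hpe' : p * e' = 0 := by
    rw [hp, Matrix.sub_mul, Matrix.sub_mul, Matrix.one_mul, h.ee', h.mul, sub_zero, sub_self]
  have hpp : p * p = p := by
    calc p * p = (1 - e - e') * p := by rw [← hp]
      _ = p := by
        rw [Matrix.sub_mul, Matrix.sub_mul, Matrix.one_mul, hep, hep', sub_zero, sub_zero]
  have hpx : p * x = x := by
    rw [hp, Matrix.sub_mul, Matrix.sub_mul, Matrix.one_mul, hex, hex', sub_zero, sub_zero]
  obtain ⟨π, hππ, hpπ, hπp, hπx, hR⟩ := rank_one p hpp x hpx hx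
  obtain ⟨π', hπ'⟩ : ∃ π', π' = J' * πᴴ * J := ⟨_, rfl⟩
  have hadj : πᴴ * J = J * π' := by
    rw [hπ', ← Matrix.mul_assoc, ← Matrix.mul_assoc, hJJ, Matrix.one_mul]
  have h0 : π' * π = 0 := by
    have h1 : πᴴ * J * π = 0 := by
      apply conj_eq_zero'
      intro i j
      have hi : π * colOf π i = colOf π i := by rw [mul_colOf, hππ]
      have hj : π * colOf π j = colOf π j := by rw [mul_colOf, hππ]
      exact ortho_left hR hπx hx hi (ortho_right hR hπx hx hj hxx)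
    rw [hπ', Matrix.mul_assoc, Matrix.mul_assoc, ← Matrix.mul_assoc πᴴ, h1, Matrix.mul_zero]
  obtain ⟨σ, σ', hI, hσ1, hσ2, ⟨X, hX⟩, ⟨Y, Z, hYZ⟩⟩ := iso_idem hε hJ hJJ hJJ' hππ hadj h0
  have hadj' := adj_swap hε hJc hadj
  have heπ : e * π = 0 := by rw [← hpπ, ← Matrix.mul_assoc, hep, Matrix.zero_mul]
  have heπ' : e' * π = 0 := by rw [← hpπ, ← Matrix.mul_assoc, hep', Matrix.zero_mul]
  have hπe : π * e = 0 := by rw [← hπp, Matrix.mul_assoc, hpe, Matrix.mul_zero]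
  have hπe' : π * e' = 0 := by rw [← hπp, Matrix.mul_assoc, hpe', Matrix.mul_zero]
  have hσe1 : e * σ = 0 := by rw [hX, ← Matrix.mul_assoc, heπ, Matrix.zero_mul]
  have hσe2 : e' * σ = 0 := by rw [hX, ← Matrix.mul_assoc, heπ', Matrix.zero_mul]
  -- the adjoint of a zero product
  have key : ∀ {a a' b b' : Matrix k k Λ}, aᴴ * J = J * a' → bᴴ * J = J * b' → a * b = 0 →
      b' * a' = 0 := by
    intro a a' b b' ha hb hab
    apply cancel_J hJJ'
    rw [← Matrix.mul_assoc, ← hb, Matrix.mul_assoc, ← ha, ← Matrix.mul_assoc,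
      ← Matrix.conjTranspose_mul, hab, Matrix.conjTranspose_zero, Matrix.zero_mul,
      Matrix.mul_zero]
  have hπ'e : π' * e = 0 := key h.adj' hadj heπ'
  have hπ'e' : π' * e' = 0 := key h.adj hadj heπ
  have hσe3 : σ * e = 0 := by
    rw [hYZ, Matrix.add_mul, Matrix.mul_assoc, Matrix.mul_assoc, hπe, hπ'e, Matrix.mul_zero,
      Matrix.mul_zero, add_zero]
  have hσe4 : σ * e' = 0 := by
    rw [hYZ, Matrix.add_mul, Matrix.mul_assoc, Matrix.mul_assoc, hπe', hπ'e', Matrix.mul_zero,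
      Matrix.mul_zero, add_zero]
  refine ⟨σ, σ', hI, hσ1 x hπx, fun z y φ hz hy => hR z y φ (hσ2 z hz) (hσ2 y hy), hσe1, hσe3,
    hσe2, hσe4, key hI.adj h.adj' hσe4, key h.adj' hI.adj hσe2, key hI.adj h.adj hσe3,
    key h.adj hI.adj hσe1⟩

include hQ in
/-- (A6) if `W` has rank one then `V'` contains an isotropic vector -/
theorem exists_iso (hn : 2 ≤ Fintype.card n) {ε : ℤ} (hε : ε * ε = 1) {D D' : Matrix r r Λ}
    (hD : Dᴴ = ε • D) (hDD : D * D' = 1) (hDD' : D' * D = 1)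
    {e e' : Matrix ((n ⊕ n) ⊕ r) ((n ⊕ n) ⊕ r) Λ} (h : Idem (JG ε n D) e e') (h0 : e ≠ 0)
    (h1 : R1 e) : ∃ x : Matrix ((n ⊕ n) ⊕ r) Unit Λ, x ≠ 0 ∧ e * x = 0 ∧ e' * x = 0 ∧
      xᴴ * JG ε n D * x = 0 := by
  obtain ⟨J', hJ'⟩ : ∃ J', J' * JG ε n D = 1 := by
    refine ⟨Matrix.fromBlocks (ε • BWC.J ε n Λ) 0 0 D', ?_⟩
    rw [JG, Matrix.fromBlocks_multiply, Matrix.smul_mul, J_mul_J, hDD', smul_smul, hε, one_smul]
    simp
  -- a vector of `W`
  obtain ⟨i₀, j₀, hij⟩ : ∃ i j, e i j ≠ 0 := by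
    by_contra hc
    push Not at hc
    exact h0 (by ext i j; exact hc i j)
  have hnt : Nontrivial Λ := ⟨e i₀ j₀, 0, hij⟩
  obtain ⟨w, hw⟩ : ∃ w, w = colOf e j₀ := ⟨_, rfl⟩
  have hew : e * w = w := by rw [hw, mul_colOf, h.ee]
  have hw0 : w ≠ 0 := by
    intro hc
    apply hij
    have := congrFun (congrFun hc i₀) ()
    rw [hw] at this
    exact this
  -- two isotropic orthogonal basis vectors
  obtain ⟨a, b, hab⟩ := Fintype.one_lt_card_iff.mp (by omega : 1 < Fintype.card n)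
  obtain ⟨E₀, hE₀⟩ : ∃ E : Matrix ((n ⊕ n) ⊕ r) Unit Λ, E = sgl (Sum.inl (Sum.inl a)) :=
    ⟨_, rfl⟩
  obtain ⟨E₁, hE₁⟩ : ∃ E : Matrix ((n ⊕ n) ⊕ r) Unit Λ, E = sgl (Sum.inl (Sum.inl b)) :=
    ⟨_, rfl⟩
  have hz : ∀ c d : n, JG ε n D (Sum.inl (Sum.inl c)) (Sum.inl (Sum.inl d)) = 0 := by
    intro c d
    simp [JG, BWC.J]
  have f : ∀ c d : n, (sgl (Sum.inl (Sum.inl c)) : Matrix ((n ⊕ n) ⊕ r) Unit Λ)ᴴ * JG ε n D *
      (sgl (Sum.inl (Sum.inl d)) : Matrix ((n ⊕ n) ⊕ r) Unit Λ) = 0 := by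
    intro c d
    rw [sgl_form]
    ext u v
    simp [hz]
  have f00 : E₀ᴴ * JG ε n D * E₀ = 0 := by rw [hE₀]; exact f a a
  have f01 : E₀ᴴ * JG ε n D * E₁ = 0 := by rw [hE₀, hE₁]; exact f a b
  have f10 : E₁ᴴ * JG ε n D * E₀ = 0 := by rw [hE₀, hE₁]; exact f b a
  have f11 : E₁ᴴ * JG ε n D * E₁ = 0 := by rw [hE₁]; exact f b b
  have g00 : E₀ᴴ * E₀ = 1 := by rw [hE₀]; exact sgl_self _
  have g11 : E₁ᴴ * E₁ = 1 := by rw [hE₁]; exact sgl_self _
  have g01 : E₀ᴴ * E₁ = 0 := by rw [hE₀, hE₁]; exact sgl_ne (by simpa using hab)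
  have g10 : E₁ᴴ * E₀ = 0 := by rw [hE₀, hE₁]; exact sgl_ne (by simpa using hab.symm)
  -- the combination orthogonal to `w`
  obtain ⟨α, β, hαβ, hp⟩ : ∃ α β : Matrix Unit Unit Λ, (α ≠ 0 ∨ β ≠ 0) ∧
      wᴴ * JG ε n D * E₀ * α + wᴴ * JG ε n D * E₁ * β = 0 := by
    by_cases hp : wᴴ * JG ε n D * E₀ = 0
    · refine ⟨1, 0, Or.inl one_ne_zero, ?_⟩
      rw [hp, Matrix.zero_mul, Matrix.mul_zero, add_zero]
    · generalize wᴴ * JG ε n D * E₀ = p at hp
      generalize wᴴ * JG ε n D * E₁ = q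
      refine ⟨-(pᴴ * q), pᴴ * p, Or.inr fun hc => ?_, ?_⟩
      · rcases mul_eq_zero1 hc with hc | hc
        · exact conj_ne_zero hp hc
        · exact hp hc
      · ext u v
        have e1 : p () () * star (p () ()) = algebraMap R Λ (Q.n (p () ())) := by
          rw [hQ, Q.mul_conj]
        have e2 : star (p () ()) * p () () = algebraMap R Λ (Q.n (p () ())) := by
          rw [hQ, Q.conj_mul_self]
        have e3 : p () () * (star (p () ()) * q () ()) = q () () * (star (p () ()) * p () ()) := by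
          rw [← mul_assoc, e1, e2, Algebra.commutes]
        simp only [Matrix.mul_neg, Matrix.add_apply, Matrix.neg_apply, Matrix.mul_apply,
          Finset.univ_unique, PUnit.default_eq_unit, Finset.sum_singleton,
          Matrix.conjTranspose_apply, Matrix.zero_apply, e3]
        exact neg_add_cancel _
  obtain ⟨x, hx⟩ : ∃ x, x = E₀ * α + E₁ * β := ⟨_, rfl⟩
  have hx0 : x ≠ 0 := by
    intro hc
    rw [hx] at hc
    have c1 := congrArg (fun X => E₀ᴴ * X) hc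
    have c2 := congrArg (fun X => E₁ᴴ * X) hc
    simp only [Matrix.mul_add, ← Matrix.mul_assoc, g00, g01, g10, g11, Matrix.one_mul,
      Matrix.zero_mul, Matrix.mul_zero, add_zero, zero_add] at c1 c2
    rcases hαβ with h | h
    · exact h c1
    · exact h c2
  have hxx : xᴴ * JG ε n D * x = 0 := by
    rw [hx, Matrix.conjTranspose_add, Matrix.conjTranspose_mul, Matrix.conjTranspose_mul,
      Matrix.add_mul, Matrix.add_mul, Matrix.mul_add, Matrix.mul_add]
    have t : ∀ (γ δ : Matrix Unit Unit Λ) (X Y : Matrix ((n ⊕ n) ⊕ r) Unit Λ),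
        Xᴴ * JG ε n D * Y = 0 → γᴴ * Xᴴ * JG ε n D * (Y * δ) = 0 := by
      intro γ δ X Y hXY
      calc γᴴ * Xᴴ * JG ε n D * (Y * δ) = γᴴ * (Xᴴ * JG ε n D * Y) * δ := by
            simp only [Matrix.mul_assoc]
        _ = 0 := by rw [hXY, Matrix.mul_zero, Matrix.zero_mul]
    rw [t _ _ _ _ f00, t _ _ _ _ f01, t _ _ _ _ f10, t _ _ _ _ f11]
    simp
  have hwx : wᴴ * JG ε n D * x = 0 := by
    rw [hx, Matrix.mul_add, ← Matrix.mul_assoc, ← Matrix.mul_assoc, hp]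
  have hex' := kill_of_ortho hJ' h h1 hew hw0 hwx
  obtain ⟨v1, v2, v3⟩ := iso_proj h hex' hxx
  by_cases hv : x - e * x = 0
  · have hxe : e * x = x := (sub_eq_zero.mp hv).symm
    have hxE₀ : xᴴ * JG ε n D * E₀ = 0 := by
      rw [hx, Matrix.conjTranspose_add, Matrix.conjTranspose_mul, Matrix.conjTranspose_mul,
        Matrix.add_mul, Matrix.add_mul]
      simp only [Matrix.mul_assoc] at f00 f10 ⊢
      rw [f00, f10, Matrix.mul_zero, Matrix.mul_zero, add_zero]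
    have hxE₁ : xᴴ * JG ε n D * E₁ = 0 := by
      rw [hx, Matrix.conjTranspose_add, Matrix.conjTranspose_mul, Matrix.conjTranspose_mul,
        Matrix.add_mul, Matrix.add_mul]
      simp only [Matrix.mul_assoc] at f01 f11 ⊢
      rw [f01, f11, Matrix.mul_zero, Matrix.mul_zero, add_zero]
    have k₀ := kill_of_ortho hJ' h h1 hxe hx0 hxE₀
    have k₁ := kill_of_ortho hJ' h h1 hxe hx0 hxE₁
    obtain ⟨a1, a2, a3⟩ := iso_proj h k₀ f00
    obtain ⟨b1, b2, b3⟩ := iso_proj h k₁ f11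
    by_cases ha : E₀ - e * E₀ = 0
    · by_cases hb : E₁ - e * E₁ = 0
      · exfalso
        have m₀ : e * E₀ = E₀ := (sub_eq_zero.mp ha).symm
        have m₁ : e * E₁ = E₁ := (sub_eq_zero.mp hb).symm
        have h2 := h1 E₀ E₁ E₀ᴴ m₀ m₁
        rw [g00, g01] at h2
        simp only [Matrix.conjTranspose_one, Matrix.mul_one, Matrix.mul_zero] at h2
        have h3 : (1 : Matrix Unit Unit Λ) = 0 := by rw [← g11, h2, Matrix.mul_zero]
        exact one_ne_zero h3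
      · exact ⟨_, hb, b1, b2, b3⟩
    · exact ⟨_, ha, a1, a2, a3⟩
  · exact ⟨_, hv, v1, v2, v3⟩

end Lag

end BWP
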