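import Pool.Agent.BWP.Rank
import Pool.Agent.BWP.Lag
import Pool.Agent.BWP.G

/-!
# The data of `G2` for one algebra (helper56)
-/

set_option linter.unusedSectionVars false
set_option linter.unusedSimpArgs false

namespace BWP

open Matrix
open BW hiding star
open BWC

section Def

variable {k P : Type*} [DecidableEq k] [Fintype k] [Ring P] [StarRing P]

/-- generation of `y` by inputs of `G2` -/
def Gen (ε : ℤ) (J e e' : Matrix k k P) (p y : Matrix k Unit P) : Prop :=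
  ∃ (z₁ z₂ u₁ u₂ : Matrix k Unit P) (s₁ s₂ μ₁ μ₂ : Matrix Unit Unit P),
    e' * z₁ = z₁ ∧ e' * z₂ = z₂ ∧ pᴴ * J * z₁ = 0 ∧ pᴴ * J * z₂ = 0 ∧ e * u₁ = u₁ ∧
    e * u₂ = u₂ ∧ s₁ + ε • s₁ᴴ = 0 ∧ s₂ + ε • s₂ᴴ = 0 ∧
    y = z₁ * s₁ * (z₁ᴴ * J * u₁) * μ₁ + z₂ * s₂ * (z₂ᴴ * J * u₂) * μ₂

/-- the data of `G2` -/
def G2D (ε : ℤ) (J e e' : Matrix k k P) (p : Matrix k Unit P) : Prop :=
  ∃ x₁ x₂ y₁ y₂ : Matrix k Unit P, e * p = p ∧ e * x₁ = x₁ ∧ e * x₂ = x₂ ∧ e' * y₁ = y₁ ∧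
    e' * y₂ = y₂ ∧ pᴴ * J * y₁ = 0 ∧ pᴴ * J * y₂ = 0 ∧ y₁ᴴ * J * x₁ + y₂ᴴ * J * x₂ = 1 ∧
    Gen ε J e e' p y₁ ∧ Gen ε J e e' p y₂

variable {J e e' A : Matrix k k P} {ε : ℤ} {H : Subgroup (Matrix k k P)ˣ}

theorem Gen.em (hε : ε * ε = 1) (hJ : Jᴴ = ε • J) (hA : J = A + ε • Aᴴ) (hid : Idem J e e')
    (hB : Big ε J e e' H) {p y : Matrix k Unit P} (hp : e * p = p) (h : Gen ε J e e' p y)
    (μ : Matrix Unit Unit P) : EM ε J H p (y * μ) := by
  obtain ⟨z₁, z₂, u₁, u₂, s₁, s₂, μ₁, μ₂, h1, h2, h3, h4, h5, h6, h7, h8, rfl⟩ := h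
  rw [Matrix.add_mul, Matrix.mul_assoc _ μ₁ μ, Matrix.mul_assoc _ μ₂ μ]
  have h9 : pᴴ * J * (z₁ * s₁ * (z₁ᴴ * J * u₁) * (μ₁ * μ)) = 0 := by
    simp only [← Matrix.mul_assoc] at h3 ⊢
    rw [h3]
    simp only [Matrix.zero_mul]
  exact EM.add hε hJ hA h9 (em_input hε hJ hA hid hB hp h1 h3 h5 h7)
    (em_input hε hJ hA hid hB hp h2 h4 h6 h8)

/-- `G2` from the data -/
theorem G2D.em (hε : ε * ε = 1) (hJ : Jᴴ = ε • J) (hA : J = A + ε • Aᴴ) (hid : Idem J e e')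
    (hB : Big ε J e e' H) {p : Matrix k Unit P} (h : G2D ε J e e' p) (v : Matrix k Unit P)
    (hpv : pᴴ * J * v = 0) : EM ε J H p v := by
  obtain ⟨x₁, x₂, y₁, y₂, hp, h1, h2, h3, h4, h5, h6, h7, h8, h9⟩ := h
  exact G2 hε hJ hA hid hB hp h1 h2 h3 h4 h5 h6 h7 (h8.em hε hJ hA hid hB hp)
    (h9.em hε hJ hA hid hB hp) v hpv

end Def

section Arith

variable {N : ℕ} {R Λ k : Type*} [DecidableEq k] [Fintype k] [CommRing R]
  [IsLocalization.Away (N : ℤ) R] [Ring Λ] [StarRing Λ] [Algebra R Λ] [Module.Free R Λ]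
  [Module.Finite R Λ] (hN : N ≠ 0) (Q : QAlg N R Λ) (hQ : ∀ x, star x = Q.conj x)
  [NoZeroDivisors Λ] {ε : ℤ} (hε : ε = 1 ∨ ε = -1)

/-- the dual vector of a linear form -/
def dual (J' : Matrix k k Λ) (φ : Matrix Unit k Λ) : Matrix k Unit Λ := (φ * J')ᴴ

variable {J J' e e' : Matrix k k Λ} (hJ : Jᴴ = ε • J) (hJJ : J * J' = 1) (hJJ' : J' * J = 1)

include hJJ' in
theorem dual_form (φ : Matrix Unit k Λ) : (dual J' φ)ᴴ * J = φ := by
  rw [dual, Matrix.conjTranspose_conjTranspose, Matrix.mul_assoc, hJJ', Matrix.mul_one]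

include hJJ hJJ' in
theorem dual_mem (hid : Idem J e e') {φ : Matrix Unit k Λ} (hφ : φ * e = φ) :
    e' * dual J' φ = dual J' φ := by
  have h1 : (e' * dual J' φ)ᴴ * J = (dual J' φ)ᴴ * J := by
    rw [Matrix.conjTranspose_mul, Matrix.mul_assoc, hid.adj', ← Matrix.mul_assoc,
      dual_form hJJ', hφ]
  have h2 := congrArg (· * J') h1
  simp only [Matrix.mul_assoc, hJJ, Matrix.mul_one] at h2
  exact Matrix.conjTranspose_injective h2

include hN Q hQ hJJ hJJ' in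
/-- fullness -/
theorem full2_of (hid : Idem J e e') (h0 : e ≠ 0) : Full2 J e e' := by
  obtain ⟨y₁, y₂, φ₁, φ₂, h1, h2, h3, h4, h5⟩ := full_two hN Q hQ e hid.ee h0
  refine ⟨y₁, y₂, dual J' φ₁, dual J' φ₂, h1, h2, dual_mem hJJ hJJ' hid h3,
    dual_mem hJJ hJJ' hid h4, ?_⟩
  rw [dual_form hJJ', dual_form hJJ', h5]

include hJ in
/-- the complement of a hyperbolic pair -/
theorem sub_idem (hε2 : ε * ε = 1) (hid : Idem J e e') {w w' : Matrix k Unit Λ}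
    (hw : e * w = w) (hw' : e' * w' = w') (h1 : w'ᴴ * J * w = 1) :
    Idem J (e - op J w 1 w') (e' - ε • op J w' 1 w) := by
  have h2 : wᴴ * J * w' = ε • (1 : Matrix Unit Unit Λ) := by
    have := form_symm hJ w' w
    rw [h1, Matrix.conjTranspose_one] at this
    rw [this, smul_smul_self hε2]
  have ew' : e * w' = 0 := hid.kill' hw'
  have ew : e' * w = 0 := hid.kill hw
  have hww : wᴴ * J * w = 0 := hid.iso hw hw
  have hww' : w'ᴴ * J * w' = 0 := hid.swap.iso hw' hw'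
  have a1 : ∀ a : Matrix k Unit Λ, op J a 1 w' * e = op J a 1 w' := by
    intro a
    have : w'ᴴ * J * e = w'ᴴ * J := by
      rw [Matrix.mul_assoc, ← hid.adj', ← Matrix.mul_assoc, ← Matrix.conjTranspose_mul, hw']
    rw [op, Matrix.mul_assoc, this]
  have a2 : ∀ a : Matrix k Unit Λ, op J a 1 w' * e' = 0 := by
    intro a
    have : w'ᴴ * J * e' = 0 := by
      rw [Matrix.mul_assoc, ← hid.adj, ← Matrix.mul_assoc, ← Matrix.conjTranspose_mul, ew',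
        Matrix.conjTranspose_zero, Matrix.zero_mul]
    rw [op, Matrix.mul_assoc, this, Matrix.mul_zero]
  have a3 : ∀ a : Matrix k Unit Λ, op J a 1 w * e' = op J a 1 w := by
    intro a
    have : wᴴ * J * e' = wᴴ * J := by
      rw [Matrix.mul_assoc, ← hid.adj, ← Matrix.mul_assoc, ← Matrix.conjTranspose_mul, hw]
    rw [op, Matrix.mul_assoc, this]
  have a4 : ∀ a : Matrix k Unit Λ, op J a 1 w * e = 0 := by
    intro a
    have : wᴴ * J * e = 0 := by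
      rw [Matrix.mul_assoc, ← hid.adj', ← Matrix.mul_assoc, ← Matrix.conjTranspose_mul, ew,
        Matrix.conjTranspose_zero, Matrix.zero_mul]
    rw [op, Matrix.mul_assoc, this, Matrix.mul_zero]
  refine ⟨?_, ?_, ?_, ?_, ?_, ?_⟩
  · rw [sub_mul, mul_sub, mul_sub, hid.ee, mul_op, hw, a1, op_mul, h1, Matrix.one_mul,
      Matrix.one_mul]
    abel
  · rw [sub_mul, mul_sub, mul_sub, hid.ee', mul_smul_comm, mul_op, hw', smul_mul_assoc, a3,
      smul_mul_assoc, mul_smul_comm, op_mul, h2, Matrix.one_mul, Matrix.mul_one, op_smul,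
      smul_smul_self hε2]
    abel
  · rw [sub_mul, mul_sub, mul_sub, hid.mul, mul_smul_comm, mul_op, ew', op_zero_left, a2,
      mul_smul_comm, op_mul, hww', Matrix.mul_zero, Matrix.zero_mul, op_zero]
    simp only [smul_zero, sub_zero]
  · rw [sub_mul, mul_sub, mul_sub, hid.mul', mul_op, ew, op_zero_left, smul_mul_assoc, a4,
      smul_mul_assoc, op_mul, hww, Matrix.mul_zero, Matrix.zero_mul, op_zero]
    simp only [smul_zero, sub_zero]
  · rw [Matrix.conjTranspose_sub, Matrix.sub_mul, hid.adj, op_adj hJ, Matrix.conjTranspose_one,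
      Matrix.mul_sub, Matrix.mul_smul]
  · rw [Matrix.conjTranspose_sub, Matrix.sub_mul, hid.adj', Matrix.conjTranspose_smul,
      star_trivial, Matrix.smul_mul, op_adj hJ, Matrix.conjTranspose_one, smul_smul_self hε2,
      Matrix.mul_sub]

include hN Q hQ hε hJ hJJ hJJ' in
/-- generation of the vectors of the image of `e'` -/
theorem gen_of (hε2 : ε * ε = 1) (hid : Idem J e e') {y : Matrix k Unit Λ} (hy : e' * y = y) :
    Gen ε J e e' 0 y := by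
  by_cases h0 : y = 0
  · refine ⟨0, 0, 0, 0, 0, 0, 0, 0, ?_⟩
    simp [h0]
  obtain ⟨π, h1, h2, h3, h4, h5⟩ := rank_one hN Q hQ e' hid.ee' y hy h0
  have hπ : π ≠ 0 := by
    rintro rfl
    rw [Matrix.zero_mul] at h4
    exact h0 h4.symm
  obtain ⟨z₁, z₂, φ₁, φ₂, s₁, s₂, a1, a2, a3, a4, a5, a6, a7⟩ := gen_two hN Q hQ hε π h1 hπ h5
  obtain ⟨μ₁, μ₂, h6⟩ := a7 y h4
  have b1 : ∀ z : Matrix k Unit Λ, π * z = z → e' * z = z := by
    intro z hz
    rw [← hz, ← Matrix.mul_assoc, h2]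
  have b2 : ∀ φ : Matrix Unit k Λ, φ * π = φ → φ * e' = φ := by
    intro φ hφ
    rw [← hφ, Matrix.mul_assoc, h3]
  have b3 : ∀ s : Matrix Unit Unit Λ, sᴴ = -(ε • s) → s + ε • sᴴ = 0 := by
    intro s hs
    rw [hs, smul_neg, smul_smul_self hε2, add_neg_cancel]
  have b4 : ∀ (φ : Matrix Unit k Λ) (z : Matrix k Unit Λ) (s μ : Matrix Unit Unit Λ),
      z * s * (φ * z)ᴴ * μ = z * s * (zᴴ * J * dual J' φ) * (ε • μ) := by
    intro φ z s μ
    have : (φ * z)ᴴ = ε • (zᴴ * J * dual J' φ) := by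
      rw [← form_symm hJ, dual_form hJJ']
    rw [this]
    simp only [Matrix.mul_smul, Matrix.smul_mul]
  refine ⟨z₁, z₂, dual J' φ₁, dual J' φ₂, s₁, s₂, ε • μ₁, ε • μ₂, b1 _ a1, b1 _ a2, ?_, ?_,
    dual_mem hJJ hJJ' hid.swap (b2 _ a3), dual_mem hJJ hJJ' hid.swap (b2 _ a4), b3 _ a5, b3 _ a6,
    ?_⟩
  · rw [Matrix.conjTranspose_zero, Matrix.zero_mul, Matrix.zero_mul]
  · rw [Matrix.conjTranspose_zero, Matrix.zero_mul, Matrix.zero_mul]
  · rw [← b4, ← b4]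
    exact h6

include hN Q hQ hε hJ hJJ hJJ' in
/-- the data of `G2` for a hyperbolic pair of `W`, `W'`, if the rank is at least two -/
theorem g2d_of (hε2 : ε * ε = 1) (hid : Idem J e e') {w w' : Matrix k Unit Λ}
    (hw : e * w = w) (hw' : e' * w' = w') (h1 : w'ᴴ * J * w = 1)
    (h0 : e - op J w 1 w' ≠ 0) : G2D ε J e e' w := by
  have h3 := sub_idem hJ hε2 hid hw hw' h1
  set f := e - op J w 1 w' with hf
  set f' := e' - ε • op J w' 1 w with hf'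
  have hfw : f * w = 0 := by
    rw [hf, Matrix.sub_mul, hw, op_mulVec, h1, Matrix.one_mul, Matrix.mul_one, sub_self]
  have c1 : ∀ x : Matrix k Unit Λ, f * x = x → e * x = x := by
    intro x hx
    have : e * f = f := by rw [hf, mul_sub, hid.ee, mul_op, hw]
    rw [← hx, ← Matrix.mul_assoc, this]
  have c2 : ∀ x : Matrix k Unit Λ, f' * x = x → e' * x = x := by
    intro x hx
    have : e' * f' = f' := by rw [hf', mul_sub, hid.ee', mul_smul_comm, mul_op, hw']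
    rw [← hx, ← Matrix.mul_assoc, this]
  have c3 : ∀ x : Matrix k Unit Λ, f' * x = x → wᴴ * J * x = 0 := fun x hx =>
    form_symm_zero hε2 hJ (h3.swap.form hx hfw)
  have c4 : ∀ y : Matrix k Unit Λ, f' * y = y → Gen ε J e e' w y := by
    intro y hy
    obtain ⟨z₁, z₂, u₁, u₂, s₁, s₂, μ₁, μ₂, a1, a2, -, -, a3, a4, a5, a6, a7⟩ :=
      gen_of hN Q hQ hε hJ hJJ hJJ' hε2 h3 hy
    exact ⟨z₁, z₂, u₁, u₂, s₁, s₂, μ₁, μ₂, c2 _ a1, c2 _ a2, c3 _ a1, c3 _ a2, c1 _ a3, c1 _ a4,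
      a5, a6, a7⟩
  obtain ⟨x₁, x₂, y₁, y₂, a1, a2, a3, a4, a5⟩ := full2_of hN Q hQ hJJ hJJ' h3 h0
  exact ⟨x₁, x₂, y₁, y₂, hw, c1 _ a1, c1 _ a2, c2 _ a3, c2 _ a4, c3 _ a3, c3 _ a4, a5, c4 _ a3,
    c4 _ a4⟩

include hN Q hQ hε hJ hJJ hJJ' in
/-- a free hyperbolic pair in an idempotent of rank at least two -/
theorem free_data (hε2 : ε * ε = 1) (hid : Idem J e e') (π : Matrix k k Λ) (hπ : π * π = π)
    (h1 : e * π = π) (h2 : π * e = π) (h0 : π ≠ 0) (h3 : π ≠ e) :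
    ∃ w w' : Matrix k Unit Λ, e * w = w ∧ e' * w' = w' ∧ w'ᴴ * J * w = 1 ∧ G2D ε J e e' w ∧
      G2D ε J e' e w' := by
  obtain ⟨w, φ, hw, hφ, hφw, x, hx0, hx, hφx⟩ := serre hN Q hQ e π hid.ee hπ h1 h2 h0 h3
  have hw' := dual_mem hJJ hJJ' hid hφ
  have hd := dual_form (J' := J') (J := J) hJJ' φ
  set w' := dual J' φ with hw'd
  have h4 : w'ᴴ * J * w = 1 := by rw [hd, hφw]
  have hf : e - op J w 1 w' ≠ 0 := by
    intro h
    have h5 : (e - op J w 1 w') * x = x := by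
      rw [Matrix.sub_mul, hx, op_mulVec, hd, hφx, Matrix.mul_zero, Matrix.mul_zero, sub_zero]
    rw [h, Matrix.zero_mul] at h5
    exact hx0 h5.symm
  have h5 := sub_idem hJ hε2 hid hw hw' h4
  refine ⟨w, w', hw, hw', h4, g2d_of hN Q hQ hε hJ hJJ hJJ' hε2 hid hw hw' h4 hf, ?_⟩
  have h6 : (ε • w)ᴴ * J * w' = 1 := by
    have h7 := form_symm hJ w' w
    rw [h4, Matrix.conjTranspose_one] at h7
    rw [Matrix.conjTranspose_smul, star_trivial, Matrix.smul_mul, Matrix.smul_mul, ← h7]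
  have h7 : e * (ε • w) = ε • w := by rw [Matrix.mul_smul, hw]
  refine g2d_of hN Q hQ hε hJ hJJ hJJ' hε2 hid.swap hw' h7 h6 ?_
  rw [op_smul_right]
  intro h8
  have h9 := h5.adj
  rw [h8, Matrix.mul_zero] at h9
  apply hf
  apply Matrix.conjTranspose_injective
  calc (e - op J w 1 w')ᴴ = (e - op J w 1 w')ᴴ * J * J' := by rw [Matrix.mul_assoc, hJJ, mul_one]
    _ = (0 : Matrix k k Λ)ᴴ := by rw [h9, Matrix.zero_mul, Matrix.conjTranspose_zero]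

/-- the orthogonality relations of two pairs of idempotents -/
structure Orth (e e' σ σ' : Matrix k k Λ) : Prop where
  r1 : e * σ = 0
  r2 : σ * e = 0
  r3 : e' * σ = 0
  r4 : σ * e' = 0
  r5 : e * σ' = 0
  r6 : σ' * e = 0
  r7 : e' * σ' = 0
  r8 : σ' * e' = 0

include hN Q hQ hε hJJ hJJ' in
/-- the data of `G2` for one algebra -/
theorem local_data (hε2 : ε * ε = 1) {A : Matrix k k Λ} (hA : J = A + ε • Aᴴ)
    (hid : Idem J e e') (h0 : e ≠ 0)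
    (hiso : R1 e → ∃ x : Matrix k Unit Λ, x ≠ 0 ∧ e * x = 0 ∧ e' * x = 0 ∧ xᴴ * J * x = 0) :
    Full2 J e e' ∧ ∃ (σ σ' : Matrix k k Λ) (w w' : Matrix k Unit Λ), Idem J σ σ' ∧
      Orth e e' σ σ' ∧ (e + σ) * w = w ∧ (e' + σ') * w' = w' ∧ w'ᴴ * J * w = 1 ∧
      G2D ε J (e + σ) (e' + σ') w ∧ G2D ε J (e' + σ') (e + σ) w' := by
  have hJ : Jᴴ = ε • J := by
    rw [hA, Matrix.conjTranspose_add, Matrix.conjTranspose_smul, star_trivial,
      Matrix.conjTranspose_conjTranspose, smul_add, smul_smul_self hε2, add_comm]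
  refine ⟨full2_of hN Q hQ hJJ hJJ' hid h0, ?_⟩
  obtain ⟨i, j, hij⟩ := Se.exists_entry h0
  set x₀ : Matrix k Unit Λ := e * Matrix.single j () (1 : Λ) with hx₀
  have hx₀0 : x₀ ≠ 0 := by
    intro h
    apply hij
    rw [← Se.col_apply e i j, ← hx₀, h]
    rfl
  have hex₀ : e * x₀ = x₀ := by rw [hx₀, ← Matrix.mul_assoc, hid.ee]
  obtain ⟨π, h1, h2, h3, h4, h5⟩ := rank_one hN Q hQ e hid.ee x₀ hex₀ hx₀0
  have hπ0 : π ≠ 0 := by
    rintro rfl
    rw [Matrix.zero_mul] at h4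
    exact hx₀0 h4.symm
  by_cases hπ : π = e
  · rw [hπ] at h5
    obtain ⟨x, hx0, hx1, hx2, hx3⟩ := hiso h5
    obtain ⟨σ, σ', hσ, hσx, -, r1, r2, r3, r4, r5, r6, r7, r8⟩ :=
      exists_sigma hε2 (fun e he x hx hx0 => rank_one hN Q hQ e he x hx hx0) hA hJJ hJJ' hid x hx0 hx1 hx2 hx3
    have hid2 := hid.merge hσ r1 r2 r3 r4 r5 r6 r7 r8
    have hσ0 : e ≠ e + σ := by
      intro h
      have h6 : σ = 0 := by
        have := congrArg (fun a => a - e) h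
        simpa using this.symm
      rw [h6, Matrix.zero_mul] at hσx
      exact hx0 hσx.symm
    obtain ⟨w, w', a1, a2, a3, a4, a5⟩ := free_data hN Q hQ hε hJ hJJ hJJ' hε2 hid2 e hid.ee
      (by rw [add_mul, hid.ee, r2, add_zero]) (by rw [mul_add, hid.ee, r1, add_zero]) h0 hσ0
    exact ⟨σ, σ', w, w', hσ, ⟨r1, r2, r3, r4, r5, r6, r7, r8⟩, a1, a2, a3, a4, a5⟩
  · obtain ⟨w, w', a1, a2, a3, a4, a5⟩ := free_data hN Q hQ hε hJ hJJ hJJ' hε2 hid π h1 h2 h3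
      hπ0 hπ
    refine ⟨0, 0, w, w', ⟨?_, ?_, ?_, ?_, ?_, ?_⟩, ⟨?_, ?_, ?_, ?_, ?_, ?_, ?_, ?_⟩, ?_, ?_, a3,
      ?_, ?_⟩
    all_goals simp [a1, a2, a4, a5]

end Arith

end BWP
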