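import Pool.Agent.BWP.Loc

/-!
# The data of `G2` over a product of algebras (helper56)
-/

set_option linter.unusedSectionVars false
set_option linter.unusedSimpArgs false

namespace BWP

open Matrix
open BW hiding star
open BWC

section Fam

variable {ι : Type*} {Λ : ι → Type*} [∀ i, Ring (Λ i)] {k l m : Type*}

/-- the matrix over the product ring with the given components -/
def fam (x : ∀ i, Matrix k l (Λ i)) : Matrix k l (∀ i, Λ i) := Matrix.of fun a b i => x i a b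

/-- a component -/
def cm (i : ι) (M : Matrix k l (∀ i, Λ i)) : Matrix k l (Λ i) := M.map fun x => x i

theorem cm_apply (i : ι) (M : Matrix k l (∀ i, Λ i)) (a : k) (b : l) : cm i M a b = M a b i := rfl

@[simp] theorem cm_fam (x : ∀ i, Matrix k l (Λ i)) (i : ι) : cm i (fam x) = x i := rfl

theorem cm_ext {M M' : Matrix k l (∀ i, Λ i)} (h : ∀ i, cm i M = cm i M') : M = M' := by
  ext a b i
  exact congrFun (congrFun (h i) a) b

@[simp] theorem cm_mul [Fintype l] (i : ι) (M : Matrix k l (∀ i, Λ i))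
    (M' : Matrix l m (∀ i, Λ i)) : cm i (M * M') = cm i M * cm i M' := by
  ext a b
  simp only [cm_apply, Matrix.mul_apply, Finset.sum_apply, Pi.mul_apply]

@[simp] theorem cm_add (i : ι) (M M' : Matrix k l (∀ i, Λ i)) :
    cm i (M + M') = cm i M + cm i M' := rfl

@[simp] theorem cm_sub (i : ι) (M M' : Matrix k l (∀ i, Λ i)) :
    cm i (M - M') = cm i M - cm i M' := rfl

@[simp] theorem cm_neg (i : ι) (M : Matrix k l (∀ i, Λ i)) : cm i (-M) = -cm i M := rfl

@[simp] theorem cm_smul (i : ι) (ε : ℤ) (M : Matrix k l (∀ i, Λ i)) :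
    cm i (ε • M) = ε • cm i M := rfl

@[simp] theorem cm_zero (i : ι) : cm i (0 : Matrix k l (∀ i, Λ i)) = 0 := rfl

@[simp] theorem cm_one [DecidableEq k] (i : ι) : cm i (1 : Matrix k k (∀ i, Λ i)) = 1 := by
  ext a b
  rw [cm_apply, Matrix.one_apply, Matrix.one_apply]
  split_ifs <;> rfl

@[simp] theorem cm_ct [∀ i, StarRing (Λ i)] (i : ι) (M : Matrix k l (∀ i, Λ i)) :
    cm i Mᴴ = (cm i M)ᴴ := rfl

end Fam

section Data

variable {ι : Type*} {Λ : ι → Type*} [∀ i, Ring (Λ i)] [∀ i, StarRing (Λ i)] {k : Type*}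
  [DecidableEq k] [Fintype k] {J e e' σ σ' : Matrix k k (∀ i, Λ i)} {ε : ℤ}
  {p y : Matrix k Unit (∀ i, Λ i)}

theorem idem_pi (h : ∀ i, Idem (cm i J) (cm i e) (cm i e')) : Idem J e e' := by
  refine ⟨?_, ?_, ?_, ?_, ?_, ?_⟩
  · exact cm_ext fun i => by simpa using (h i).ee
  · exact cm_ext fun i => by simpa using (h i).ee'
  · exact cm_ext fun i => by simpa using (h i).mul
  · exact cm_ext fun i => by simpa using (h i).mul'
  · exact cm_ext fun i => by simpa using (h i).adj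
  · exact cm_ext fun i => by simpa using (h i).adj'

theorem idem_cm (h : Idem J e e') (i : ι) : Idem (cm i J) (cm i e) (cm i e') := by
  refine ⟨?_, ?_, ?_, ?_, ?_, ?_⟩
  · simpa using congrArg (cm i) h.ee
  · simpa using congrArg (cm i) h.ee'
  · simpa using congrArg (cm i) h.mul
  · simpa using congrArg (cm i) h.mul'
  · simpa using congrArg (cm i) h.adj
  · simpa using congrArg (cm i) h.adj'

theorem orth_pi (h : ∀ i, Orth (cm i e) (cm i e') (cm i σ) (cm i σ')) : Orth e e' σ σ' := by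
  refine ⟨?_, ?_, ?_, ?_, ?_, ?_, ?_, ?_⟩
  · exact cm_ext fun i => by simpa using (h i).r1
  · exact cm_ext fun i => by simpa using (h i).r2
  · exact cm_ext fun i => by simpa using (h i).r3
  · exact cm_ext fun i => by simpa using (h i).r4
  · exact cm_ext fun i => by simpa using (h i).r5
  · exact cm_ext fun i => by simpa using (h i).r6
  · exact cm_ext fun i => by simpa using (h i).r7
  · exact cm_ext fun i => by simpa using (h i).r8

theorem full2_pi (h : ∀ i, Full2 (cm i J) (cm i e) (cm i e')) : Full2 J e e' := by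
  choose x₁ x₂ y₁ y₂ h1 h2 h3 h4 h5 using h
  refine ⟨fam x₁, fam x₂, fam y₁, fam y₂, ?_, ?_, ?_, ?_, ?_⟩
  · exact cm_ext fun i => by simpa using h1 i
  · exact cm_ext fun i => by simpa using h2 i
  · exact cm_ext fun i => by simpa using h3 i
  · exact cm_ext fun i => by simpa using h4 i
  · exact cm_ext fun i => by simpa using h5 i

theorem gen_pi (h : ∀ i, Gen ε (cm i J) (cm i e) (cm i e') (cm i p) (cm i y)) :
    Gen ε J e e' p y := by
  choose z₁ z₂ u₁ u₂ s₁ s₂ μ₁ μ₂ h1 h2 h3 h4 h5 h6 h7 h8 h9 using h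
  refine ⟨fam z₁, fam z₂, fam u₁, fam u₂, fam s₁, fam s₂, fam μ₁, fam μ₂, ?_, ?_, ?_, ?_, ?_, ?_,
    ?_, ?_, ?_⟩
  · exact cm_ext fun i => by simpa using h1 i
  · exact cm_ext fun i => by simpa using h2 i
  · exact cm_ext fun i => by simpa using h3 i
  · exact cm_ext fun i => by simpa using h4 i
  · exact cm_ext fun i => by simpa using h5 i
  · exact cm_ext fun i => by simpa using h6 i
  · refine cm_ext fun i => ?_
    rw [cm_add, cm_smul, cm_ct, cm_fam, cm_zero]
    exact h7 i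
  · refine cm_ext fun i => ?_
    rw [cm_add, cm_smul, cm_ct, cm_fam, cm_zero]
    exact h8 i
  · refine cm_ext fun i => ?_
    simp only [cm_add, cm_mul, cm_ct, cm_fam]
    exact h9 i

theorem g2d_pi (h : ∀ i, G2D ε (cm i J) (cm i e) (cm i e') (cm i p)) : G2D ε J e e' p := by
  choose x₁ x₂ y₁ y₂ h1 h2 h3 h4 h5 h6 h7 h8 h9 h10 using h
  refine ⟨fam x₁, fam x₂, fam y₁, fam y₂, ?_, ?_, ?_, ?_, ?_, ?_, ?_, ?_, gen_pi h9, gen_pi h10⟩
  · exact cm_ext fun i => by simpa using h1 i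
  · exact cm_ext fun i => by simpa using h2 i
  · exact cm_ext fun i => by simpa using h3 i
  · exact cm_ext fun i => by simpa using h4 i
  · exact cm_ext fun i => by simpa using h5 i
  · exact cm_ext fun i => by simpa using h6 i
  · exact cm_ext fun i => by simpa using h7 i
  · exact cm_ext fun i => by simpa using h8 i

end Data

section JG

variable {P : Type*} [Ring P] [StarRing P] {n r : Type*} [DecidableEq n] [Fintype n]
  [DecidableEq r] [Fintype r] {ε : ℤ}

theorem JG_even (_ : ε * ε = 1) {A D : Matrix r r P} (hD : D = A + ε • Aᴴ) :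
    ∃ B, JG ε n D = B + ε • Bᴴ := by
  refine ⟨Matrix.fromBlocks (Matrix.fromBlocks 0 1 0 0) 0 0 A, ?_⟩
  rw [JG, BWC.J, hD, Matrix.fromBlocks_conjTranspose, Matrix.fromBlocks_conjTranspose]
  simp only [Matrix.conjTranspose_zero, Matrix.conjTranspose_one, Matrix.fromBlocks_smul,
    Matrix.fromBlocks_add, smul_zero, add_zero, zero_add]

theorem JG_inv (hε : ε * ε = 1) {D D' : Matrix r r P} (hDD : D * D' = 1) (hDD' : D' * D = 1) :
    ∃ J' : Matrix ((n ⊕ n) ⊕ r) ((n ⊕ n) ⊕ r) P, JG ε n D * J' = 1 ∧ J' * JG ε n D = 1 := by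
  refine ⟨Matrix.fromBlocks (Matrix.fromBlocks 0 (ε • 1) 1 0) 0 0 D', ?_, ?_⟩
  · rw [JG, BWC.J, Matrix.fromBlocks_multiply, Matrix.fromBlocks_multiply]
    simp only [Matrix.mul_zero, Matrix.zero_mul, add_zero, zero_add, hDD, Matrix.one_mul,
      Matrix.mul_one, Matrix.smul_mul, Matrix.mul_smul, smul_smul, hε, one_smul,
      smul_zero, Matrix.fromBlocks_one]
  · rw [JG, BWC.J, Matrix.fromBlocks_multiply, Matrix.fromBlocks_multiply]
    simp only [Matrix.mul_zero, Matrix.zero_mul, add_zero, zero_add, hDD', Matrix.one_mul,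
      Matrix.mul_one, Matrix.smul_mul, Matrix.mul_smul, smul_smul, hε, one_smul,
      smul_zero, Matrix.fromBlocks_one]

theorem JG_cm {ι : Type*} {Λ : ι → Type*} [∀ i, Ring (Λ i)] [∀ i, StarRing (Λ i)]
    (D : Matrix r r (∀ i, Λ i)) (i : ι) : cm i (JG ε n D) = JG ε n (cm i D) := by
  have h := map_J (ε := ε) (n := n) (Pi.evalRingHom Λ i)
  ext a b
  rcases a with a | a <;> rcases b with b | b
  · exact congrFun (congrFun h a) b
  · rfl
  · rfl
  · rfl

end JG

section Pair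

variable {ι : Type*} {N : ι → ℕ} {R Λ : ι → Type*} [∀ i, CommRing (R i)]
  [∀ i, IsLocalization.Away (N i : ℤ) (R i)] [∀ i, Ring (Λ i)] [∀ i, StarRing (Λ i)]
  [∀ i, Algebra (R i) (Λ i)] [∀ i, Module.Free (R i) (Λ i)] [∀ i, Module.Finite (R i) (Λ i)]
  [∀ i, NoZeroDivisors (Λ i)] {n r : Type*} [DecidableEq n] [Fintype n] [DecidableEq r]
  [Fintype r]

/-- **a free hyperbolic pair all of whose Eichler transformations are in `H`** -/
theorem exists_pair (hN : ∀ i, N i ≠ 0) (Q : ∀ i, QAlg (N i) (R i) (Λ i))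
    (hQ : ∀ i x, star x = (Q i).conj x) {ε : ℤ} (hε : ε = 1 ∨ ε = -1)
    (hn : 2 ≤ Fintype.card n) {A D D' : Matrix r r (∀ i, Λ i)} (hD : D = A + ε • Aᴴ)
    (hDD : D * D' = 1) (hDD' : D' * D = 1)
    {e e' : Matrix ((n ⊕ n) ⊕ r) ((n ⊕ n) ⊕ r) (∀ i, Λ i)} (hid : Idem (JG ε n D) e e')
    (h0 : ∀ i, cm i e ≠ 0) {H : Subgroup (Matrix ((n ⊕ n) ⊕ r) ((n ⊕ n) ⊕ r) (∀ i, Λ i))ˣ}
    (hB : Big ε (JG ε n D) e e' H) :
    ∃ w w' : Matrix ((n ⊕ n) ⊕ r) Unit (∀ i, Λ i), wᴴ * JG ε n D * w = 0 ∧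
      w'ᴴ * JG ε n D * w' = 0 ∧ w'ᴴ * JG ε n D * w = 1 ∧
      (∀ v, wᴴ * JG ε n D * v = 0 → EM ε (JG ε n D) H w v) ∧
      (∀ v, w'ᴴ * JG ε n D * v = 0 → EM ε (JG ε n D) H w' v) := by
  have hε2 : ε * ε = 1 := by rcases hε with rfl | rfl <;> norm_num
  obtain ⟨B, hB'⟩ := JG_even (n := n) hε2 hD
  obtain ⟨J', hJJ, hJJ'⟩ := JG_inv (n := n) hε2 hDD hDD'
  have hJ : (JG ε n D)ᴴ = ε • JG ε n D := by
    rw [hB', Matrix.conjTranspose_add, Matrix.conjTranspose_smul, star_trivial,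
      Matrix.conjTranspose_conjTranspose, smul_add, smul_smul_self hε2, add_comm]
  have hDh : Dᴴ = ε • D := by
    rw [hD, Matrix.conjTranspose_add, Matrix.conjTranspose_smul, star_trivial,
      Matrix.conjTranspose_conjTranspose, smul_add, smul_smul_self hε2, add_comm]
  have hloc := fun i => local_data (hN i) (Q i) (hQ i) hε (J := cm i (JG ε n D)) (J' := cm i J')
    (by rw [← cm_mul, hJJ, cm_one]) (by rw [← cm_mul, hJJ', cm_one]) hε2 (A := cm i B)
    (by rw [hB', cm_add, cm_smul, cm_ct]) (idem_cm hid i) (h0 i) (fun hR => by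
      have hi := idem_cm hid i
      rw [JG_cm] at hi ⊢
      exact exists_iso (Q i) (hQ i) hn hε2 (D := cm i D) (D' := cm i D')
        (by rw [← cm_ct, hDh, cm_smul]) (by rw [← cm_mul, hDD, cm_one])
        (by rw [← cm_mul, hDD', cm_one]) hi (h0 i) hR)
  choose hf σ σ' w w' a1 a2 a3 a4 a5 a6 a7 using hloc
  have hfull : Full2 (JG ε n D) e e' := full2_pi hf
  have hσ : Idem (JG ε n D) (fam σ) (fam σ') := idem_pi a1
  have ho : Orth e e' (fam σ) (fam σ') := orth_pi a2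
  have hid2 := hid.merge hσ ho.r1 ho.r2 ho.r3 ho.r4 ho.r5 ho.r6 ho.r7 ho.r8
  have hB2 := Big.merge hε2 hJ hB' hid hσ ho.r1 ho.r2 ho.r3 ho.r4 ho.r5 ho.r6 ho.r7 ho.r8 hB
    hfull
  have g1 : G2D ε (JG ε n D) (e + fam σ) (e' + fam σ') (fam w) := g2d_pi a6
  have g2 : G2D ε (JG ε n D) (e' + fam σ') (e + fam σ) (fam w') := g2d_pi a7
  have ew : (e + fam σ) * fam w = fam w := cm_ext fun i => by simpa using a3 i
  have ew' : (e' + fam σ') * fam w' = fam w' := cm_ext fun i => by simpa using a4 i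
  refine ⟨fam w, fam w', hid2.iso ew ew, hid2.swap.iso ew' ew', cm_ext fun i => ?_,
    fun v hv => g1.em hε2 hJ hB' hid2 hB2 v hv,
    fun v hv => g2.em hε2 hJ hB' hid2.swap hB2.swap v hv⟩
  rw [cm_mul, cm_mul, cm_ct, cm_fam, cm_fam, cm_one]
  exact a5 i

end Pair

end BWP
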