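import Pool.Agent.BWP.Serre

/-!
# Idempotents of rank one (row A1a)
-/

namespace BWP

open Matrix
open BW hiding star
open BWC

section Rank

variable {N : ℕ} {R Λ k : Type*} [DecidableEq k] [Fintype k] [CommRing R]
  [IsLocalization.Away (N : ℤ) R] [Ring Λ] [StarRing Λ] [Algebra R Λ] [Module.Free R Λ]
  [Module.Finite R Λ] (hN : N ≠ 0) (Q : QAlg N R Λ) (hQ : ∀ x, star x = Q.conj x)

/-- `y` is on the line through `x` -/
def OnLine (R : Type*) {Λ k : Type*} [CommRing R] [Ring Λ] [Algebra R Λ]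
    (x y : Matrix k Unit Λ) : Prop :=
  ∃ r : R, r ≠ 0 ∧ ∃ l : Matrix Unit Unit Λ, r • y = x * l

omit [IsLocalization.Away (N : ℤ) R] [Module.Free R Λ] [Module.Finite R Λ] [DecidableEq k]
  [Fintype k] in
include hQ in
theorem smul_conjT {m n : Type*} (r : R) (a : Matrix m n Λ) : (r • a)ᴴ = r • aᴴ := by
  ext i j
  rw [Matrix.conjTranspose_apply, Matrix.smul_apply, Matrix.smul_apply,
    Matrix.conjTranspose_apply, hQ, hQ, Q.conj_smul]

omit [StarRing Λ] [DecidableEq k] [Fintype k] [Module.Finite R Λ] in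
include hN in
theorem smul_inj {m n : Type*} {r : R} (hr : r ≠ 0) {a b : Matrix m n Λ} (h : r • a = r • b) :
    a = b := by
  have hD := Loc.isDomain N R hN
  ext i j
  exact smul_right_injective Λ hr (congrFun (congrFun h i) j)

omit [Module.Finite R Λ] [DecidableEq k] in
include hN hQ in
/-- the identity `R1` for two vectors on one line -/
theorem OnLine.r1 {x z y : Matrix k Unit Λ} (hz : OnLine R x z) (hy : OnLine R x y)
    (φ : Matrix Unit k Λ) :
    y * ((φ * z)ᴴ * (φ * z)) = z * ((φ * z)ᴴ * (φ * y)) := by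
  have hD := Loc.isDomain N R hN
  obtain ⟨r, hr, l, hl⟩ := hz
  obtain ⟨s, hs, m, hm⟩ := hy
  refine smul_inj hN (mul_ne_zero (mul_ne_zero hr hr) hs) ?_
  have e1 : (r * r * s) • (y * ((φ * z)ᴴ * (φ * z))) =
      (s • y) * ((φ * (r • z))ᴴ * (φ * (r • z))) := by
    rw [Matrix.mul_smul, smul_conjT Q hQ]
    simp only [Matrix.mul_smul, Matrix.smul_mul, smul_smul]
  have e2 : (r * r * s) • (z * ((φ * z)ᴴ * (φ * y))) =
      (r • z) * ((φ * (r • z))ᴴ * (φ * (s • y))) := by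
    rw [Matrix.mul_smul, Matrix.mul_smul, smul_conjT Q hQ]
    simp only [Matrix.mul_smul, Matrix.smul_mul, smul_smul]
    try (congr 1; ring)
  rw [e1, e2, hl, hm, Se.star_mul_u Q hQ]
  have e3 : Q.n ((φ * (x * l)) () ()) = Q.n ((φ * x) () ()) * Q.n (l () ()) := by
    rw [← Matrix.mul_assoc, Matrix.mul_apply, Fintype.sum_unique]
    exact Q.n_mul _ _
  have e4 : x * l * ((φ * (x * l))ᴴ * (φ * (x * m))) =
      x * ((l * lᴴ) * (((φ * x)ᴴ * (φ * x)) * m)) := by
    rw [← Matrix.mul_assoc φ, Matrix.conjTranspose_mul, ← Matrix.mul_assoc φ x m]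
    simp only [Matrix.mul_assoc]
  rw [e4, Se.star_mul_u Q hQ, Se.mul_star_u Q hQ, e3]
  simp only [Matrix.mul_smul, Matrix.smul_mul, Matrix.mul_one, Matrix.one_mul, smul_smul]

variable [NoZeroDivisors Λ]

include hN hQ in
omit [DecidableEq k] in
/-- (A3) fullness with two terms -/
theorem full_two (e : Matrix k k Λ) (he : e * e = e) (h0 : e ≠ 0) :
    ∃ (y₁ y₂ : Matrix k Unit Λ) (φ₁ φ₂ : Matrix Unit k Λ), e * y₁ = y₁ ∧ e * y₂ = y₂ ∧
      φ₁ * e = φ₁ ∧ φ₂ * e = φ₂ ∧ φ₁ * y₁ + φ₂ * y₂ = 1 := by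
  classical
  obtain ⟨i, j, hij⟩ := Se.exists_entry h0
  set y : Matrix k Unit Λ := e * Matrix.single j () (1 : Λ) with hy
  have hyi : y i () ≠ 0 := by rw [hy, Se.col_apply]; exact hij
  have hey : e * y = y := by rw [hy, ← Matrix.mul_assoc, he]
  have hy0 : y ≠ 0 := fun h => hyi (Se.entry_zero h i)
  set φ₁ : Matrix Unit k Λ := Matrix.single () i (1 : Λ) * e with hφ₁
  have hd : (φ₁ * y) () () ≠ 0 := by
    rw [hφ₁, Matrix.mul_assoc, hey, Se.row_apply]
    exact hyi
  obtain ⟨w, φ, μ, hw, h⟩ := Se.unimod_mat hN Q hQ e hey hy0 0 (φ₁ * y) hd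
  rw [zero_add] at h
  refine ⟨y, w, μ * φ₁, φ * e, hey, hw, ?_, ?_, ?_⟩
  · rw [hφ₁, Matrix.mul_assoc, Matrix.mul_assoc, he]
  · rw [Matrix.mul_assoc, he]
  · rw [Matrix.mul_assoc, Matrix.mul_assoc φ, hw, add_comm, h]

include hN hQ in
omit [DecidableEq k] in
/-- (A1) the rank one idempotent through a vector of the image of `e` -/
theorem rank_one (e : Matrix k k Λ) (he : e * e = e) (x : Matrix k Unit Λ) (hx : e * x = x)
    (hx0 : x ≠ 0) : ∃ π : Matrix k k Λ, π * π = π ∧ e * π = π ∧ π * e = π ∧ π * x = x ∧ R1 π := by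
  classical
  have hD := Loc.isDomain N R hN
  obtain ⟨i, hi⟩ : ∃ i, x i () ≠ 0 := by
    by_contra h
    push Not at h
    exact hx0 (Matrix.ext fun i j => h i)
  -- the saturated set
  set S : Set (k → Λ) := {y | e * (Matrix.of fun i (_ : Unit) => y i) =
    (Matrix.of fun i (_ : Unit) => y i) ∧ OnLine R x (Matrix.of fun i (_ : Unit) => y i)} with hS
  have hof : ∀ y : Matrix k Unit Λ, (Matrix.of fun i (_ : Unit) => y i ()) = y := fun y => rfl
  have hSat : BW.AP.Sat N S := by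
    have hfix := BW.AP.sat_fix R hN e
    have hiff : ∀ y : k → Λ, e * (Matrix.of fun i (_ : Unit) => y i) =
        (Matrix.of fun i (_ : Unit) => y i) ↔ y ∈ {y : k → Λ | e *ᵥ y = y} := by
      intro y
      constructor
      · intro h
        change e *ᵥ y = y
        funext i
        exact congrFun (congrFun h i) ()
      · intro h
        ext i j
        exact congrFun (show e *ᵥ y = y from h) i
    refine ⟨?_, ?_, ?_⟩
    · rintro v w ⟨hv, r, hr, l, hl⟩ ⟨hw, s, hs, m, hm⟩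
      refine ⟨(hiff _).2 (hfix.add _ _ ((hiff _).1 hv) ((hiff _).1 hw)), r * s, mul_ne_zero hr hs,
        s • l + r • m, ?_⟩
      have e1 : (Matrix.of fun i (_ : Unit) => v i + w i) =
        (Matrix.of fun i (_ : Unit) => v i) + (Matrix.of fun i (_ : Unit) => w i) := rfl
      rw [e1, Matrix.mul_add, Matrix.mul_smul, Matrix.mul_smul, ← hl, ← hm, smul_add, smul_smul,
        smul_smul, mul_comm s r]
    · rintro v ⟨hv, r, hr, l, hl⟩ a
      refine ⟨(hiff _).2 (hfix.rmul _ ((hiff _).1 hv) a), r, hr, l * Matrix.of fun _ _ => a, ?_⟩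
      rw [← Matrix.mul_assoc, ← hl]
      ext i j
      rw [Matrix.mul_apply, Fintype.sum_unique, Matrix.smul_apply, Matrix.smul_apply]
      change r • (v i * a) = (r • v i) * a
      rw [smul_mul_assoc]
    · rintro p hp hpN v ⟨hv, r, hr, l, hl⟩
      refine ⟨(hiff _).2 (hfix.div p hp hpN _ ((hiff _).1 hv)), r * (p : R),
        mul_ne_zero hr (Loc.prime hp hpN hN).ne_zero, l, ?_⟩
      rw [← hl, mul_smul]
      congr 1
      ext i j
      change (p : R) • v i = (p : Λ) * v i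
      rw [BW.AP.natCast_smul (R := R)]
  have hxS : (fun i => x i ()) ∈ S := ⟨hx, 1, one_ne_zero, 1, by rw [one_smul, Matrix.mul_one]; rfl⟩
  set φ₁ : Matrix Unit k Λ := Matrix.single () i (1 : Λ) with hφ₁
  set a : Matrix Unit Unit Λ := φ₁ * x with ha
  have ha' : a () () ≠ 0 := by rw [ha, hφ₁, Se.row_apply]; exact hi
  set nA : R := Q.n (a () ()) with hnA
  have hnA0 : nA ≠ 0 := Se.n_ne_zero Q hQ ha'
  have hd : Q.n (algebraMap R Λ nA) ≠ 0 := by
    apply Se.n_ne_zero Q hQ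
    intro h
    exact hnA0 (Q.inj (by rw [h, map_zero]))
  obtain ⟨w, hw, φ, μ, h⟩ := BW.AP.exists_unimod hN Q hSat hxS (i := i)
    (Se.n_ne_zero Q hQ hi) (fun _ => 0) (algebraMap R Λ nA) hd
  simp only [zero_add] at h
  obtain ⟨hew, hlw⟩ := hw
  set w' : Matrix k Unit Λ := Matrix.of fun i _ => w i with hw'
  set φ₂ : Matrix Unit k Λ := Matrix.of fun _ j => φ j with hφ₂
  set b : Matrix Unit Unit Λ := φ₂ * w' with hb
  have hb' : b + (Matrix.of fun (_ _ : Unit) => μ) * (nA • (1 : Matrix Unit Unit Λ)) = 1 := by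
    refine Se.ext_u ?_
    have h1 : ((Matrix.of fun (_ _ : Unit) => μ) * (nA • (1 : Matrix Unit Unit Λ))) () () =
        μ * algebraMap R Λ nA := by
      rw [Matrix.mul_apply, Fintype.sum_unique, Matrix.smul_apply, Matrix.one_apply_eq,
        ← Algebra.algebraMap_eq_smul_one]
      rfl
    rw [Matrix.add_apply, h1, Matrix.one_apply_eq, ← h]
    rfl
  obtain ⟨β, α, hαβ⟩ := Se.coprime_of hN Q hb'
  set nB : R := Q.n (b () ()) with hnB
  -- the idempotent
  set π : Matrix k k Λ := α • (x * (aᴴ * (φ₁ * e))) + β • (w' * (bᴴ * (φ₂ * e))) with hπ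
  have hlx : OnLine R x x := ⟨1, one_ne_zero, 1, by rw [one_smul, Matrix.mul_one]⟩
  have hfix : ∀ y : Matrix k Unit Λ, e * y = y → OnLine R x y → π * y = y := by
    intro y hey hly
    have e1 := OnLine.r1 hN Q hQ hlx hly φ₁
    have e2 := OnLine.r1 hN Q hQ hlw hly φ₂
    rw [← ha, Se.star_mul_u Q hQ, ← hnA, Matrix.mul_smul, Matrix.mul_one] at e1
    rw [← hb, Se.star_mul_u Q hQ, ← hnB, Matrix.mul_smul, Matrix.mul_one] at e2
    rw [hπ, Matrix.add_mul, Matrix.smul_mul, Matrix.smul_mul]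
    simp only [Matrix.mul_assoc]
    rw [hey, ← e1, ← e2, smul_smul, smul_smul, ← add_smul, add_comm, hαβ, one_smul]
  have hπy : ∀ y : Matrix k Unit Λ, e * (π * y) = π * y ∧ OnLine R x (π * y) := by
    intro y
    have e1 : π * y = α • (x * (aᴴ * (φ₁ * (e * y)))) + β • (w' * (bᴴ * (φ₂ * (e * y)))) := by
      rw [hπ, Matrix.add_mul, Matrix.smul_mul, Matrix.smul_mul]
      simp only [Matrix.mul_assoc]
    constructor
    · rw [e1, Matrix.mul_add, Matrix.mul_smul, Matrix.mul_smul, ← Matrix.mul_assoc e x,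
        ← Matrix.mul_assoc e w', hx, hew]
    · obtain ⟨s, hs, m, hm⟩ := hlw
      refine ⟨s, hs, s • α • (aᴴ * (φ₁ * (e * y))) + β • (m * (bᴴ * (φ₂ * (e * y)))), ?_⟩
      rw [e1, smul_add, Matrix.mul_add, Matrix.mul_smul, Matrix.mul_smul, Matrix.mul_smul,
        ← Matrix.mul_assoc x m, ← hm, Matrix.smul_mul, smul_comm s β]
  have hcol : ∀ A B : Matrix k k Λ, (∀ y : Matrix k Unit Λ, A * y = B * y) → A = B := by
    intro A B hAB
    ext i j
    have := congrFun (congrFun (hAB (Matrix.single j () 1)) i) ()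
    rwa [Se.col_apply, Se.col_apply] at this
  refine ⟨π, ?_, ?_, ?_, hfix x hx hlx, ?_⟩
  · apply hcol
    intro y
    rw [Matrix.mul_assoc]
    exact hfix _ (hπy y).1 (hπy y).2
  · apply hcol
    intro y
    rw [Matrix.mul_assoc]
    exact (hπy y).1
  · rw [hπ, Matrix.add_mul, Matrix.smul_mul, Matrix.smul_mul]
    simp only [Matrix.mul_assoc]
    rw [he]
  · intro z y φ hz hy
    refine OnLine.r1 hN Q hQ (x := x) ?_ ?_ φ
    · rw [← hz]; exact (hπy z).2
    · rw [← hy]; exact (hπy y).2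

end Rank

end BWP
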