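import Pool.Agent.BWP.Defs
import Pool.Agent.BW.APMain
import Pool.Agent.BWE.Lev2

/-!
# Free lines in idempotents of rank at least two, and generators of rank one idempotents
-/

namespace BWP

open Matrix
open BW hiding star
open BWC

section Arith

variable {N : ℕ} {R Λ k : Type*} [DecidableEq k] [Fintype k] [CommRing R]
  [IsLocalization.Away (N : ℤ) R] [Ring Λ] [StarRing Λ] [Algebra R Λ] [Module.Free R Λ]
  [Module.Finite R Λ] (hN : N ≠ 0) (Q : QAlg N R Λ) (hQ : ∀ x, star x = Q.conj x)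
  [NoZeroDivisors Λ]

namespace Se

section basic

omit [DecidableEq k] [IsLocalization.Away (N : ℤ) R] [Module.Free R Λ] [Module.Finite R Λ]

omit [NoZeroDivisors Λ] in
include hQ in
theorem star_mul_u (a : Matrix Unit Unit Λ) :
    aᴴ * a = Q.n (a () ()) • (1 : Matrix Unit Unit Λ) := by
  ext i j
  rw [Matrix.mul_apply, Fintype.sum_unique, Matrix.conjTranspose_apply, Matrix.smul_apply]
  have hi : i = () := rfl
  have hj : j = () := rfl
  subst hi hj
  rw [Matrix.one_apply_eq, ← Algebra.algebraMap_eq_smul_one, ← Q.conj_mul_self, hQ]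

omit [NoZeroDivisors Λ] in
include hQ in
theorem mul_star_u (a : Matrix Unit Unit Λ) :
    a * aᴴ = Q.n (a () ()) • (1 : Matrix Unit Unit Λ) := by
  ext i j
  rw [Matrix.mul_apply, Fintype.sum_unique, Matrix.conjTranspose_apply, Matrix.smul_apply]
  have hi : i = () := rfl
  have hj : j = () := rfl
  subst hi hj
  rw [Matrix.one_apply_eq, ← Algebra.algebraMap_eq_smul_one, ← Q.mul_conj, hQ]

include hQ in
theorem n_ne_zero {x : Λ} (hx : x ≠ 0) : Q.n x ≠ 0 := by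
  intro h
  have h1 : star x * x = 0 := by rw [hQ, Q.conj_mul_self, h, map_zero]
  rcases mul_eq_zero.1 h1 with h2 | h2
  · exact hx (star_eq_zero.1 h2)
  · exact hx h2

omit [Fintype k] [StarRing Λ] [NoZeroDivisors Λ] in
theorem exists_entry {e : Matrix k k Λ} (h : e ≠ 0) : ∃ i j, e i j ≠ 0 := by
  by_contra h'
  push Not at h'
  exact h (Matrix.ext h')

omit [Ring Λ] [StarRing Λ] [NoZeroDivisors Λ] in
theorem ext_u {a b : Matrix Unit Unit Λ} (h : a () () = b () ()) : a = b := by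
  ext i j
  exact h

end basic

include hN hQ in
omit [DecidableEq k] in
/-- `exists_unimod` for idempotents, with matrices -/
theorem unimod_mat (f : Matrix k k Λ) {y : Matrix k Unit Λ} (hy : f * y = y)
    (hy0 : y ≠ 0) (v : Matrix k Unit Λ) (d : Matrix Unit Unit Λ) (hd : d () () ≠ 0) :
    ∃ (w : Matrix k Unit Λ) (φ : Matrix Unit k Λ) (μ : Matrix Unit Unit Λ),
      f * w = w ∧ φ * (v + w) + μ * d = 1 := by
  classical
  obtain ⟨i, hi⟩ : ∃ i, y i () ≠ 0 := by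
    by_contra h
    push Not at h
    exact hy0 (Matrix.ext fun i j => h i)
  have hyS : (fun i => y i ()) ∈ {y : k → Λ | f *ᵥ y = y} := by
    change f *ᵥ (fun i => y i ()) = fun i => y i ()
    funext i
    exact congrFun (congrFun hy i) ()
  obtain ⟨w, hw, φ, μ, h⟩ := BW.AP.exists_unimod hN Q (BW.AP.sat_fix R hN f)
    (y := fun i => y i ()) hyS (i := i) (n_ne_zero Q hQ hi) (fun i => v i ()) (d () ())
    (n_ne_zero Q hQ hd)
  refine ⟨Matrix.of fun i _ => w i, Matrix.of fun _ j => φ j, Matrix.of fun _ _ => μ, ?_, ?_⟩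
  · ext i j
    exact congrFun (show f *ᵥ w = w from hw) i
  · have h1 : (Matrix.of fun (_ _ : Unit) => μ) * d = Matrix.of fun _ _ => μ * d () () := by
      ext i j
      rw [Matrix.mul_apply, Fintype.sum_unique]
      rfl
    refine ext_u ?_
    rw [h1, Matrix.add_apply, Matrix.mul_apply, Matrix.one_apply_eq, ← h]
    rfl

omit [DecidableEq k] [Fintype k] [StarRing Λ] [NoZeroDivisors Λ] in
theorem entry_zero {z : Matrix k Unit Λ} (h : z = 0) (i : k) : z i () = 0 := by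
  rw [h]
  rfl

omit [StarRing Λ] [NoZeroDivisors Λ] in
theorem col_apply (f : Matrix k k Λ) (i j : k) :
    (f * (Matrix.single j () 1 : Matrix k Unit Λ)) i () = f i j := by
  rw [Matrix.mul_apply, Finset.sum_eq_single j]
  · rw [Matrix.single_apply_same, mul_one]
  · intro b _ hb
    rw [Matrix.single_apply_of_row_ne hb.symm, mul_zero]
  · intro h
    exact absurd (Finset.mem_univ _) h

omit [StarRing Λ] [NoZeroDivisors Λ] in
theorem row_apply (z : Matrix k Unit Λ) (i : k) :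
    ((Matrix.single () i 1 : Matrix Unit k Λ) * z) () () = z i () := by
  rw [Matrix.mul_apply, Finset.sum_eq_single i]
  · rw [Matrix.single_apply_same, one_mul]
  · intro b _ hb
    rw [Matrix.single_apply_of_col_ne () () hb.symm, zero_mul]
  · intro h
    exact absurd (Finset.mem_univ _) h

end Se

include hN hQ in
/-- (A4) an idempotent of rank at least two contains a free line, and a vector outside -/
theorem serre (e π : Matrix k k Λ) (he : e * e = e) (hπ : π * π = π) (h1 : e * π = π)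
    (h2 : π * e = π) (h0 : π ≠ 0) (h3 : π ≠ e) :
    ∃ (w : Matrix k Unit Λ) (φ : Matrix Unit k Λ), e * w = w ∧ φ * e = φ ∧ φ * w = 1 ∧
      ∃ x : Matrix k Unit Λ, x ≠ 0 ∧ e * x = x ∧ φ * x = 0 := by
  obtain ⟨i, j, hij⟩ := Se.exists_entry h0
  obtain ⟨i', j', hij'⟩ := Se.exists_entry (sub_ne_zero.2 h3.symm)
  -- the vector `z` of the image of `π`, and the form `ψ`
  set z : Matrix k Unit Λ := π * Matrix.single j () (1 : Λ) with hz
  have hzi : z i () ≠ 0 := by rw [hz, Se.col_apply]; exact hij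
  have hπz : π * z = z := by rw [hz, ← Matrix.mul_assoc, hπ]
  have hez : e * z = z := by rw [hz, ← Matrix.mul_assoc, h1]
  set ψ : Matrix Unit k Λ := Matrix.single () i (1 : Λ) with hψ
  -- the vector `y` of the image of `e - π`
  set y : Matrix k Unit Λ := (e - π) * Matrix.single j' () (1 : Λ) with hy
  have hff : (e - π) * (e - π) = e - π := by
    rw [sub_mul, mul_sub, mul_sub, he, h1, h2, hπ, sub_self, sub_zero]
  have hfy : (e - π) * y = y := by rw [hy, ← Matrix.mul_assoc, hff]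
  have hy0 : y ≠ 0 := fun h => by
    have := Se.entry_zero h i'
    rw [hy, Se.col_apply] at this
    exact hij' this
  have he' : ∀ u : Matrix k Unit Λ, (e - π) * u = u → e * u = u := by
    intro u hu
    rw [← hu, ← Matrix.mul_assoc, mul_sub, he, h1]
  have hπ' : ∀ u : Matrix k Unit Λ, (e - π) * u = u → π * u = 0 := by
    intro u hu
    rw [← hu, ← Matrix.mul_assoc, mul_sub, h2, hπ, sub_self, Matrix.zero_mul]
  obtain ⟨w₂, φ, μ, hw₂, h⟩ := Se.unimod_mat hN Q hQ (e - π) hfy hy0 z (ψ * z)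
    (by rw [hψ, Se.row_apply]; exact hzi)
  set w : Matrix k Unit Λ := z + w₂ with hw
  have hew : e * w = w := by rw [hw, Matrix.mul_add, hez, he' _ hw₂]
  have hπw : π * w = z := by rw [hw, Matrix.mul_add, hπz, hπ' _ hw₂, add_zero]
  set φ' : Matrix Unit k Λ := φ * e + μ * (ψ * π) with hφ'
  have hφe : φ' * e = φ' := by
    rw [hφ', Matrix.add_mul, Matrix.mul_assoc, he, Matrix.mul_assoc, Matrix.mul_assoc, h2]
  have hφw : φ' * w = 1 := by
    rw [hφ', Matrix.add_mul, Matrix.mul_assoc, hew, Matrix.mul_assoc, Matrix.mul_assoc, hπw, h]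
  refine ⟨w, φ', hew, hφe, hφw, ?_⟩
  have key : ∀ u : Matrix k Unit Λ, e * u = u → u - w * (φ' * u) ≠ 0 →
      ∃ x : Matrix k Unit Λ, x ≠ 0 ∧ e * x = x ∧ φ' * x = 0 := by
    intro u hu hu0
    refine ⟨u - w * (φ' * u), hu0, ?_, ?_⟩
    · rw [Matrix.mul_sub, hu, ← Matrix.mul_assoc, hew]
    · rw [Matrix.mul_sub, ← Matrix.mul_assoc, hφw, Matrix.one_mul, sub_self]
  by_contra hcon
  have k1 : z = w * (φ' * z) := by
    by_contra hne
    exact hcon (key z hez (sub_ne_zero.2 hne))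
  have k2 : y = w * (φ' * y) := by
    by_contra hne
    exact hcon (key y (he' y hfy) (sub_ne_zero.2 hne))
  have k3 : z * (φ' * y) = 0 := by
    rw [← hπw, Matrix.mul_assoc, ← k2]
    exact hπ' y hfy
  have k4 : φ' * y = 0 := by
    refine Se.ext_u ?_
    have h5 := Se.entry_zero k3 i
    rw [Matrix.mul_apply, Fintype.sum_unique] at h5
    exact (mul_eq_zero.1 h5).resolve_left hzi
  rw [k4, Matrix.mul_zero] at k2
  exact hy0 k2

namespace Se

section two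

omit [DecidableEq k] [NoZeroDivisors Λ]

omit [Fintype k] in
include hN hQ in
/-- scalars `s` with `sᴴ = -ε s` of norm prime to `r` -/
theorem pure_u {ε : ℤ} (hε : ε = 1 ∨ ε = -1) (r : R) (hr : r ≠ 0) :
    ∃ (s : Matrix Unit Unit Λ) (α β : R), sᴴ = -(ε • s) ∧ α * Q.n (s () ()) + β * r = 1 := by
  rcases hε with rfl | rfl
  · obtain ⟨c, α, β, hc, h⟩ := BWE.pure_coprime hN Q r hr
    refine ⟨Matrix.of fun _ _ => c, α, β, ?_, h⟩
    refine ext_u ?_
    rw [Matrix.conjTranspose_apply, one_smul, hQ]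
    change Q.conj c = -c
    rw [QAlg.conj_eq, hc, map_zero, zero_sub]
  · refine ⟨1, 1, 0, ?_, ?_⟩
    · rw [Matrix.conjTranspose_one, neg_smul, one_smul, neg_neg]
    · rw [Matrix.one_apply_eq, QAlg.n_one, zero_mul, add_zero, one_mul]

include hN hQ in
/-- a scalar `s` with `sᴴ = -ε s` of norm different from zero -/
theorem pure_u_ne {ε : ℤ} (hε : ε = 1 ∨ ε = -1) :
    ∃ s : Matrix Unit Unit Λ, sᴴ = -(ε • s) ∧ Q.n (s () ()) ≠ 0 := by
  obtain ⟨q, hq1, hq⟩ := Nat.exists_infinite_primes (N + 1)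
  have hqN : ¬ q ∣ N := fun h => by
    have := Nat.le_of_dvd (Nat.pos_of_ne_zero hN) h
    omega
  obtain ⟨s, α, β, hs, h⟩ := pure_u hN Q hQ hε (q : R) (Loc.prime hq hqN hN).ne_zero
  refine ⟨s, hs, fun h0 => ?_⟩
  rw [h0, mul_zero, zero_add] at h
  exact Loc.not_isUnit hq hqN (R := R) (IsUnit.of_mul_eq_one_right _ h)

omit [StarRing Λ] [Module.Free R Λ] [Module.Finite R Λ] in
include hN in
/-- the norm of a scalar `a` with `a + μ (n • 1) = 1` is prime to `n` -/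
theorem coprime_of {a μ : Matrix Unit Unit Λ} {n : R}
    (h : a + μ * (n • (1 : Matrix Unit Unit Λ)) = 1) : IsCoprime (Q.n (a () ())) n := by
  have h1 : a () () = 1 + n • (-(μ () ())) := by
    have h2 := congrFun (congrFun h ()) ()
    rw [mul_smul_comm, Matrix.mul_one, Matrix.add_apply, Matrix.smul_apply,
      Matrix.one_apply_eq] at h2
    rw [← h2, smul_neg]
    abel
  rw [h1, Choice.n_one_add Q hN]
  refine ⟨1, -(Q.T (-(μ () ())) + n * Q.n (-(μ () ()))), ?_⟩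
  ring

omit [IsLocalization.Away (N : ℤ) R] [Module.Free R Λ] [Module.Finite R Λ] in
include hQ in
/-- the norm of `a s aᴴ` -/
theorem n_conj_mul (a s : Matrix Unit Unit Λ) :
    Q.n ((a * s * aᴴ) () ()) = Q.n (a () ()) ^ 2 * Q.n (s () ()) := by
  rw [Matrix.mul_apply, Fintype.sum_unique, Matrix.mul_apply, Fintype.sum_unique,
    Matrix.conjTranspose_apply, hQ]
  change Q.n (a () () * s () () * Q.conj (a () ())) = _
  rw [QAlg.n_mul, QAlg.n_mul, QAlg.n_conj]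
  ring

end two

end Se

include hN hQ in
/-- (S4) the image of a rank one idempotent is generated by two elements `z s conj(φ z)`,
`s` pure (`ε = 1`: `BWE.pure_coprime`; `ε = -1`: `s = 1`) -/
theorem gen_two {ε : ℤ} (hε : ε = 1 ∨ ε = -1) (σ : Matrix k k Λ) (hσ : σ * σ = σ) (h0 : σ ≠ 0)
    (h1 : R1 σ) :
    ∃ (z₁ z₂ : Matrix k Unit Λ) (φ₁ φ₂ : Matrix Unit k Λ) (s₁ s₂ : Matrix Unit Unit Λ),
      σ * z₁ = z₁ ∧ σ * z₂ = z₂ ∧ φ₁ * σ = φ₁ ∧ φ₂ * σ = φ₂ ∧ s₁ᴴ = -(ε • s₁) ∧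
      s₂ᴴ = -(ε • s₂) ∧
      ∀ y : Matrix k Unit Λ, σ * y = y → ∃ μ₁ μ₂ : Matrix Unit Unit Λ,
        y = z₁ * s₁ * (φ₁ * z₁)ᴴ * μ₁ + z₂ * s₂ * (φ₂ * z₂)ᴴ * μ₂ := by
  have hD := Loc.isDomain N R hN
  obtain ⟨i, j, hij⟩ := Se.exists_entry h0
  set z₁ : Matrix k Unit Λ := σ * Matrix.single j () (1 : Λ) with hz₁
  have hσz₁ : σ * z₁ = z₁ := by rw [hz₁, ← Matrix.mul_assoc, hσ]
  have hz₁i : z₁ i () ≠ 0 := by rw [hz₁, Se.col_apply]; exact hij
  have hz₁0 : z₁ ≠ 0 := fun h => hz₁i (Se.entry_zero h i)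
  set φ₁ : Matrix Unit k Λ := Matrix.single () i (1 : Λ) * σ with hφ₁
  have hφ₁σ : φ₁ * σ = φ₁ := by rw [hφ₁, Matrix.mul_assoc, hσ]
  obtain ⟨s₁, hs₁, hns₁⟩ := Se.pure_u_ne hN Q hQ hε
  set a₁ : Matrix Unit Unit Λ := φ₁ * z₁ with ha₁
  have ha₁' : a₁ () () ≠ 0 := by
    rw [ha₁, hφ₁, Matrix.mul_assoc, hσz₁, Se.row_apply]
    exact hz₁i
  set nA : R := Q.n (a₁ () ()) with hnA
  set nS : R := Q.n (s₁ () ()) with hnS
  have hnA0 : nA ≠ 0 := Se.n_ne_zero Q hQ ha₁'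
  set n : R := nA * nS * nA with hn
  have hn0 : n ≠ 0 := mul_ne_zero (mul_ne_zero hnA0 hns₁) hnA0
  -- the first generator
  have e1 : ∀ y : Matrix k Unit Λ, σ * y = y →
      n • y = z₁ * s₁ * a₁ᴴ * (a₁ * s₁ᴴ * (a₁ᴴ * (φ₁ * y))) := by
    intro y hy
    have e2 := h1 z₁ y φ₁ hσz₁ hy
    rw [← ha₁, Se.star_mul_u Q hQ, ← hnA, Matrix.mul_smul, Matrix.mul_one] at e2
    have e3 : z₁ * s₁ * a₁ᴴ * (a₁ * s₁ᴴ * (a₁ᴴ * (φ₁ * y))) =
        z₁ * (s₁ * ((a₁ᴴ * a₁) * s₁ᴴ) * (a₁ᴴ * (φ₁ * y))) := by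
      simp only [Matrix.mul_assoc]
    rw [e3, Se.star_mul_u Q hQ, ← hnA, Matrix.smul_mul, Matrix.one_mul, Matrix.mul_smul,
      Se.mul_star_u Q hQ, ← hnS, smul_smul, Matrix.smul_mul, Matrix.one_mul, Matrix.mul_smul,
      ← e2, smul_smul]
  -- the second generator
  have hn1 : (n • (1 : Matrix Unit Unit Λ)) () () ≠ 0 := by
    rw [Matrix.smul_apply, Matrix.one_apply_eq, ← Algebra.algebraMap_eq_smul_one]
    intro h
    exact hn0 (Q.inj (by rw [h, map_zero]))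
  obtain ⟨z₂, φ, μ, hσz₂, h⟩ := Se.unimod_mat hN Q hQ σ hσz₁ hz₁0 0 (n • 1) hn1
  rw [zero_add] at h
  set φ₂ : Matrix Unit k Λ := φ * σ with hφ₂
  have hφ₂σ : φ₂ * σ = φ₂ := by rw [hφ₂, Matrix.mul_assoc, hσ]
  set a₂ : Matrix Unit Unit Λ := φ₂ * z₂ with ha₂
  have ha₂' : a₂ = φ * z₂ := by rw [ha₂, hφ₂, Matrix.mul_assoc, hσz₂]
  rw [← ha₂'] at h
  obtain ⟨s₂, α, β, hs₂, hαβ⟩ := Se.pure_u hN Q hQ hε n hn0
  have hc : IsCoprime (Q.n (a₂ () ()) ^ 2 * Q.n (s₂ () ())) n :=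
    IsCoprime.mul_left (Se.coprime_of hN Q h).pow_left ⟨α, β, hαβ⟩
  obtain ⟨α', β', h'⟩ := hc
  have hσg : σ * (z₂ * s₂ * a₂ᴴ) = z₂ * s₂ * a₂ᴴ := by
    rw [← Matrix.mul_assoc, ← Matrix.mul_assoc, hσz₂]
  have hφg : φ₂ * (z₂ * s₂ * a₂ᴴ) = a₂ * s₂ * a₂ᴴ := by
    rw [← Matrix.mul_assoc, ← Matrix.mul_assoc]
  refine ⟨z₁, z₂, φ₁, φ₂, s₁, s₂, hσz₁, hσz₂, hφ₁σ, hφ₂σ, hs₁, hs₂, fun y hy => ?_⟩
  have e4 := h1 (z₂ * s₂ * a₂ᴴ) y φ₂ hσg hy
  rw [Se.star_mul_u Q hQ, hφg, Se.n_conj_mul Q hQ, Matrix.mul_smul, Matrix.mul_one] at e4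
  refine ⟨β' • (a₁ * s₁ᴴ * (a₁ᴴ * (φ₁ * y))), α' • ((a₂ * s₂ * a₂ᴴ)ᴴ * (φ₂ * y)), ?_⟩
  rw [← ha₁, ← ha₂, Matrix.mul_smul, ← e1 y hy, Matrix.mul_smul, ← e4, smul_smul, smul_smul,
    ← add_smul, add_comm, h', one_smul]

end Arith

end BWP
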